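import Mathlib

/-!
# Bounded arithmetic and exponential integer parts: definitions

Definitions used in the statement of the main theorem about problem `MP_22b28a_lc`.
-/

set_option autoImplicit false

namespace Pool.Agent.Lib_helper35.EIP

universe u

/-- Terms of the language of arithmetic `{0, 1, +, ·, <}` with parameters from `M`
(in particular the constants `0` and `1`); variables are de Bruijn indices. -/
inductive ATerm (M : Type u) : Type u
  | var (i : ℕ) : ATerm M
  | param (a : M) : ATerm M
  | add (s t : ATerm M) : ATerm M
  | mul (s t : ATerm M) : ATerm M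

/-- Bounded (`Δ₀`) formulas of the language of arithmetic with parameters from `M`.
`ball t φ` is the bounded quantifier `∀ x < t, φ(x)`; it binds the variable `0` of `φ`
(and the term `t` is read outside the scope of the quantifier). -/
inductive BFormula (M : Type u) : Type u
  | eq (s t : ATerm M) : BFormula M
  | lt (s t : ATerm M) : BFormula M
  | not (φ : BFormula M) : BFormula M
  | and (φ ψ : BFormula M) : BFormula M
  | ball (t : ATerm M) (φ : BFormula M) : BFormula M

/-- The assignment `x, v 0, v 1, v 2, …`. -/
def push {M : Type u} (x : M) (v : ℕ → M) : ℕ → M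
  | 0 => x
  | n + 1 => v n

@[simp] lemma push_zero {M : Type u} (x : M) (v : ℕ → M) : push x v 0 = x := rfl
@[simp] lemma push_succ {M : Type u} (x : M) (v : ℕ → M) (n : ℕ) : push x v (n + 1) = v n := rfl

/-- The value of a term under the assignment `v`. -/
def ATerm.eval {M : Type u} [Add M] [Mul M] (v : ℕ → M) : ATerm M → M
  | .var i => v i
  | .param a => a
  | .add s t => s.eval v + t.eval v
  | .mul s t => s.eval v * t.eval v

/-- Truth of a bounded formula under the assignment `v`. -/
def BFormula.Sat {M : Type u} [Add M] [Mul M] [LT M] : (ℕ → M) → BFormula M → Prop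
  | v, .eq s t => s.eval v = t.eval v
  | v, .lt s t => s.eval v < t.eval v
  | v, .not φ => ¬ φ.Sat v
  | v, .and φ ψ => φ.Sat v ∧ ψ.Sat v
  | v, .ball t φ => ∀ x : M, x < t.eval v → φ.Sat (push x v)

/-- `M` is a model of `IΔ₀`: a discretely ordered commutative semiring with least element `0`
in which induction holds for all bounded formulas (with parameters). -/
structure IsModelIDelta0 (M : Type u) [CommSemiring M] [LinearOrder M] [IsStrictOrderedRing M] :
    Prop where
  zero_le : ∀ x : M, 0 ≤ x
  discrete : ∀ x : M, 0 < x → 1 ≤ x
  induction : ∀ (φ : BFormula M) (v : ℕ → M), φ.Sat (push 0 v) →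
    (∀ x : M, φ.Sat (push x v) → φ.Sat (push (x + 1) v)) → ∀ x : M, φ.Sat (push x v)

/-- `M` is polynomially bounded: the powers of some element are cofinal. -/
def PolynomiallyBounded (M : Type u) [CommSemiring M] [LinearOrder M] : Prop :=
  ∃ a : M, ∀ x : M, ∃ n : ℕ, x ≤ a ^ n

/-- `e` is a base-2 exponential on the ordered field `R`: an isomorphism of
`(R, +, <)` onto `(R_{>0}, ·, <)` with `e 1 = 2`. -/
structure IsBaseTwoExponential {R : Type u} [Field R] [LinearOrder R] (e : R → R) : Prop where
  map_add : ∀ x y : R, e (x + y) = e x * e y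
  strictMono : StrictMono e
  range_eq : Set.range e = {y : R | 0 < y}
  map_one : e 1 = 2

/-- `Z` is an integer part of the ordered field `R`: a discretely ordered subring such that every
`r : R` satisfies `z ≤ r < z + 1` for some `z ∈ Z`. -/
structure IsIntegerPart {R : Type u} [Field R] [LinearOrder R] (Z : Subring R) : Prop where
  discrete : ∀ z ∈ Z, 0 < z → 1 ≤ z
  floor : ∀ r : R, ∃ z ∈ Z, z ≤ r ∧ r < z + 1

end Pool.Agent.Lib_helper35.EIP
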