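import Mathlib

/-!
# The ordered ring obtained from an ordered semiring by adjoining negatives
-/

set_option autoImplicit false

namespace Pool.Agent.Lib_helper35.EIP

universe u

variable (M : Type u) [CommSemiring M] [LinearOrder M] [IsStrictOrderedRing M]

/-- Pairs representing the same difference. -/
def diffSetoid : Setoid (M × M) where
  r p q := p.1 + q.2 = q.1 + p.2
  iseqv := by
    refine ⟨fun p => rfl, fun {p q} h => h.symm, fun {p q r} h1 h2 => ?_⟩
    have : (p.1 + r.2) + q.2 = (r.1 + p.2) + q.2 := by
      calc (p.1 + r.2) + q.2 = (p.1 + q.2) + r.2 := by ring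
        _ = (q.1 + p.2) + r.2 := by rw [h1]
        _ = (q.1 + r.2) + p.2 := by ring
        _ = (r.1 + q.2) + p.2 := by rw [h2]
        _ = (r.1 + p.2) + q.2 := by ring
    exact add_right_cancel this

/-- The ring of differences. -/
def ZR : Type u := Quotient (diffSetoid M)

variable {M}

namespace ZR

/-- The difference `a - b`. -/
def mk (a b : M) : ZR M := Quotient.mk (diffSetoid M) (a, b)

lemma mk_eq {a b c d : M} : mk a b = mk c d ↔ a + d = c + b := by
  constructor
  · intro h
    exact Quotient.exact h
  · intro h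
    exact Quotient.sound h

lemma ind {P : ZR M → Prop} (h : ∀ a b, P (mk a b)) (x : ZR M) : P x :=
  Quotient.inductionOn x (fun p => h p.1 p.2)

instance : Zero (ZR M) := ⟨mk 0 0⟩
instance : One (ZR M) := ⟨mk 1 0⟩
instance : Neg (ZR M) := ⟨Quotient.map (fun p => (p.2, p.1)) (fun p q (h : p.1 + q.2 = q.1 + p.2) => by
  show p.2 + q.1 = q.2 + p.1
  rw [add_comm, ← h, add_comm])⟩
instance : Add (ZR M) := ⟨Quotient.map₂ (fun p q => (p.1 + q.1, p.2 + q.2))
  (fun p p' (h : p.1 + p'.2 = p'.1 + p.2) q q' (h' : q.1 + q'.2 = q'.1 + q.2) => by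
    show (p.1 + q.1) + (p'.2 + q'.2) = (p'.1 + q'.1) + (p.2 + q.2)
    calc (p.1 + q.1) + (p'.2 + q'.2) = (p.1 + p'.2) + (q.1 + q'.2) := by ring
      _ = (p'.1 + p.2) + (q'.1 + q.2) := by rw [h, h']
      _ = _ := by ring)⟩
instance : Mul (ZR M) := ⟨Quotient.map₂ (fun p q => (p.1 * q.1 + p.2 * q.2, p.1 * q.2 + p.2 * q.1))
  (fun p p' (h : p.1 + p'.2 = p'.1 + p.2) q q' (h' : q.1 + q'.2 = q'.1 + q.2) => by
    have h1 : (diffSetoid M).r (p.1 * q.1 + p.2 * q.2, p.1 * q.2 + p.2 * q.1)
        (p'.1 * q.1 + p'.2 * q.2, p'.1 * q.2 + p'.2 * q.1) := by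
      show (p.1 * q.1 + p.2 * q.2) + (p'.1 * q.2 + p'.2 * q.1)
        = (p'.1 * q.1 + p'.2 * q.2) + (p.1 * q.2 + p.2 * q.1)
      calc _ = (p.1 + p'.2) * q.1 + (p'.1 + p.2) * q.2 := by ring
        _ = (p'.1 + p.2) * q.1 + (p.1 + p'.2) * q.2 := by rw [h]
        _ = _ := by ring
    have h2 : (diffSetoid M).r (p'.1 * q.1 + p'.2 * q.2, p'.1 * q.2 + p'.2 * q.1)
        (p'.1 * q'.1 + p'.2 * q'.2, p'.1 * q'.2 + p'.2 * q'.1) := by
      show (p'.1 * q.1 + p'.2 * q.2) + (p'.1 * q'.2 + p'.2 * q'.1)
        = (p'.1 * q'.1 + p'.2 * q'.2) + (p'.1 * q.2 + p'.2 * q.1)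
      calc _ = p'.1 * (q.1 + q'.2) + p'.2 * (q'.1 + q.2) := by ring
        _ = p'.1 * (q'.1 + q.2) + p'.2 * (q.1 + q'.2) := by rw [h']
        _ = _ := by ring
    exact (diffSetoid M).iseqv.trans h1 h2)⟩

lemma zero_def : (0 : ZR M) = mk 0 0 := rfl
lemma one_def : (1 : ZR M) = mk 1 0 := rfl
lemma neg_mk (a b : M) : -(mk a b) = mk b a := rfl
lemma mk_add_mk (a b c d : M) : mk a b + mk c d = mk (a + c) (b + d) := rfl
lemma mk_mul_mk (a b c d : M) : mk a b * mk c d = mk (a * c + b * d) (a * d + b * c) := rfl

instance : CommRing (ZR M) where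
  add := (· + ·)
  add_assoc x y z := by
    induction x using ind; induction y using ind; induction z using ind
    simp only [mk_add_mk, add_assoc]
  zero := 0
  zero_add x := by
    induction x using ind
    simp only [zero_def, mk_add_mk, zero_add]
  add_zero x := by
    induction x using ind
    simp only [zero_def, mk_add_mk, add_zero]
  nsmul := nsmulRec
  zsmul := zsmulRec
  neg := Neg.neg
  neg_add_cancel x := by
    induction x using ind
    rw [neg_mk, mk_add_mk, zero_def, mk_eq]
    ring
  add_comm x y := by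
    induction x using ind; induction y using ind
    rw [mk_add_mk, mk_add_mk, mk_eq]
    ring
  mul := (· * ·)
  left_distrib x y z := by
    induction x using ind; induction y using ind; induction z using ind
    simp only [mk_add_mk, mk_mul_mk, mk_eq]
    ring
  right_distrib x y z := by
    induction x using ind; induction y using ind; induction z using ind
    simp only [mk_add_mk, mk_mul_mk, mk_eq]
    ring
  zero_mul x := by
    induction x using ind
    simp only [zero_def, mk_mul_mk, mk_eq]
    ring
  mul_zero x := by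
    induction x using ind
    simp only [zero_def, mk_mul_mk, mk_eq]
    ring
  mul_assoc x y z := by
    induction x using ind; induction y using ind; induction z using ind
    simp only [mk_mul_mk, mk_eq]
    ring
  one := 1
  one_mul x := by
    induction x using ind
    simp only [one_def, mk_mul_mk, mk_eq]
    ring
  mul_one x := by
    induction x using ind
    simp only [one_def, mk_mul_mk, mk_eq]
    ring
  mul_comm x y := by
    induction x using ind; induction y using ind
    simp only [mk_mul_mk, mk_eq]
    ring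

/-- The order relation. -/
def leRel : ZR M → ZR M → Prop := Quotient.lift₂ (fun p q => p.1 + q.2 ≤ q.1 + p.2)
  (fun p q p' q' (h : p.1 + p'.2 = p'.1 + p.2) (h' : q.1 + q'.2 = q'.1 + q.2) => by
    simp only [eq_iff_iff]
    have e1 : (p.1 + q.2) + (p'.2 + q'.2) = (p'.1 + q'.2) + (p.2 + q.2) := by
      calc _ = (p.1 + p'.2) + (q.2 + q'.2) := by ring
        _ = (p'.1 + p.2) + (q.2 + q'.2) := by rw [h]
        _ = _ := by ring
    have e2 : (q.1 + p.2) + (p'.2 + q'.2) = (q'.1 + p'.2) + (p.2 + q.2) := by
      calc _ = (q.1 + q'.2) + (p.2 + p'.2) := by ring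
        _ = (q'.1 + q.2) + (p.2 + p'.2) := by rw [h']
        _ = _ := by ring
    rw [← add_le_add_iff_right (p'.2 + q'.2), e1, e2, add_le_add_iff_right])

lemma leRel_mk {a b c d : M} : leRel (mk a b) (mk c d) ↔ a + d ≤ c + b := Iff.rfl

noncomputable instance : LinearOrder (ZR M) where
  le := leRel
  le_refl x := by
    induction x using ind
    rw [leRel_mk]
  le_trans x y z := by
    induction x using ind with | _ a b
    induction y using ind with | _ c d
    induction z using ind with | _ e f
    simp only [leRel_mk]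
    intro h1 h2
    have : (a + f) + (c + d) ≤ (e + b) + (c + d) := by
      calc (a + f) + (c + d) = (a + d) + (c + f) := by ring
        _ ≤ (c + b) + (e + d) := add_le_add h1 h2
        _ = _ := by ring
    exact le_of_add_le_add_right this
  le_antisymm x y := by
    induction x using ind with | _ a b
    induction y using ind with | _ c d
    simp only [leRel_mk, mk_eq]
    exact le_antisymm
  le_total x y := by
    induction x using ind with | _ a b
    induction y using ind with | _ c d
    simp only [leRel_mk]
    exact le_total _ _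
  toDecidableLE := Classical.decRel _

lemma mk_le_mk {a b c d : M} : mk a b ≤ mk c d ↔ a + d ≤ c + b := Iff.rfl

instance [ExistsAddOfLE M] : IsStrictOrderedRing (ZR M) := by
  have hadd : ∀ x y : ZR M, x ≤ y → ∀ z, x + z ≤ y + z := by
    intro x y h z
    revert h
    induction x using ind with | _ a b
    induction y using ind with | _ c d
    induction z using ind with | _ e f
    simp only [mk_le_mk, mk_add_mk]
    intro h
    have : (a + d) + (e + f) ≤ (c + b) + (e + f) := by gcongr
    calc (a + e) + (d + f) = (a + d) + (e + f) := by ring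
      _ ≤ (c + b) + (e + f) := this
      _ = _ := by ring
  have : IsOrderedAddMonoid (ZR M) := ⟨fun x y h z => hadd x y h z, fun x y h z => by
    rw [add_comm z x, add_comm z y]; exact hadd x y h z⟩
  have : ZeroLEOneClass (ZR M) := ⟨by
    rw [zero_def, one_def, mk_le_mk]
    simp⟩
  have : Nontrivial (ZR M) := ⟨0, 1, by
    rw [zero_def, one_def, Ne, mk_eq]
    simp⟩
  refine IsStrictOrderedRing.of_mul_pos ?_
  intro x y hx hy
  revert hx hy
  induction x using ind with | _ a b
  induction y using ind with | _ c d
  rw [← not_le, ← not_le, ← not_le]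
  simp only [zero_def, mk_le_mk, mk_mul_mk, add_zero, zero_add, not_le]
  intro h1 h2
  have := mul_add_mul_lt_mul_add_mul h1 h2
  calc a * d + b * c = b * c + a * d := by ring
    _ < b * d + a * c := this
    _ = _ := by ring

/-- The embedding of the semiring in its ring of differences. -/
def ι : M →+* ZR M where
  toFun a := mk a 0
  map_zero' := rfl
  map_one' := rfl
  map_add' a b := by simp only [mk_add_mk, add_zero]
  map_mul' a b := by simp only [mk_mul_mk, mul_zero, zero_mul, add_zero]

lemma ι_strictMono : StrictMono (ι : M → ZR M) := by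
  intro a b h
  show mk a 0 < mk b 0
  rw [← not_le, mk_le_mk]
  simpa using h

lemma mk_eq_sub (a b : M) : mk a b = ι a - ι b := by
  show mk a b = mk a 0 + -(mk b 0)
  rw [neg_mk, mk_add_mk, add_zero, zero_add]

lemma exists_of_nonneg [ExistsAddOfLE M] (z : ZR M) (hz : 0 ≤ z) :
    ∃ m : M, ι m = z := by
  induction z using ind with | _ a b
  rw [zero_def, mk_le_mk] at hz
  simp only [zero_add, add_zero] at hz
  obtain ⟨c, hc⟩ := exists_add_of_le hz
  refine ⟨c, ?_⟩
  show mk c 0 = mk a b
  rw [mk_eq, hc]
  ring

instance [Countable M] : Countable (ZR M) := by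
  unfold ZR
  infer_instance

end ZR

end Pool.Agent.Lib_helper35.EIP
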