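import Mathlib
import Pool.Agent.Lib_helper35.EIP.Defs
import Pool.Agent.Lib_helper35.EIP.ZRing

/-!
# A calculus of bounded definability over the ring of differences
-/

set_option autoImplicit false

namespace Pool.Agent.Lib_helper35.EIP

universe u

section calculus

variable {Z : Type u} [CommRing Z] [LinearOrder Z]

/-- Polynomial functions of an assignment. -/
inductive PolyI : ((ℕ → Z) → Z) → Prop
  | var (i : ℕ) : PolyI (fun v => v i)
  | const (z : Z) : PolyI (fun _ => z)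
  | add {s t : (ℕ → Z) → Z} : PolyI s → PolyI t → PolyI (fun v => s v + t v)
  | mul {s t : (ℕ → Z) → Z} : PolyI s → PolyI t → PolyI (fun v => s v * t v)

/-- Bounded definable properties of an assignment. -/
inductive DI : ((ℕ → Z) → Prop) → Prop
  | eq {s t : (ℕ → Z) → Z} : PolyI s → PolyI t → DI (fun v => s v = t v)
  | lt {s t : (ℕ → Z) → Z} : PolyI s → PolyI t → DI (fun v => s v < t v)
  | not {P : (ℕ → Z) → Prop} : DI P → DI (fun v => ¬ P v)
  | and {P Q : (ℕ → Z) → Prop} : DI P → DI Q → DI (fun v => P v ∧ Q v)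
  | ball {t : (ℕ → Z) → Z} {P : (ℕ → Z) → Prop} : PolyI t → DI P →
      DI (fun v => ∀ x, 0 ≤ x → x < t v → P (push x v))

/-- Class version of `PolyI`. -/
class PF (f : (ℕ → Z) → Z) : Prop where
  out : PolyI f

/-- Class version of `DI`. -/
class DZ (P : (ℕ → Z) → Prop) : Prop where
  out : DI P

instance (priority := 2000) PF.const (z : Z) : PF (fun _ : ℕ → Z => z) := ⟨.const z⟩
instance PF.var (i : ℕ) : PF (fun v : ℕ → Z => v i) := ⟨.var i⟩
instance PF.add {s t : (ℕ → Z) → Z} [hs : PF s] [ht : PF t] : PF (fun v => s v + t v) :=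
  ⟨.add hs.out ht.out⟩
instance PF.mul {s t : (ℕ → Z) → Z} [hs : PF s] [ht : PF t] : PF (fun v => s v * t v) :=
  ⟨.mul hs.out ht.out⟩
instance PF.neg {s : (ℕ → Z) → Z} [hs : PF s] : PF (fun v => - s v) :=
  ⟨by simpa using PolyI.mul (.const (-1)) hs.out⟩
instance PF.sub {s t : (ℕ → Z) → Z} [hs : PF s] [ht : PF t] : PF (fun v => s v - t v) :=
  ⟨by simpa [sub_eq_add_neg] using PolyI.add hs.out (PF.neg (s := t)).out⟩
instance PF.pow {s : (ℕ → Z) → Z} [hs : PF s] (n : ℕ) : PF (fun v => s v ^ n) :=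
  ⟨by
    induction n with
    | zero => simpa using PolyI.const 1
    | succ n ih => simpa [pow_succ] using PolyI.mul ih hs.out⟩
instance PF.natMul {s : (ℕ → Z) → Z} [hs : PF s] (n : ℕ) : PF (fun v => (n : ℕ) • s v) :=
  ⟨by simpa using PolyI.mul (.const (n : Z)) hs.out⟩

lemma DZ.congr {P Q : (ℕ → Z) → Prop} (hP : DZ P) (h : ∀ v, Q v ↔ P v) : DZ Q := by
  have : Q = P := funext fun v => propext (h v)
  rw [this]; exact hP

instance DZ.eq {s t : (ℕ → Z) → Z} [hs : PF s] [ht : PF t] : DZ (fun v => s v = t v) :=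
  ⟨.eq hs.out ht.out⟩
instance DZ.lt {s t : (ℕ → Z) → Z} [hs : PF s] [ht : PF t] : DZ (fun v => s v < t v) :=
  ⟨.lt hs.out ht.out⟩
instance DZ.not {P : (ℕ → Z) → Prop} [hP : DZ P] : DZ (fun v => ¬ P v) := ⟨.not hP.out⟩
instance DZ.and {P Q : (ℕ → Z) → Prop} [hP : DZ P] [hQ : DZ Q] : DZ (fun v => P v ∧ Q v) :=
  ⟨.and hP.out hQ.out⟩
instance DZ.le {s t : (ℕ → Z) → Z} [hs : PF s] [ht : PF t] : DZ (fun v => s v ≤ t v) :=
  DZ.congr (P := fun v => ¬ t v < s v) inferInstance (fun v => not_lt.symm)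
instance DZ.or {P Q : (ℕ → Z) → Prop} [hP : DZ P] [hQ : DZ Q] : DZ (fun v => P v ∨ Q v) :=
  DZ.congr (P := fun v => ¬ (¬ P v ∧ ¬ Q v)) inferInstance (fun v => by tauto)
instance DZ.imp {P Q : (ℕ → Z) → Prop} [hP : DZ P] [hQ : DZ Q] : DZ (fun v => P v → Q v) :=
  DZ.congr (P := fun v => ¬ (P v ∧ ¬ Q v)) inferInstance (fun v => by tauto)
instance DZ.iff {P Q : (ℕ → Z) → Prop} [hP : DZ P] [hQ : DZ Q] : DZ (fun v => P v ↔ Q v) :=
  DZ.congr (P := fun v => (P v → Q v) ∧ (Q v → P v)) inferInstance (fun v => by tauto)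

instance (priority := 2000) DZ.const (p : Prop) : DZ (fun _ : ℕ → Z => p) := by
  by_cases h : p
  · exact DZ.congr (P := fun _ => (0 : Z) = 0) inferInstance (fun v => by simp [h])
  · exact DZ.congr (P := fun _ => ¬ (0 : Z) = 0) inferInstance (fun v => by simp [h])

/-- Bounded universal quantification. -/
instance DZ.ball {t : (ℕ → Z) → Z} {P : Z → (ℕ → Z) → Prop} [ht : PF t]
    [hP : DZ (fun w : ℕ → Z => P (w 0) (fun n => w (n + 1)))] :
    DZ (fun v => ∀ x, 0 ≤ x → x < t v → P x v) := ⟨DI.ball ht.out hP.out⟩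

/-- Bounded existential quantification. -/
instance DZ.bex {t : (ℕ → Z) → Z} {P : Z → (ℕ → Z) → Prop} [ht : PF t]
    [hP : DZ (fun w : ℕ → Z => P (w 0) (fun n => w (n + 1)))] :
    DZ (fun v => ∃ x, 0 ≤ x ∧ x < t v ∧ P x v) :=
  DZ.congr (P := fun v => ¬ ∀ x, 0 ≤ x → x < t v → ¬ P x v) inferInstance
    (fun v => by push Not; rfl)

lemma PolyI.comp {s : (ℕ → Z) → Z} (hs : PolyI s) {f : ℕ → (ℕ → Z) → Z} (hf : ∀ i, PolyI (f i)) :
    PolyI (fun v => s (fun i => f i v)) := by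
  induction hs with
  | var i => exact hf i
  | const z => exact .const z
  | add _ _ h1 h2 => exact .add h1 h2
  | mul _ _ h1 h2 => exact .mul h1 h2

lemma DI.comp {P : (ℕ → Z) → Prop} (hP : DI P) : ∀ {f : ℕ → (ℕ → Z) → Z}
    (_ : ∀ i, PolyI (f i)), DI (fun v => P (fun i => f i v)) := by
  induction hP with
  | eq h1 h2 => intro f hf; exact .eq (h1.comp hf) (h2.comp hf)
  | lt h1 h2 => intro f hf; exact .lt (h1.comp hf) (h2.comp hf)
  | not _ h => intro f hf; exact .not (h hf)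
  | and _ _ h1 h2 => intro f hf; exact .and (h1 hf) (h2 hf)
  | @ball t P ht _ ih =>
    intro f hf
    let g : ℕ → (ℕ → Z) → Z := fun i => match i with
      | 0 => fun w => w 0
      | i + 1 => fun w => f i (fun j => w (j + 1))
    have hg : ∀ i, PolyI (g i) := by
      intro i
      cases i with
      | zero => exact .var 0
      | succ i => exact (hf i).comp (f := fun j w => w (j + 1)) (fun j => .var (j + 1))
    have h1 := ih hg
    have h2 := DI.ball (ht.comp hf) h1
    convert h2 using 1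
    ext v
    have : ∀ x, (fun i => g i (push x v)) = push x (fun i => f i v) := by
      intro x
      ext i
      cases i with
      | zero => rfl
      | succ i => rfl
    simp only [this]

/-- Substitution of one polynomial function. -/
lemma DZ.subst1 {P : Z → Prop} (hP : DZ (fun v : ℕ → Z => P (v 0)))
    {s : (ℕ → Z) → Z} [hs : PF s] : DZ (fun v => P (s v)) :=
  ⟨DI.comp hP.out (f := fun _ => s) (fun _ => hs.out)⟩

/-- Substitution of two polynomial functions. -/
lemma DZ.subst2 {P : Z → Z → Prop} (hP : DZ (fun v : ℕ → Z => P (v 0) (v 1)))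
    {s t : (ℕ → Z) → Z} [hs : PF s] [ht : PF t] : DZ (fun v => P (s v) (t v)) :=
  ⟨DI.comp hP.out (f := fun i => match i with | 0 => s | _ => t)
    (fun i => match i with | 0 => hs.out | _ + 1 => ht.out)⟩

/-- Substitution of three polynomial functions. -/
lemma DZ.subst3 {P : Z → Z → Z → Prop} (hP : DZ (fun v : ℕ → Z => P (v 0) (v 1) (v 2)))
    {s t r : (ℕ → Z) → Z} [hs : PF s] [ht : PF t] [hr : PF r] :
    DZ (fun v => P (s v) (t v) (r v)) :=
  ⟨DI.comp hP.out (f := fun i => match i with | 0 => s | 1 => t | _ => r)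
    (fun i => match i with | 0 => hs.out | 1 => ht.out | _ + 2 => hr.out)⟩

/-- Substitution of four polynomial functions. -/
lemma DZ.subst4 {P : Z → Z → Z → Z → Prop}
    (hP : DZ (fun v : ℕ → Z => P (v 0) (v 1) (v 2) (v 3)))
    {s t r w : (ℕ → Z) → Z} [hs : PF s] [ht : PF t] [hr : PF r] [hw : PF w] :
    DZ (fun v => P (s v) (t v) (r v) (w v)) :=
  ⟨DI.comp hP.out (f := fun i => match i with | 0 => s | 1 => t | 2 => r | _ => w)
    (fun i => match i with | 0 => hs.out | 1 => ht.out | 2 => hr.out | _ + 3 => hw.out)⟩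

example (b : Z) : DZ (fun v : ℕ → Z => ∃ q, 0 ≤ q ∧ q < v 0 + 1 ∧ q * b ≤ v 0 ∧ v 0 < (q + 1) * b) :=
  inferInstance

example (b : Z) : DZ (fun v : ℕ → Z => ∀ x, 0 ≤ x → x < v 0 + 1 → ∃ q, 0 ≤ q ∧ q < x + v 1 + 1 ∧
    q * b ≤ v 0 ∧ v 0 < (q + x) * b) :=
  inferInstance

end calculus

end Pool.Agent.Lib_helper35.EIP
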