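import Mathlib
import Pool.Agent.Lib_helper35.EIP.Calc

/-!
# Transfer of bounded induction from a model of `IΔ₀` to its ring of differences
-/

set_option autoImplicit false

namespace Pool.Agent.Lib_helper35.EIP

universe u

section model

variable {M : Type u} [CommSemiring M] [LinearOrder M] [IsStrictOrderedRing M]

lemma IsModelIDelta0.eq_zero_or_succ (hM : IsModelIDelta0 M) (y : M) :
    y = 0 ∨ ∃ z, z < y ∧ y = z + 1 := by
  let φ : BFormula M := .not (.and (.not (.eq (.var 0) (.param 0)))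
    (.ball (.var 0) (.not (.eq (.var 1) (.add (.var 0) (.param 1))))))
  have hφ : ∀ y : M, φ.Sat (push y (fun _ => 0)) ↔ (y = 0 ∨ ∃ z, z < y ∧ y = z + 1) := by
    intro y
    show (¬ (¬ (y = 0) ∧ ∀ z : M, z < y → ¬ (y = z + 1))) ↔ _
    by_cases h : y = 0
    · simp [h]
    · simp [h]
  rw [← hφ]
  apply hM.induction
  · rw [hφ]; left; rfl
  · intro x _
    rw [hφ]
    right
    exact ⟨x, lt_add_one x, rfl⟩

lemma IsModelIDelta0.not_between (hM : IsModelIDelta0 M) (a : M) :
    ∀ x, x < a + 1 → ¬ a < x := by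
  let φ : BFormula M := .ball (.add (.var 0) (.param 1)) (.not (.lt (.var 1) (.var 0)))
  have hφ : ∀ y : M, φ.Sat (push y (fun _ => 0)) ↔ (∀ x, x < y + 1 → ¬ y < x) := by
    intro y
    rfl
  rw [← hφ]
  apply hM.induction
  · rw [hφ]
    intro x hx h0
    have := hM.discrete x h0
    rw [zero_add] at hx
    exact absurd hx (not_lt.mpr this)
  · intro a ha
    rw [hφ] at ha ⊢
    intro x hx hax
    rcases hM.eq_zero_or_succ x with h | ⟨z, hz, h⟩
    · rw [h] at hax
      exact absurd (hM.zero_le (a + 1)) (not_le.mpr hax)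
    · rw [h] at hx hax
      exact ha z (lt_of_add_lt_add_right hx) (lt_of_add_lt_add_right hax)

lemma IsModelIDelta0.existsAddOfLE (hM : IsModelIDelta0 M) : ExistsAddOfLE M := by
  refine ⟨fun {x y} hxy => ?_⟩
  let φ : BFormula M := .not (.and (.not (.lt (.var 0) (.param x)))
    (.ball (.add (.var 0) (.param 1)) (.not (.eq (.add (.param x) (.var 0)) (.var 1)))))
  have hφ : ∀ y : M, φ.Sat (push y (fun _ => 0)) ↔ (x ≤ y → ∃ z, z < y + 1 ∧ x + z = y) := by
    intro y
    show (¬ (¬ (y < x) ∧ ∀ z : M, z < y + 1 → ¬ (x + z = y))) ↔ _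
    rw [not_lt]
    constructor
    · intro h hxy
      by_contra hcon
      exact h ⟨hxy, fun z hz hz' => hcon ⟨z, hz, hz'⟩⟩
    · intro h ⟨h1, h2⟩
      obtain ⟨z, hz, hz'⟩ := h h1
      exact h2 z hz hz'
  have key : φ.Sat (push y (fun _ => 0)) := by
    apply hM.induction
    · rw [hφ]
      intro h
      have h0 : x = 0 := le_antisymm h (hM.zero_le x)
      exact ⟨0, by simp, by simp [h0]⟩
    · intro a ha
      rw [hφ] at ha ⊢
      intro h
      rcases le_or_gt x a with h1 | h1
      · obtain ⟨z, hz, hz'⟩ := ha h1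
        refine ⟨z + 1, by gcongr, ?_⟩
        rw [← add_assoc, hz']
      · have h2 : ¬ x < a + 1 := fun h' => hM.not_between a x h' h1
        have h3 : x = a + 1 := le_antisymm h (not_lt.mp h2)
        exact ⟨0, by rw [add_assoc]; exact add_pos_of_nonneg_of_pos (hM.zero_le a) (by simp [one_add_one_eq_two]), by simp [h3]⟩
  obtain ⟨z, _, hz⟩ := (hφ y).mp key hxy
  exact ⟨z, hz.symm⟩

end model

section transfer

variable {M : Type u} [CommSemiring M] [LinearOrder M] [IsStrictOrderedRing M]
variable {Z : Type u} [CommRing Z] [LinearOrder Z] [IsStrictOrderedRing Z]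

/-- Shift all variables of a term. -/
def ATerm.shift : ATerm M → ATerm M
  | .var i => .var (i + 1)
  | .param a => .param a
  | .add s t => .add s.shift t.shift
  | .mul s t => .mul s.shift t.shift

omit [LinearOrder M] [IsStrictOrderedRing M] in
lemma ATerm.eval_shift (t : ATerm M) (x : M) (v : ℕ → M) :
    t.shift.eval (push x v) = t.eval v := by
  induction t with
  | var i => rfl
  | param a => rfl
  | add s t h1 h2 => simp [ATerm.shift, ATerm.eval, h1, h2]
  | mul s t h1 h2 => simp [ATerm.shift, ATerm.eval, h1, h2]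

omit [LinearOrder M] [IsStrictOrderedRing M] [IsStrictOrderedRing Z] [LinearOrder Z] in
lemma PolyI.exists_terms [LinearOrder Z] [IsStrictOrderedRing Z] (i : M →+* Z)
    (hsurj : ∀ z, 0 ≤ z → ∃ m, i m = z)
    {s : (ℕ → Z) → Z} (hs : PolyI s) :
    ∃ A B : ATerm M, ∀ v : ℕ → M, s (fun n => i (v n)) = i (A.eval v) - i (B.eval v) := by
  induction hs with
  | var n => exact ⟨.var n, .param 0, fun v => by simp [ATerm.eval]⟩
  | const z =>
    rcases le_total 0 z with h | h
    · obtain ⟨m, hm⟩ := hsurj z h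
      exact ⟨.param m, .param 0, fun v => by simp [ATerm.eval, hm]⟩
    · obtain ⟨m, hm⟩ := hsurj (-z) (by linarith)
      exact ⟨.param 0, .param m, fun v => by simp [ATerm.eval, hm]⟩
  | add _ _ h1 h2 =>
    obtain ⟨A, B, h1⟩ := h1
    obtain ⟨C, D, h2⟩ := h2
    refine ⟨.add A C, .add B D, fun v => ?_⟩
    beta_reduce
    rw [h1, h2]
    simp only [ATerm.eval, map_add]
    ring
  | mul _ _ h1 h2 =>
    obtain ⟨A, B, h1⟩ := h1
    obtain ⟨C, D, h2⟩ := h2
    refine ⟨.add (.mul A C) (.mul B D), .add (.mul A D) (.mul B C), fun v => ?_⟩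
    beta_reduce
    rw [h1, h2]
    simp only [ATerm.eval, map_add, map_mul]
    ring

omit [IsStrictOrderedRing M] in
lemma DI.exists_formula (i : M →+* Z) (hi : StrictMono i)
    (h0 : ∀ m : M, 0 ≤ m) (hsurj : ∀ z, 0 ≤ z → ∃ m, i m = z)
    {P : (ℕ → Z) → Prop} (hP : DI P) :
    ∃ φ : BFormula M, ∀ v : ℕ → M, P (fun n => i (v n)) ↔ φ.Sat v := by
  induction hP with
  | eq hs ht =>
    obtain ⟨A, B, hA⟩ := hs.exists_terms i hsurj
    obtain ⟨C, D, hC⟩ := ht.exists_terms i hsurj
    refine ⟨.eq (.add A D) (.add C B), fun v => ?_⟩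
    beta_reduce
    rw [hA, hC]
    show _ ↔ A.eval v + D.eval v = C.eval v + B.eval v
    rw [← hi.injective.eq_iff, map_add, map_add]
    constructor <;> intro h <;> linarith
  | lt hs ht =>
    obtain ⟨A, B, hA⟩ := hs.exists_terms i hsurj
    obtain ⟨C, D, hC⟩ := ht.exists_terms i hsurj
    refine ⟨.lt (.add A D) (.add C B), fun v => ?_⟩
    beta_reduce
    rw [hA, hC]
    show _ ↔ A.eval v + D.eval v < C.eval v + B.eval v
    rw [← hi.lt_iff_lt, map_add, map_add]
    constructor <;> intro h <;> linarith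
  | not _ h =>
    obtain ⟨φ, h⟩ := h
    exact ⟨.not φ, fun v => not_congr (h v)⟩
  | and _ _ h1 h2 =>
    obtain ⟨φ, h1⟩ := h1
    obtain ⟨ψ, h2⟩ := h2
    exact ⟨.and φ ψ, fun v => and_congr (h1 v) (h2 v)⟩
  | @ball t P ht _ ih =>
    obtain ⟨A, B, hA⟩ := ht.exists_terms i hsurj
    obtain ⟨φ, hφ⟩ := ih
    refine ⟨.ball A (.not (.and (.lt (.add (.var 0) B.shift) A.shift) (.not φ))), fun v => ?_⟩
    show _ ↔ ∀ x : M, x < A.eval v →
      ¬ (x + B.shift.eval (push x v) < A.shift.eval (push x v) ∧ ¬ φ.Sat (push x v))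
    simp only [ATerm.eval_shift]
    have hpush : ∀ x : M, push (i x) (fun n => i (v n)) = fun n => i (push x v n) := by
      intro x
      ext n
      cases n <;> rfl
    constructor
    · intro h x _ ⟨h1, h2⟩
      apply h2
      rw [← hφ, ← hpush]
      apply h
      · rw [← map_zero i]; exact hi.monotone (h0 x)
      · rw [hA]
        have := hi h1
        rw [map_add] at this
        linarith
    · intro h x hx hxt
      obtain ⟨m, rfl⟩ := hsurj x hx
      rw [hpush, hφ]
      rw [hA] at hxt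
      have h1 : m + B.eval v < A.eval v := by
        rw [← hi.lt_iff_lt, map_add]
        linarith
      have h2 : m < A.eval v := by
        rw [← hi.lt_iff_lt]
        have : i 0 ≤ i (B.eval v) := hi.monotone (h0 _)
        rw [map_zero] at this
        linarith
      by_contra h3
      exact h m h2 ⟨h1, h3⟩

/-- Bounded induction for the nonnegative part of an ordered ring. -/
def BInd (Z : Type u) [CommRing Z] [LinearOrder Z] : Prop :=
  ∀ P : Z → Prop, DI (fun v : ℕ → Z => P (v 0)) → P 0 →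
    (∀ x, 0 ≤ x → P x → P (x + 1)) → ∀ x, 0 ≤ x → P x

lemma IsModelIDelta0.bInd (hM : IsModelIDelta0 M) (i : M →+* Z) (hi : StrictMono i)
    (hsurj : ∀ z, 0 ≤ z → ∃ m, i m = z) : BInd Z := by
  intro P hP h0 hs x hx
  obtain ⟨φ, hφ⟩ := hP.exists_formula i hi hM.zero_le hsurj
  obtain ⟨m, rfl⟩ := hsurj x hx
  have key : ∀ x : M, φ.Sat (push x (fun _ => 0)) ↔ P (i x) := by
    intro x
    rw [← hφ]
    rfl
  rw [← key]
  apply hM.induction
  · rw [key, map_zero]
    exact h0
  · intro x hx
    rw [key] at hx ⊢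
    rw [map_add, map_one]
    apply hs _ _ hx
    rw [← map_zero i]
    exact hi.monotone (hM.zero_le x)

end transfer

end Pool.Agent.Lib_helper35.EIP
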