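import Mathlib
import Pool.Agent.Lib_helper35.EIP.Ind

/-!
# Basic arithmetic in discretely ordered rings with bounded induction
-/

set_option autoImplicit false

namespace Pool.Agent.Lib_helper35.EIP

universe u

/-- Discretely ordered rings whose nonnegative part satisfies bounded induction. -/
class BArith (Z : Type u) [CommRing Z] [LinearOrder Z] [IsStrictOrderedRing Z] : Prop where
  discrete : ∀ z : Z, 0 < z → 1 ≤ z
  bInd : BInd Z

section arith

variable {Z : Type u} [CommRing Z] [LinearOrder Z] [IsStrictOrderedRing Z] [BArith Z]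

lemma lt_iff_add_one_le' {x y : Z} : x < y ↔ x + 1 ≤ y := by
  constructor
  · intro h
    have := BArith.discrete (y - x) (by linarith)
    linarith
  · intro h
    linarith

lemma lt_add_one_iff' {x y : Z} : x < y + 1 ↔ x ≤ y := by
  rw [lt_iff_add_one_le']
  constructor <;> intro h <;> linarith

theorem bInduction {P : Z → Prop} (hP : DZ (fun v : ℕ → Z => P (v 0))) (h0 : P 0)
    (hs : ∀ x, 0 ≤ x → P x → P (x + 1)) : ∀ x, 0 ≤ x → P x :=
  BArith.bInd P hP.out h0 hs

/-- Going from `P 0` to `¬ P y`, the property fails at a successor step. -/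
theorem exists_step {P : Z → Prop} (hP : DZ (fun v : ℕ → Z => P (v 0))) (h0 : P 0)
    {y : Z} (hy : 0 ≤ y) (hPy : ¬ P y) : ∃ x, 0 ≤ x ∧ x < y ∧ P x ∧ ¬ P (x + 1) := by
  by_contra hcon
  push Not at hcon
  have key : ∀ x : Z, 0 ≤ x → (x ≤ y → P x) := by
    apply bInduction (P := fun x => x ≤ y → P x)
    · exact inferInstance
    · intro _; exact h0
    · intro x hx ih hxy
      exact hcon x hx (by linarith) (ih (by linarith))
  exact hPy (key y hy le_rfl)

/-- Least number principle. -/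
theorem exists_least {P : Z → Prop} (hP : DZ (fun v : ℕ → Z => P (v 0)))
    {y : Z} (hy : 0 ≤ y) (hPy : P y) :
    ∃ x, 0 ≤ x ∧ x ≤ y ∧ P x ∧ ∀ z, 0 ≤ z → z < x → ¬ P z := by
  by_cases h00 : P 0
  · exact ⟨0, le_rfl, hy, h00, fun z hz hz' => absurd hz' (not_lt.mpr hz)⟩
  · have : DZ (fun w : ℕ → Z => P (w 0)) := hP
    obtain ⟨x, hx, hxy, h1, h2⟩ := exists_step
      (P := fun x => ∀ z, 0 ≤ z → z < x + 1 → ¬ P z) inferInstance
      (by
        intro z hz hz'
        have : z = 0 := le_antisymm (lt_add_one_iff'.mp hz') hz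
        rw [this]; exact h00)
      hy (by
        push Not
        exact ⟨y, hy, by linarith, hPy⟩)
    refine ⟨x + 1, by linarith, ?_, ?_, ?_⟩
    · exact lt_iff_add_one_le'.mp hxy
    · push Not at h2
      obtain ⟨z, hz, hz', hPz⟩ := h2
      rcases lt_or_eq_of_le (lt_add_one_iff'.mp hz') with h | h
      · exact absurd hPz (h1 z hz h)
      · rw [← h]; exact hPz
    · intro z hz hz'
      exact h1 z hz hz'

/-- Division with remainder, nonnegative case. -/
theorem exists_div_nonneg {a b : Z} (ha : 0 ≤ a) (hb : 0 < b) :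
    ∃ q, 0 ≤ q ∧ q ≤ a ∧ q * b ≤ a ∧ a < (q + 1) * b := by
  obtain ⟨q, hq, hq2, h1, h2⟩ := exists_step (P := fun x => x * b ≤ a) inferInstance
    (by simpa using ha) (y := a + 1) (by linarith)
    (by
      have : 1 ≤ b := BArith.discrete b hb
      nlinarith)
  exact ⟨q, hq, lt_add_one_iff'.mp hq2, h1, not_le.mp h2⟩

/-- Division with remainder. -/
theorem exists_div (a : Z) {b : Z} (hb : 0 < b) : ∃ q, q * b ≤ a ∧ a < (q + 1) * b := by
  rcases le_or_gt 0 a with ha | ha
  · obtain ⟨q, _, _, h1, h2⟩ := exists_div_nonneg ha hb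
    exact ⟨q, h1, h2⟩
  · obtain ⟨q, hq, _, h1, h2⟩ := exists_div_nonneg (a := -a) (by linarith) hb
    rcases eq_or_lt_of_le h1 with h | h
    · exact ⟨-q, by linarith, by nlinarith⟩
    · exact ⟨-q - 1, by nlinarith, by nlinarith⟩

theorem exists_divMod (a : Z) {b : Z} (hb : 0 < b) : ∃ q r, 0 ≤ r ∧ r < b ∧ a = q * b + r := by
  obtain ⟨q, h1, h2⟩ := exists_div a hb
  exact ⟨q, a - q * b, by linarith, by linarith, by ring⟩

/-- `x` is infinite: larger than all standard natural numbers. -/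
def Infin (x : Z) : Prop := ∀ n : ℕ, (n : Z) < x

omit [BArith Z] in
lemma Infin.pos {x : Z} (h : Infin x) : 0 < x := by simpa using h 0

omit [IsStrictOrderedRing Z] [BArith Z] in
lemma Infin.mono {x y : Z} (h : Infin x) (hxy : x ≤ y) : Infin y := fun n => lt_of_lt_of_le (h n) hxy

lemma exists_nat_of_le {x : Z} (hx : 0 ≤ x) {n : ℕ} (hn : x ≤ n) : ∃ k : ℕ, k ≤ n ∧ x = k := by
  induction n with
  | zero => exact ⟨0, le_rfl, le_antisymm (by simpa using hn) (by simpa using hx)⟩
  | succ n ih =>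
    rcases le_or_gt x n with h | h
    · obtain ⟨k, hk, hxk⟩ := ih h
      exact ⟨k, by omega, hxk⟩
    · refine ⟨n + 1, le_rfl, ?_⟩
      have := lt_iff_add_one_le'.mp h
      push_cast at hn ⊢
      exact le_antisymm hn this

lemma exists_nat_of_not_infin {x : Z} (hx : 0 ≤ x) (h : ¬ Infin x) : ∃ k : ℕ, x = k := by
  unfold Infin at h
  push Not at h
  obtain ⟨n, hn⟩ := h
  obtain ⟨k, _, hk⟩ := exists_nat_of_le hx hn
  exact ⟨k, hk⟩

/-- Overspill. -/
theorem overspill {P : Z → Prop} (hP : DZ (fun v : ℕ → Z => P (v 0))) (h : ∀ n : ℕ, P n)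
    {y : Z} (hy : Infin y) :
    ∃ x, Infin x ∧ x ≤ y ∧ ∀ z, 0 ≤ z → z ≤ x → P z := by
  by_contra hcon
  push Not at hcon
  have key : ∀ x : Z, 0 ≤ x → (x ≤ y ∧ ∀ z, 0 ≤ z → z < x + 1 → P z) := by
    apply bInduction (P := fun x => x ≤ y ∧ ∀ z, 0 ≤ z → z < x + 1 → P z)
    · have : DZ (fun w : ℕ → Z => P (w 0)) := hP
      exact inferInstance
    · refine ⟨hy.pos.le, fun z hz hz' => ?_⟩
      have : z = 0 := le_antisymm (lt_add_one_iff'.mp hz') hz
      rw [this]
      simpa using h 0
    · intro x hx ⟨hxy, ih⟩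
      have hfin : ¬ Infin x := by
        intro hinf
        obtain ⟨z, hz, hz', hPz⟩ := hcon x hinf hxy
        exact hPz (ih z hz (lt_add_one_iff'.mpr hz'))
      obtain ⟨k, hk⟩ := exists_nat_of_not_infin hx hfin
      constructor
      · have := hy (k + 1)
        push_cast at this
        rw [hk]
        exact this.le
      · intro z hz hz'
        rw [lt_add_one_iff'] at hz'
        have hz'' : z ≤ ((k + 1 : ℕ) : Z) := by
          push_cast
          rw [← hk]
          exact hz'
        obtain ⟨j, _, hj⟩ := exists_nat_of_le hz hz''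
        rw [hj]
        exact h j
  obtain ⟨z, hz, hz', hPz⟩ := hcon y hy le_rfl
  exact hPz ((key y hy.pos.le).2 z hz (lt_add_one_iff'.mpr hz'))

/-- Infinite elements have infinite integer square roots. -/
theorem exists_infin_sq_le {y : Z} (hy : Infin y) : ∃ x, Infin x ∧ x * x ≤ y := by
  obtain ⟨x, hx, _, h⟩ := overspill (P := fun x => x * x ≤ y) inferInstance
    (fun n => by
      have := hy (n * n)
      push_cast at this
      exact this.le) hy
  exact ⟨x, hx, h x hx.pos.le le_rfl⟩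

/-- Below every infinite element there is an infinite element divisible by all
standard positive integers. -/
theorem exists_divisible {y : Z} (hy : Infin y) :
    ∃ K, Infin K ∧ K ≤ y ∧ ∀ n : ℕ, 0 < n → ∃ c, 0 < c ∧ K = n * c := by
  obtain ⟨x, hx, hxy, h⟩ := overspill
    (P := fun x => ∃ K, 0 ≤ K ∧ K < y + 1 ∧ (x ≤ K ∧ 0 < K ∧
      ∀ n, 0 ≤ n → n < x + 1 → 0 < n → ∃ c, 0 ≤ c ∧ c < y + 1 ∧ K = n * c)) inferInstance
    (fun n => by
      refine ⟨(n.factorial : Z), by positivity, ?_, ?_, by exact_mod_cast n.factorial_pos, ?_⟩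
      · exact lt_add_one_iff'.mpr (hy _).le
      · exact_mod_cast n.self_le_factorial
      · intro k hk hkn hk0
        rw [lt_add_one_iff'] at hkn
        obtain ⟨j, hj, rfl⟩ := exists_nat_of_le hk hkn
        have hj0 : 0 < j := by exact_mod_cast hk0
        obtain ⟨c, hc⟩ := Nat.dvd_factorial hj0 hj
        refine ⟨c, by positivity, ?_, by rw [hc]; push_cast; ring⟩
        exact lt_add_one_iff'.mpr (hy _).le) hy
  obtain ⟨K, hK, hKy, hxK, hK0, hdiv⟩ := h x hx.pos.le le_rfl
  refine ⟨K, hx.mono hxK, lt_add_one_iff'.mp hKy, fun n hn => ?_⟩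
  obtain ⟨c, hc, _, hKc⟩ := hdiv n (by positivity) (lt_add_one_iff'.mpr (hx n).le)
    (by exact_mod_cast hn)
  refine ⟨c, ?_, hKc⟩
  rcases lt_or_eq_of_le hc with h | h
  · exact h
  · rw [← h, mul_zero] at hKc
    exact absurd hKc hK0.ne'

end arith

end Pool.Agent.Lib_helper35.EIP
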