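import Mathlib

/-!
# Real ratios in linearly ordered abelian groups
-/

set_option autoImplicit false

namespace Pool.Agent.Lib_helper35.EIP

universe u

open ArchimedeanClass

section ratio

variable {H : Type u} [AddCommGroup H] [LinearOrder H] [IsOrderedAddMonoid H]

/-- The real number `r` is the standard part of `a / b`. -/
def IsRatio (a b : H) (r : ℝ) : Prop :=
  ∀ (p : ℤ) (q : ℕ), 0 < q →
    ((p : ℝ) < q * r → p • b ≤ q • a) ∧ ((q : ℝ) * r < p → q • a ≤ p • b)

lemma IsRatio.exists_of_bounded {a b : H} (hb : 0 < b) (hab : mk b ≤ mk a) :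
    ∃ r, IsRatio a b r := by
  obtain ⟨n, hn⟩ := mk_le_mk.mp hab
  rw [abs_of_pos hb] at hn
  have hn1 : a ≤ n • b := (le_abs_self a).trans hn
  have hn2 : -(n • b) ≤ a := by
    have := (neg_abs_le a)
    exact (neg_le_neg hn).trans this
  let S : Set ℝ := {x | ∃ (p : ℤ) (q : ℕ), 0 < q ∧ x = p / q ∧ p • b ≤ q • a}
  have hne : S.Nonempty := by
    refine ⟨-(n : ℝ), -(n : ℤ), 1, one_pos, by simp, ?_⟩
    simpa using hn2
  have hbdd : BddAbove S := by
    refine ⟨n, ?_⟩
    rintro x ⟨p, q, hq, rfl, hpq⟩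
    have hq' : (0 : ℝ) < q := by exact_mod_cast hq
    rw [div_le_iff₀ hq']
    have h1 : p • b ≤ (q * n : ℤ) • b := by
      calc p • b ≤ q • a := hpq
        _ ≤ q • (n • b) := nsmul_le_nsmul_right hn1 q
        _ = (q * n : ℤ) • b := by
          rw [← mul_nsmul', ← natCast_zsmul]; push_cast; rfl
    have h2 : p ≤ q * n := (zsmul_le_zsmul_iff_left hb).mp h1
    have h3 : (p : ℝ) ≤ ((q * n : ℤ) : ℝ) := by exact_mod_cast h2
    push_cast at h3
    linarith
  refine ⟨sSup S, fun p q hq => ⟨fun h => ?_, fun h => ?_⟩⟩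
  · have hq' : (0 : ℝ) < q := by exact_mod_cast hq
    have h1 : (p : ℝ) / q < sSup S := by
      rw [div_lt_iff₀ hq']; linarith
    obtain ⟨x, ⟨p', q', hq1, rfl, hpq'⟩, hx⟩ := exists_lt_of_lt_csSup hne h1
    have hq1' : (0 : ℝ) < q' := by exact_mod_cast hq1
    rw [div_lt_div_iff₀ hq' hq1'] at hx
    have h2 : p * q' ≤ p' * q := by exact_mod_cast hx.le
    have h3 : q' • (p • b) ≤ q' • (q • a) := by
      calc q' • (p • b) = (p * q' : ℤ) • b := by
            rw [mul_comm, mul_zsmul, natCast_zsmul]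
        _ ≤ (p' * q : ℤ) • b := zsmul_le_zsmul_left hb.le h2
        _ = q • (p' • b) := by rw [mul_comm, mul_zsmul, natCast_zsmul]
        _ ≤ q • (q' • a) := nsmul_le_nsmul_right hpq' q
        _ = q' • (q • a) := by rw [← mul_nsmul', ← mul_nsmul', mul_comm]
    exact (nsmul_le_nsmul_iff_right (by omega)).mp h3
  · by_contra hcon
    push Not at hcon
    have h1 : (p : ℝ) / q ∈ S := ⟨p, q, hq, rfl, hcon.le⟩
    have h2 := le_csSup hbdd h1
    have hq' : (0 : ℝ) < q := by exact_mod_cast hq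
    rw [div_le_iff₀ hq'] at h2
    linarith

lemma IsRatio.add {a a' b : H} {r r' : ℝ} (hb : 0 < b) (h : IsRatio a b r) (h' : IsRatio a' b r') :
    IsRatio (a + a') b (r + r') := by
  intro p q hq
  have hq' : (0 : ℝ) < q := by exact_mod_cast hq
  constructor
  · intro hlt
    obtain ⟨N, hN⟩ := exists_nat_gt (2 / ((q : ℝ) * (r + r') - p))
    have hpos : 0 < (q : ℝ) * (r + r') - p := by linarith
    rw [div_lt_iff₀ hpos] at hN
    have hN0 : 0 < N := by
      rcases Nat.eq_zero_or_pos N with h0 | h0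
      · rw [h0] at hN; norm_num at hN
      · exact h0
    have hNq : 0 < N * q := Nat.mul_pos hN0 hq
    have e1 := (h (⌈((N * q : ℕ) : ℝ) * r⌉ - 1) (N * q) hNq).1 (by
      push_cast
      have := Int.ceil_lt_add_one ((N : ℝ) * q * r)
      linarith)
    have e2 := (h' (⌈((N * q : ℕ) : ℝ) * r'⌉ - 1) (N * q) hNq).1 (by
      push_cast
      have := Int.ceil_lt_add_one ((N : ℝ) * q * r')
      linarith)
    have e3 : (N : ℤ) * p ≤ (⌈((N * q : ℕ) : ℝ) * r⌉ - 1) + (⌈((N * q : ℕ) : ℝ) * r'⌉ - 1) := by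
      have f1 := Int.le_ceil (((N * q : ℕ) : ℝ) * r)
      have f2 := Int.le_ceil (((N * q : ℕ) : ℝ) * r')
      have : ((N : ℤ) * p : ℝ) ≤ (((⌈((N * q : ℕ) : ℝ) * r⌉ - 1) +
          (⌈((N * q : ℕ) : ℝ) * r'⌉ - 1) : ℤ) : ℝ) := by
        push_cast at f1 f2 ⊢
        nlinarith
      exact_mod_cast this
    have e4 : N • (p • b) ≤ N • (q • (a + a')) := by
      calc N • (p • b) = ((N : ℤ) * p) • b := by rw [mul_zsmul, natCast_zsmul]
        _ ≤ ((⌈((N * q : ℕ) : ℝ) * r⌉ - 1) + (⌈((N * q : ℕ) : ℝ) * r'⌉ - 1)) • b :=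
            zsmul_le_zsmul_left hb.le e3
        _ = (⌈((N * q : ℕ) : ℝ) * r⌉ - 1) • b + (⌈((N * q : ℕ) : ℝ) * r'⌉ - 1) • b := by
            rw [add_zsmul]
        _ ≤ (N * q) • a + (N * q) • a' := add_le_add e1 e2
        _ = N • (q • (a + a')) := by rw [← nsmul_add, mul_nsmul']
    exact (nsmul_le_nsmul_iff_right (by omega)).mp e4
  · intro hlt
    obtain ⟨N, hN⟩ := exists_nat_gt (2 / (p - (q : ℝ) * (r + r')))
    have hpos : 0 < p - (q : ℝ) * (r + r') := by linarith
    rw [div_lt_iff₀ hpos] at hN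
    have hN0 : 0 < N := by
      rcases Nat.eq_zero_or_pos N with h0 | h0
      · rw [h0] at hN; norm_num at hN
      · exact h0
    have hNq : 0 < N * q := Nat.mul_pos hN0 hq
    have e1 := (h (⌊((N * q : ℕ) : ℝ) * r⌋ + 1) (N * q) hNq).2 (by
      push_cast
      exact Int.lt_floor_add_one _)
    have e2 := (h' (⌊((N * q : ℕ) : ℝ) * r'⌋ + 1) (N * q) hNq).2 (by
      push_cast
      exact Int.lt_floor_add_one _)
    have e3 : (⌊((N * q : ℕ) : ℝ) * r⌋ + 1) + (⌊((N * q : ℕ) : ℝ) * r'⌋ + 1) ≤ (N : ℤ) * p := by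
      have f1 := Int.floor_le (((N * q : ℕ) : ℝ) * r)
      have f2 := Int.floor_le (((N * q : ℕ) : ℝ) * r')
      have : (((⌊((N * q : ℕ) : ℝ) * r⌋ + 1) +
          (⌊((N * q : ℕ) : ℝ) * r'⌋ + 1) : ℤ) : ℝ) ≤ ((N : ℤ) * p : ℝ) := by
        push_cast at f1 f2 ⊢
        nlinarith
      exact_mod_cast this
    have e4 : N • (q • (a + a')) ≤ N • (p • b) := by
      calc N • (q • (a + a')) = (N * q) • a + (N * q) • a' := by rw [← nsmul_add, mul_nsmul']
        _ ≤ (⌊((N * q : ℕ) : ℝ) * r⌋ + 1) • b + (⌊((N * q : ℕ) : ℝ) * r'⌋ + 1) • b :=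
            add_le_add e1 e2
        _ = ((⌊((N * q : ℕ) : ℝ) * r⌋ + 1) + (⌊((N * q : ℕ) : ℝ) * r'⌋ + 1)) • b :=
            (add_zsmul _ _ _).symm
        _ ≤ ((N : ℤ) * p) • b := zsmul_le_zsmul_left hb.le e3
        _ = N • (p • b) := by rw [mul_zsmul, natCast_zsmul]
    exact (nsmul_le_nsmul_iff_right (by omega)).mp e4

lemma IsRatio.neg {a b : H} {r : ℝ} (h : IsRatio a b r) : IsRatio (-a) b (-r) := by
  intro p q hq
  have := h (-p) q hq
  constructor
  · intro hlt
    have h1 := this.2 (by push_cast; linarith)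
    rw [neg_zsmul] at h1
    rw [smul_neg]
    exact le_neg_of_le_neg h1
  · intro hlt
    have h1 := this.1 (by push_cast; linarith)
    rw [neg_zsmul] at h1
    rw [smul_neg]
    exact neg_le_of_neg_le h1

lemma IsRatio.zero_left {b : H} (hb : 0 < b) : IsRatio 0 b 0 := by
  intro p q hq
  constructor
  · intro h
    rw [mul_zero] at h
    have hp : p ≤ 0 := by exact_mod_cast h.le
    rw [smul_zero]
    calc p • b ≤ (0 : ℤ) • b := zsmul_le_zsmul_left hb.le hp
      _ = 0 := zero_zsmul b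
  · intro h
    rw [mul_zero] at h
    have hp : 0 ≤ p := by exact_mod_cast h.le
    rw [smul_zero]
    calc (0 : H) = (0 : ℤ) • b := (zero_zsmul b).symm
      _ ≤ p • b := zsmul_le_zsmul_left hb.le hp

lemma IsRatio.nsmul {a b : H} {r : ℝ} (hb : 0 < b) (h : IsRatio a b r) (n : ℕ) :
    IsRatio (n • a) b (n * r) := by
  induction n with
  | zero => simpa using IsRatio.zero_left hb
  | succ n ih =>
    have := ih.add hb h
    rw [succ_nsmul]
    convert this using 1
    push_cast; ring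

lemma IsRatio.zsmul {a b : H} {r : ℝ} (hb : 0 < b) (h : IsRatio a b r) (n : ℤ) :
    IsRatio (n • a) b (n * r) := by
  obtain ⟨k, rfl | rfl⟩ := n.eq_nat_or_neg
  · simpa using h.nsmul hb k
  · simpa using (h.nsmul hb k).neg

lemma IsRatio.pos {a b : H} {r : ℝ} (hb : 0 < b) (h : IsRatio a b r) (hr : 0 < r) : 0 < a := by
  obtain ⟨q, hq⟩ := exists_nat_gt (1 / r)
  rw [div_lt_iff₀ hr] at hq
  have hq0 : 0 < q := by
    rcases Nat.eq_zero_or_pos q with h0 | h0
    · rw [h0] at hq; norm_num at hq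
    · exact h0
  have h1 := (h 1 q hq0).1 (by push_cast; exact hq)
  rw [one_zsmul] at h1
  by_contra hcon
  push Not at hcon
  have h2 : q • a ≤ 0 := nsmul_nonpos hcon q
  exact absurd (hb.trans_le (h1.trans h2)) (lt_irrefl _)

lemma IsRatio.neg_of_neg {a b : H} {r : ℝ} (hb : 0 < b) (h : IsRatio a b r) (hr : r < 0) : a < 0 := by
  have := h.neg.pos hb (by linarith)
  exact neg_pos.mp this

lemma IsRatio.of_mk_lt {a b : H} (hb : 0 < b) (h : mk b < mk a) : IsRatio a b 0 := by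
  intro p q hq
  have h1 := mk_lt_mk.mp h q
  rw [abs_of_pos hb, ← abs_nsmul] at h1
  constructor
  · intro hlt
    rw [mul_zero] at hlt
    have hp : p ≤ -1 := by
      have : p < 0 := by exact_mod_cast hlt
      omega
    calc p • b ≤ (-1 : ℤ) • b := zsmul_le_zsmul_left hb.le hp
      _ = -b := by rw [neg_one_zsmul]
      _ ≤ q • a := (abs_lt.mp h1).1.le
  · intro hlt
    rw [mul_zero] at hlt
    have hp : 1 ≤ p := by
      have : 0 < p := by exact_mod_cast hlt
      omega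
    calc q • a ≤ b := (abs_lt.mp h1).2.le
      _ = (1 : ℤ) • b := (one_zsmul b).symm
      _ ≤ p • b := zsmul_le_zsmul_left hb.le hp

lemma IsRatio.mk_lt {a b : H} (hb : 0 < b) (h : IsRatio a b 0) : mk b < mk a := by
  rw [mk_lt_mk]
  intro n
  rw [abs_of_pos hb]
  have h1 := (h 1 (2 * n + 1) (by omega)).2 (by rw [mul_zero]; norm_num)
  have h2 := (h (-1) (2 * n + 1) (by omega)).1 (by rw [mul_zero]; norm_num)
  rw [one_zsmul] at h1
  rw [neg_one_zsmul] at h2
  have h3 : (2 * n + 1) • |a| ≤ b := by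
    rw [← abs_nsmul]
    exact abs_le.mpr ⟨h2, h1⟩
  rcases eq_or_lt_of_le (abs_nonneg a) with h4 | h4
  · rw [← h4, smul_zero]; exact hb
  · calc n • |a| < (2 * n + 1) • |a| := nsmul_lt_nsmul_left h4 (by omega)
      _ ≤ b := h3

lemma IsRatio.bounded {a b : H} {r : ℝ} (hb : 0 < b) (h : IsRatio a b r) : mk b ≤ mk a := by
  rw [mk_le_mk]
  obtain ⟨n, hn⟩ := exists_nat_gt |r|
  have h1 := (h n 1 one_pos).2 (by
    rw [Nat.cast_one, one_mul]; push_cast; exact (le_abs_self r).trans_lt hn)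
  have h2 := (h (-n) 1 one_pos).1 (by
    rw [Nat.cast_one, one_mul]; push_cast
    have := (neg_abs_le r)
    linarith)
  refine ⟨n, ?_⟩
  rw [one_nsmul, neg_zsmul, natCast_zsmul] at h2
  rw [one_nsmul, natCast_zsmul] at h1
  rw [abs_of_pos hb]
  exact abs_le.mpr ⟨h2, h1⟩

lemma IsRatio.add_small {a b t : H} {r : ℝ} (hb : 0 < b) (h : IsRatio a b r) (ht : mk b < mk t) :
    IsRatio (a + t) b r := by
  have := h.add hb (IsRatio.of_mk_lt hb ht)
  rwa [add_zero] at this

end ratio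

end Pool.Agent.Lib_helper35.EIP
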