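import Mathlib
import Pool.Agent.Lib_helper35.EIP.Ratio

/-!
# A back-and-forth theorem for countable linearly ordered abelian groups
-/

set_option autoImplicit false

namespace Pool.Agent.Lib_helper35.EIP

universe u v

open ArchimedeanClass

section defs

variable {H : Type u} [AddCommGroup H]

/-- `x` is divisible by `n`. -/
def DvdBy (n : ℕ) (x : H) : Prop := ∃ y, x = n • y

lemma DvdBy.add {n : ℕ} {x y : H} (hx : DvdBy n x) (hy : DvdBy n y) : DvdBy n (x + y) := by
  obtain ⟨a, rfl⟩ := hx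
  obtain ⟨b, rfl⟩ := hy
  exact ⟨a + b, by rw [nsmul_add]⟩

lemma DvdBy.neg {n : ℕ} {x : H} (hx : DvdBy n x) : DvdBy n (-x) := by
  obtain ⟨a, rfl⟩ := hx
  exact ⟨-a, by rw [smul_neg]⟩

lemma DvdBy.sub {n : ℕ} {x y : H} (hx : DvdBy n x) (hy : DvdBy n y) : DvdBy n (x - y) := by
  rw [sub_eq_add_neg]; exact hx.add hy.neg

lemma DvdBy.zsmul {n : ℕ} {x : H} (hx : DvdBy n x) (j : ℤ) : DvdBy n (j • x) := by
  obtain ⟨a, rfl⟩ := hx
  exact ⟨j • a, by rw [smul_comm]⟩

lemma DvdBy.add_iff {n : ℕ} {x y : H} (hy : DvdBy n y) : DvdBy n (x + y) ↔ DvdBy n x := by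
  constructor
  · intro h
    have := h.sub hy
    rwa [add_sub_cancel_right] at this
  · intro h
    exact h.add hy

end defs

section rich

variable (H : Type u) [AddCommGroup H] [LinearOrder H] [IsOrderedAddMonoid H]

/-- Richness conditions making countable ordered groups unique up to isomorphism. -/
structure Rich (u : H) (k : Set ℝ) (Res : Set (ℕ → ℤ)) (inf : Prop) : Prop where
  u_pos : 0 < u
  res : ∀ a : H, ∃ s ∈ Res, ∀ n : ℕ, 0 < n → DvdBy n (a - s n • u)
  discrete : inf → ∀ a : H, mk u ≤ mk a → ∃ j : ℤ, a = j • u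
  bounded : ¬ inf → ∀ a : H, mk u ≤ mk a
  divisible : ¬ inf → ∀ a : H, ∀ n : ℕ, 0 < n → DvdBy n a
  ratio_mem : ∀ b : H, 0 < b → (inf → mk b < mk u) → ∀ a r, IsRatio a b r → r ∈ k
  ratio_ex : ∀ b : H, 0 < b → (inf → mk b < mk u) → ∀ r ∈ k, ∃ a, IsRatio a b r
  dens : ∀ b c : H, (inf → mk b ≤ mk u) → mk c < mk b → ∃ a, mk c < mk a ∧ mk a < mk b
  unb : inf → ∀ b : H, ∃ a, mk a < mk b
  res_ex : ∀ s ∈ Res, ∀ b : H, 0 < b → (inf → mk b < mk u) →
    ∃ t, mk b < mk t ∧ ∀ n : ℕ, 0 < n → DvdBy n (t - s n • u)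

end rich

section finite

variable {H : Type u} [AddCommGroup H] [LinearOrder H] [IsOrderedAddMonoid H]

lemma finite_mk_of_fg (S : AddSubgroup H) (hS : S.FG) :
    (mk '' (S : Set H)).Finite := by
  classical
  obtain ⟨s, rfl⟩ := hS
  induction s using Finset.induction_on with
  | empty =>
    rw [Finset.coe_empty, AddSubgroup.closure_empty]
    simp
  | insert a s _ ih =>
    rw [Finset.coe_insert]
    set C := AddSubgroup.closure (s : Set H) with hC
    by_cases hall : ∀ x ∈ AddSubgroup.closure (insert a (s : Set H)), mk x ∈ mk '' (C : Set H)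
    · apply ih.subset
      rintro _ ⟨x, hx, rfl⟩
      exact hall x hx
    · push Not at hall
      obtain ⟨x₀, hx₀, hmk₀⟩ := hall
      have hrep : ∀ x ∈ AddSubgroup.closure (insert a (s : Set H)), ∃ m : ℤ, ∃ h ∈ C,
          x = m • a + h := by
        intro x hx
        rw [Set.insert_eq, AddSubgroup.closure_union, AddSubgroup.mem_sup] at hx
        obtain ⟨y, hy, z, hz, rfl⟩ := hx
        obtain ⟨m, rfl⟩ := AddSubgroup.mem_closure_singleton.mp hy
        exact ⟨m, z, hz, rfl⟩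
      obtain ⟨m₀, h₀, hh₀, e₀⟩ := hrep x₀ hx₀
      have hm₀ : m₀ ≠ 0 := by
        rintro rfl
        apply hmk₀
        rw [e₀, zero_zsmul, zero_add]
        exact ⟨h₀, hh₀, rfl⟩
      apply (ih.union (Set.finite_singleton (mk x₀))).subset
      rintro _ ⟨x, hx, rfl⟩
      by_cases hxC : mk x ∈ mk '' (C : Set H)
      · left; exact hxC
      · right
        obtain ⟨m, h, hh, e⟩ := hrep x hx
        have hm : m ≠ 0 := by
          rintro rfl
          apply hxC
          rw [e, zero_zsmul, zero_add]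
          exact ⟨h, hh, rfl⟩
        have hmem : m₀ • x - m • x₀ ∈ C := by
          have : m₀ • x - m • x₀ = m₀ • h - m • h₀ := by
            rw [e, e₀, zsmul_add, zsmul_add, smul_comm m₀ m a]
            abel
          rw [this]
          exact C.sub_mem (C.zsmul_mem hh _) (C.zsmul_mem hh₀ _)
        have e1 : mk (m₀ • x) = mk x := mk_smul x hm₀
        have e2 : mk (m • x₀) = mk x₀ := mk_smul x₀ hm
        rcases lt_trichotomy (mk x) (mk x₀) with hlt | heq | hlt
        · exfalso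
          apply hxC
          refine ⟨m₀ • x - m • x₀, hmem, ?_⟩
          rw [mk_sub_eq_mk_left (by rw [e1, e2]; exact hlt), e1]
        · exact heq
        · exfalso
          apply hmk₀
          refine ⟨m₀ • x - m • x₀, hmem, ?_⟩
          rw [mk_sub_eq_mk_right (by rw [e1, e2]; exact hlt), e2]

end finite

section good

variable {H : Type u} [AddCommGroup H] [LinearOrder H] [IsOrderedAddMonoid H]
variable {K : Type v} [AddCommGroup K] [LinearOrder K] [IsOrderedAddMonoid K]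

/-- Finitely generated partial isomorphisms preserving positivity and divisibility. -/
structure Good (S : AddSubgroup (H × K)) : Prop where
  fg : S.FG
  pos : ∀ p ∈ S, (0 < p.1 ↔ 0 < p.2)
  dvd : ∀ p ∈ S, ∀ n : ℕ, 0 < n → (DvdBy n p.1 ↔ DvdBy n p.2)

namespace Good

variable {S : AddSubgroup (H × K)} (hS : Good S)
include hS

lemma le_iff {p q : H × K} (hp : p ∈ S) (hq : q ∈ S) : p.1 ≤ q.1 ↔ p.2 ≤ q.2 := by
  have := hS.pos (p - q) (S.sub_mem hp hq)
  simp only [Prod.fst_sub, Prod.snd_sub, sub_pos] at this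
  rw [← not_lt, ← not_lt, this]

lemma lt_iff {p q : H × K} (hp : p ∈ S) (hq : q ∈ S) : p.1 < q.1 ↔ p.2 < q.2 := by
  rw [← not_le, ← not_le, hS.le_iff hq hp]

lemma abs_mem {p : H × K} (hp : p ∈ S) : (|p.1|, |p.2|) ∈ S := by
  rcases le_total 0 p.1 with h | h
  · have h2 : 0 ≤ p.2 := (hS.le_iff S.zero_mem hp).mp h
    rw [abs_of_nonneg h, abs_of_nonneg h2]
    exact hp
  · have h2 : p.2 ≤ 0 := (hS.le_iff hp S.zero_mem).mp h
    rw [abs_of_nonpos h, abs_of_nonpos h2]
    exact S.neg_mem hp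

lemma mk_le_iff {p q : H × K} (hp : p ∈ S) (hq : q ∈ S) :
    ArchimedeanClass.mk p.1 ≤ ArchimedeanClass.mk q.1 ↔
      ArchimedeanClass.mk p.2 ≤ ArchimedeanClass.mk q.2 := by
  rw [mk_le_mk, mk_le_mk]
  apply exists_congr
  intro n
  exact hS.le_iff (hS.abs_mem hq) (S.nsmul_mem (hS.abs_mem hp) n)

lemma mk_lt_iff {p q : H × K} (hp : p ∈ S) (hq : q ∈ S) :
    ArchimedeanClass.mk p.1 < ArchimedeanClass.mk q.1 ↔
      ArchimedeanClass.mk p.2 < ArchimedeanClass.mk q.2 := by
  rw [← not_le, ← not_le, hS.mk_le_iff hq hp]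

lemma ratio {p q : H × K} (hp : p ∈ S) (hq : q ∈ S) {r : ℝ} (h : IsRatio p.1 q.1 r) :
    IsRatio p.2 q.2 r := by
  intro a b hb
  have := h a b hb
  constructor
  · intro hlt
    exact (hS.le_iff (S.zsmul_mem hq a) (S.nsmul_mem hp b)).mp (this.1 hlt)
  · intro hlt
    exact (hS.le_iff (S.nsmul_mem hp b) (S.zsmul_mem hq a)).mp (this.2 hlt)

end Good

omit [IsOrderedAddMonoid H] [IsOrderedAddMonoid K] in
/-- Swapping the two sides. -/
lemma Good.swap {S : AddSubgroup (H × K)} (hS : Good S) :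
    Good (S.map (AddEquiv.prodComm : H × K ≃+ K × H).toAddMonoidHom) := by
  refine ⟨?_, ?_, ?_⟩
  · classical
    obtain ⟨s, hs⟩ := hS.fg
    refine ⟨s.image (AddEquiv.prodComm : H × K ≃+ K × H).toAddMonoidHom, ?_⟩
    rw [Finset.coe_image, ← AddMonoidHom.map_closure, hs]
  · rintro _ ⟨p, hp, rfl⟩
    exact (hS.pos p hp).symm
  · rintro _ ⟨p, hp, rfl⟩ n hn
    exact (hS.dvd p hp n hn).symm

lemma fg_sup_zmultiples {G : Type*} [AddCommGroup G] {S : AddSubgroup G} (hS : S.FG) (x : G) :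
    (S ⊔ AddSubgroup.zmultiples x).FG := by
  apply AddSubgroup.FG.sup hS
  rw [AddSubgroup.zmultiples_eq_closure]
  exact ⟨{x}, by simp⟩

lemma mem_sup_zmultiples {G : Type*} [AddCommGroup G] {S : AddSubgroup G} {x y : G} :
    y ∈ S ⊔ AddSubgroup.zmultiples x ↔ ∃ p ∈ S, ∃ j : ℤ, y = p + j • x := by
  rw [AddSubgroup.mem_sup]
  constructor
  · rintro ⟨p, hp, z, hz, rfl⟩
    obtain ⟨j, rfl⟩ := AddSubgroup.mem_zmultiples_iff.mp hz
    exact ⟨p, hp, j, rfl⟩
  · rintro ⟨p, hp, j, rfl⟩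
    exact ⟨p, hp, j • x, AddSubgroup.mem_zmultiples_iff.mpr ⟨j, rfl⟩, rfl⟩

omit [IsOrderedAddMonoid H] [IsOrderedAddMonoid K] in
lemma good_extend {S : AddSubgroup (H × K)} (hS : Good S) {u : H} {u' : K} (hu : (u, u') ∈ S)
    {a : H} {b : K}
    (hres : ∀ n : ℕ, 0 < n → ∃ s : ℤ, DvdBy n (a - s • u) ∧ DvdBy n (b - s • u'))
    (hsign : ∀ j : ℤ, j ≠ 0 → ∀ p ∈ S, (0 < p.1 + j • a ↔ 0 < p.2 + j • b)) :
    Good (S ⊔ AddSubgroup.zmultiples (a, b)) := by
  refine ⟨fg_sup_zmultiples hS.fg _, ?_, ?_⟩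
  · intro y hy
    obtain ⟨p, hp, j, rfl⟩ := mem_sup_zmultiples.mp hy
    by_cases hj : j = 0
    · rw [hj, zero_zsmul, add_zero]
      exact hS.pos p hp
    · exact hsign j hj p hp
  · intro y hy n hn
    obtain ⟨p, hp, j, rfl⟩ := mem_sup_zmultiples.mp hy
    obtain ⟨s, h1, h2⟩ := hres n hn
    have e1 : (p + j • (a, b)).1 = (p + (j * s) • (u, u')).1 + j • (a - s • u) := by
      simp only [Prod.fst_add, Prod.smul_mk, zsmul_sub, mul_zsmul]
      abel
    have e2 : (p + j • (a, b)).2 = (p + (j * s) • (u, u')).2 + j • (b - s • u') := by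
      simp only [Prod.snd_add, Prod.smul_mk, zsmul_sub, mul_zsmul]
      abel
    rw [e1, e2, (h1.zsmul j).add_iff, (h2.zsmul j).add_iff]
    exact hS.dvd _ (S.add_mem hp (S.zsmul_mem hu _)) n hn

lemma dvdBy_mul_iff {G : Type*} [AddCommGroup G] [LinearOrder G] [IsOrderedAddMonoid G]
    {k n : ℕ} (hk : 0 < k) {z : G} : DvdBy (k * n) (k • z) ↔ DvdBy n z := by
  constructor
  · rintro ⟨w, hw⟩
    refine ⟨w, ?_⟩
    rw [mul_comm, mul_nsmul] at hw
    exact (nsmul_right_injective hk.ne') hw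
  · rintro ⟨w, rfl⟩
    exact ⟨w, by rw [mul_comm k n, mul_nsmul]⟩

lemma good_root {S : AddSubgroup (H × K)} (hS : Good S) {a a' : H} {b' : K} {m : ℤ} (hm : m ≠ 0)
    {p₀ : H × K} (hp₀ : p₀ ∈ S) (ha : a' = m • a + p₀.1)
    (hS' : Good (S ⊔ AddSubgroup.zmultiples (a', b'))) :
    ∃ b, Good (S ⊔ AddSubgroup.zmultiples (a, b)) := by
  set S' := S ⊔ AddSubgroup.zmultiples (a', b') with hS'def
  have hSS' : S ≤ S' := le_sup_left
  have hab' : (a', b') ∈ S' := (le_sup_right : AddSubgroup.zmultiples (a', b') ≤ S')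
    (AddSubgroup.mem_zmultiples _)
  have hk : 0 < m.natAbs := Int.natAbs_pos.mpr hm
  have h1 : DvdBy m.natAbs ((a', b') - p₀).1 := by
    refine ⟨m.sign • a, ?_⟩
    rw [← natCast_zsmul, ← mul_zsmul]
    have : ((m.natAbs : ℕ) : ℤ) * m.sign = m := by
      rw [mul_comm]; exact Int.sign_mul_natAbs m
    rw [this, Prod.fst_sub, ha]
    simp
  have h2 := (hS'.dvd _ (S'.sub_mem hab' (hSS' hp₀)) _ hk).mp h1
  obtain ⟨y, hy⟩ := h2
  have hb : b' = m • (m.sign • y) + p₀.2 := by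
    rw [← mul_zsmul, show m * m.sign = ((m.natAbs : ℕ) : ℤ) from Int.mul_sign_self m, natCast_zsmul,
      ← hy]
    simp
  refine ⟨m.sign • y, fg_sup_zmultiples hS.fg _, ?_, ?_⟩
  · intro x hx
    obtain ⟨p, hp, j, rfl⟩ := mem_sup_zmultiples.mp hx
    have hmem : m.natAbs • (p + j • (a, m.sign • y)) ∈ S' := by
      have hmem' : m • (p + j • (a, m.sign • y)) ∈ S' := by
        have : m • (p + j • (a, m.sign • y)) = m • p + j • ((a', b') - p₀) := by
          rw [zsmul_add, smul_comm m j]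
          congr 2
          ext
          · simp [ha]
          · simp [hb]
        rw [this]
        exact S'.add_mem (S'.zsmul_mem (hSS' hp) m) (S'.zsmul_mem (S'.sub_mem hab' (hSS' hp₀)) j)
      have e : m.natAbs • (p + j • (a, m.sign • y)) = m.sign • (m • (p + j • (a, m.sign • y))) := by
        rw [← mul_zsmul, Int.sign_mul_self_eq_natAbs m, natCast_zsmul]
      rw [e]
      exact S'.zsmul_mem hmem' _
    have := hS'.pos _ hmem
    rw [Prod.smul_fst, Prod.smul_snd, nsmul_pos_iff hk.ne', nsmul_pos_iff hk.ne'] at this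
    exact this
  · intro x hx n hn
    obtain ⟨p, hp, j, rfl⟩ := mem_sup_zmultiples.mp hx
    have hmem : m.natAbs • (p + j • (a, m.sign • y)) ∈ S' := by
      have hmem' : m • (p + j • (a, m.sign • y)) ∈ S' := by
        have : m • (p + j • (a, m.sign • y)) = m • p + j • ((a', b') - p₀) := by
          rw [zsmul_add, smul_comm m j]
          congr 2
          ext
          · simp [ha]
          · simp [hb]
        rw [this]
        exact S'.add_mem (S'.zsmul_mem (hSS' hp) m) (S'.zsmul_mem (S'.sub_mem hab' (hSS' hp₀)) j)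
      have e : m.natAbs • (p + j • (a, m.sign • y)) = m.sign • (m • (p + j • (a, m.sign • y))) := by
        rw [← mul_zsmul, Int.sign_mul_self_eq_natAbs m, natCast_zsmul]
      rw [e]
      exact S'.zsmul_mem hmem' _
    have := hS'.dvd _ hmem (m.natAbs * n) (Nat.mul_pos hk hn)
    rw [Prod.smul_fst, Prod.smul_snd] at this
    rw [dvdBy_mul_iff hk, dvdBy_mul_iff hk] at this
    exact this

end good

end Pool.Agent.Lib_helper35.EIP
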