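import Mathlib
import Pool.Agent.Lib_helper35.EIP.BackForth

/-!
# The extension step of the back-and-forth argument and the isomorphism theorem
-/

set_option autoImplicit false

namespace Pool.Agent.Lib_helper35.EIP

universe u v

open ArchimedeanClass

section extend

variable {H : Type u} [AddCommGroup H] [LinearOrder H] [IsOrderedAddMonoid H]
variable {K : Type v} [AddCommGroup K] [LinearOrder K] [IsOrderedAddMonoid K]

lemma pos_add_iff_of_mk_lt {x y : H} (h : mk x < mk y) : 0 < x + y ↔ 0 < x := by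
  constructor
  · intro h1
    apply pos_of_pos_of_mk_lt h1
    rw [mk_add_eq_mk_left h]
    have : x - (x + y) = -y := by abel
    rw [this, mk_neg]
    exact h
  · intro h1
    apply pos_of_pos_of_mk_lt h1
    have : x + y - x = y := by abel
    rw [this]
    exact h

lemma zsmul_pos_iff' {x : H} (hx : 0 < x) {j : ℤ} : 0 < j • x ↔ 0 < j := by
  have := zsmul_lt_zsmul_iff_left (m := 0) (n := j) hx
  rwa [zero_zsmul] at this

omit [IsOrderedAddMonoid H] [LinearOrder K] [IsOrderedAddMonoid K] in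
lemma fg_map_fst {S : AddSubgroup (H × K)} (hS : S.FG) : (S.map (AddMonoidHom.fst H K)).FG := by
  classical
  obtain ⟨s, hs⟩ := hS
  refine ⟨s.image (AddMonoidHom.fst H K), ?_⟩
  rw [Finset.coe_image, ← AddMonoidHom.map_closure, hs]

theorem extend_step {u : H} {u' : K} {k : Set ℝ} {Res : Set (ℕ → ℤ)} {inf : Prop}
    (hH : Rich H u k Res inf) (hK : Rich K u' k Res inf)
    (hRes : ∀ s ∈ Res, ∀ t ∈ Res, s - t ∈ Res)
    {S : AddSubgroup (H × K)} (hS : Good S) (hu : (u, u') ∈ S) (a : H) :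
    ∃ b, Good (S ⊔ AddSubgroup.zmultiples (a, b)) := by
  -- choose a reduced multiple of `a` modulo `S`
  obtain ⟨m, p₀, hm, hp₀, ha0, hmax⟩ : ∃ (m : ℤ) (p₀ : H × K), m ≠ 0 ∧ p₀ ∈ S ∧
      0 ≤ m • a + p₀.1 ∧ ∀ m' : ℤ, m' ≠ 0 → ∀ p ∈ S, mk (m' • a + p.1) ≤ mk (m • a + p₀.1) := by
    let T : Set (ℤ × (H × K)) := {x | x.1 ≠ 0 ∧ x.2 ∈ S}
    have hfin : ((fun x : ℤ × (H × K) => mk (x.1 • a + x.2.1)) '' T).Finite := by
      apply (finite_mk_of_fg _ (fg_sup_zmultiples (fg_map_fst hS.fg) a)).subset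
      rintro _ ⟨⟨m, p⟩, ⟨_, hp⟩, rfl⟩
      refine ⟨m • a + p.1, ?_, rfl⟩
      rw [SetLike.mem_coe, mem_sup_zmultiples]
      exact ⟨p.1, ⟨p, hp, rfl⟩, m, add_comm _ _⟩
    have hne : ((fun x : ℤ × (H × K) => mk (x.1 • a + x.2.1)) '' T).Nonempty :=
      ⟨_, (1, 0), ⟨one_ne_zero, S.zero_mem⟩, rfl⟩
    obtain ⟨c, ⟨⟨m, p⟩, ⟨hm, hp⟩, rfl⟩, hc⟩ := hfin.exists_maximal hne
    have hc' : ∀ m' : ℤ, m' ≠ 0 → ∀ p' ∈ S, mk (m' • a + p'.1) ≤ mk (m • a + p.1) := by
      intro m' hm' p' hp'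
      rcases le_total (mk (m' • a + p'.1)) (mk (m • a + p.1)) with h | h
      · exact h
      · exact hc ⟨(m', p'), ⟨hm', hp'⟩, rfl⟩ h
    rcases le_total 0 (m • a + p.1) with h | h
    · exact ⟨m, p, hm, hp, h, hc'⟩
    · refine ⟨-m, -p, neg_ne_zero.mpr hm, S.neg_mem hp, ?_, ?_⟩
      · have : (-m) • a + (-p).1 = -(m • a + p.1) := by
          rw [neg_zsmul, Prod.fst_neg]; abel
        rw [this]
        exact neg_nonneg.mpr h
      · have : (-m) • a + (-p).1 = -(m • a + p.1) := by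
          rw [neg_zsmul, Prod.fst_neg]; abel
        rw [this, mk_neg]
        exact hc'
  set a' := m • a + p₀.1 with ha'
  suffices hmain : ∃ b', Good (S ⊔ AddSubgroup.zmultiples (a', b')) by
    obtain ⟨b', hb'⟩ := hmain
    exact good_root hS hm hp₀ ha' hb'
  have hred : ∀ j : ℤ, j ≠ 0 → ∀ p ∈ S, mk (p.1 + j • a') ≤ mk a' := by
    intro j hj p hp
    have : p.1 + j • a' = (j * m) • a + (p + j • p₀).1 := by
      rw [ha', Prod.fst_add, Prod.smul_fst, zsmul_add, mul_zsmul]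
      abel
    rw [this]
    exact hmax _ (mul_ne_zero hj hm) _ (S.add_mem hp (S.zsmul_mem hp₀ j))
  rcases eq_or_lt_of_le ha0 with h0 | hpos
  · -- `a' = 0`
    refine ⟨0, ?_⟩
    have : ((a', (0 : K)) : H × K) = 0 := by rw [← h0]; rfl
    rw [this, AddSubgroup.zmultiples_zero_eq_bot, sup_bot_eq]
    exact hS
  have hdisc : inf → mk a' < mk u := by
    intro hinf
    by_contra hcon
    push Not at hcon
    obtain ⟨j, hj⟩ := hH.discrete hinf a' hcon
    have h1 := hred 1 one_ne_zero (-(j • (u, u'))) (S.neg_mem (S.zsmul_mem hu j))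
    have h2 : (-(j • (u, u'))).1 + (1 : ℤ) • a' = 0 := by
      rw [Prod.fst_neg, Prod.smul_fst, one_zsmul, hj]
      simp
    rw [h2, mk_zero, top_le_iff, mk_eq_top_iff] at h1
    exact hpos.ne' h1
  obtain ⟨σ, hσ, hσ'⟩ := hH.res a'
  by_cases hcase : ∃ p ∈ S, mk p.1 = mk a'
  · -- Case I: the archimedean class of `a'` is already present
    obtain ⟨p₁, hp₁, hmk₁⟩ := hcase
    set q : H × K := (|p₁.1|, |p₁.2|) with hq
    have hqS : q ∈ S := hS.abs_mem hp₁
    have hmkq : mk q.1 = mk a' := by rw [hq]; simp only [mk_abs]; exact hmk₁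
    have hq1 : 0 < q.1 := by
      rcases eq_or_lt_of_le (abs_nonneg p₁.1) with h | h
      · exfalso
        rw [hq] at hmkq
        simp only [← h, mk_zero] at hmkq
        exact hpos.ne' (mk_eq_top_iff.mp hmkq.symm)
      · exact h
    have hq2 : 0 < q.2 := (hS.pos q hqS).mp hq1
    have hbig1 : inf → mk q.1 < mk u := by rw [hmkq]; exact hdisc
    have hbig2 : inf → mk q.2 < mk u' := fun h => (hS.mk_lt_iff hqS hu).mp (hbig1 h)
    obtain ⟨r, hr⟩ := IsRatio.exists_of_bounded hq1 hmkq.le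
    obtain ⟨b'', hb''⟩ := hK.ratio_ex q.2 hq2 hbig2 r (hH.ratio_mem q.1 hq1 hbig1 a' r hr)
    obtain ⟨τ, hτ, hτ'⟩ := hK.res b''
    obtain ⟨t, ht, ht'⟩ := hK.res_ex (σ - τ) (hRes σ hσ τ hτ) q.2 hq2 hbig2
    have hb' : IsRatio (b'' + t) q.2 r := hb''.add_small hq2 ht
    refine ⟨b'' + t, good_extend hS hu ?_ ?_⟩
    · intro n hn
      refine ⟨σ n, hσ' n hn, ?_⟩
      have : b'' + t - σ n • u' = (b'' - τ n • u') + (t - (σ - τ) n • u') := by
        rw [Pi.sub_apply, sub_zsmul]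
        abel
      rw [this]
      exact (hτ' n hn).add (ht' n hn)
    · intro j hj p hp
      rcases le_or_gt (mk q.1) (mk p.1) with h | h
      · obtain ⟨s, hs⟩ := IsRatio.exists_of_bounded hq1 h
        have hs' := hS.ratio hp hqS hs
        have hx := hs.add hq1 (hr.zsmul hq1 j)
        have hy := hs'.add hq2 (hb'.zsmul hq2 j)
        have hne : s + j * r ≠ 0 := by
          intro h0
          rw [h0] at hx
          have h1 := hx.mk_lt hq1
          rw [hmkq] at h1
          exact absurd (hred j hj p hp) (not_le.mpr h1)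
        rcases lt_or_gt_of_ne hne with h1 | h1
        · have e1 := hx.neg_of_neg hq1 h1
          have e2 := hy.neg_of_neg hq2 h1
          exact ⟨fun h => absurd h (not_lt.mpr e1.le), fun h => absurd h (not_lt.mpr e2.le)⟩
        · exact ⟨fun _ => hy.pos hq2 h1, fun _ => hx.pos hq1 h1⟩
      · have h2 := (hS.mk_lt_iff hp hqS).mp h
        have e1 : mk p.1 < mk (j • a') := by
          rw [mk_smul _ hj, ← hmkq]; exact h
        have e2 : mk p.2 < mk (j • (b'' + t)) := by
          rw [mk_smul _ hj]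
          exact h2.trans_le (hb'.bounded hq2)
        rw [pos_add_iff_of_mk_lt e1, pos_add_iff_of_mk_lt e2]
        exact hS.pos p hp
  · -- Case II: a new archimedean class
    push Not at hcase
    have hfin := finite_mk_of_fg _ (fg_map_fst hS.fg)
    -- lower neighbour
    obtain ⟨pL, hpL, hpL1, hpL2⟩ : ∃ pL ∈ S, mk a' < mk pL.1 ∧
        ∀ p ∈ S, mk a' < mk p.1 → mk pL.1 ≤ mk p.1 := by
      have hfin' : ((fun p : H × K => mk p.1) '' {p | p ∈ S ∧ mk a' < mk p.1}).Finite := by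
        apply hfin.subset
        rintro _ ⟨p, ⟨hp, _⟩, rfl⟩
        exact ⟨p.1, ⟨p, hp, rfl⟩, rfl⟩
      have hne : ((fun p : H × K => mk p.1) '' {p | p ∈ S ∧ mk a' < mk p.1}).Nonempty := by
        refine ⟨_, 0, ⟨S.zero_mem, ?_⟩, rfl⟩
        rw [Prod.fst_zero, mk_zero, lt_top_iff_ne_top, Ne, mk_eq_top_iff]
        exact hpos.ne'
      obtain ⟨c, ⟨pL, ⟨hpL, hpL1⟩, rfl⟩, hc⟩ := hfin'.exists_minimal hne
      refine ⟨pL, hpL, hpL1, fun p hp h => ?_⟩
      rcases le_total (mk pL.1) (mk p.1) with h' | h'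
      · exact h'
      · exact hc ⟨p, ⟨hp, h⟩, rfl⟩ h'
    have hLu : inf → mk pL.2 ≤ mk u' := fun h =>
      (hS.mk_le_iff hpL hu).mp (hpL2 (u, u') hu (hdisc h))
    obtain ⟨b₁, hb₁, hb₁'⟩ : ∃ b₁ : K, mk b₁ < mk pL.2 ∧ ∀ p ∈ S, mk p.1 < mk a' → mk p.2 < mk b₁ := by
      by_cases hU : ∃ p ∈ S, mk p.1 < mk a'
      · obtain ⟨pU, hpU, hpU1, hpU2⟩ : ∃ pU ∈ S, mk pU.1 < mk a' ∧
            ∀ p ∈ S, mk p.1 < mk a' → mk p.1 ≤ mk pU.1 := by
          have hfin' : ((fun p : H × K => mk p.1) '' {p | p ∈ S ∧ mk p.1 < mk a'}).Finite := by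
            apply hfin.subset
            rintro _ ⟨p, ⟨hp, _⟩, rfl⟩
            exact ⟨p.1, ⟨p, hp, rfl⟩, rfl⟩
          have hne : ((fun p : H × K => mk p.1) '' {p | p ∈ S ∧ mk p.1 < mk a'}).Nonempty := by
            obtain ⟨p, hp, hp'⟩ := hU
            exact ⟨_, p, ⟨hp, hp'⟩, rfl⟩
          obtain ⟨c, ⟨pU, ⟨hpU, hpU1⟩, rfl⟩, hc⟩ := hfin'.exists_maximal hne
          refine ⟨pU, hpU, hpU1, fun p hp h => ?_⟩
          rcases le_total (mk p.1) (mk pU.1) with h' | h'
          · exact h'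
          · exact hc ⟨p, ⟨hp, h⟩, rfl⟩ h'
        have h1 : mk pU.2 < mk pL.2 := (hS.mk_lt_iff hpU hpL).mp (hpU1.trans hpL1)
        obtain ⟨b₁, h2, h3⟩ := hK.dens pL.2 pU.2 hLu h1
        exact ⟨b₁, h3, fun p hp h => ((hS.mk_le_iff hp hpU).mp (hpU2 p hp h)).trans_lt h2⟩
      · push Not at hU
        have hinf : inf := by
          by_contra hcon
          have h1 := hH.bounded hcon a'
          have h2 := hcase (u, u') hu
          have h3 := hU (u, u') hu
          exact h2 (le_antisymm h1 h3)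
        obtain ⟨b₁, h1⟩ := hK.unb hinf pL.2
        exact ⟨b₁, h1, fun p hp h => absurd h (not_lt.mpr (hU p hp))⟩
    have hb₁0 : b₁ ≠ 0 := by
      rintro rfl
      rw [mk_zero] at hb₁
      exact not_top_lt hb₁
    set b'' := |b₁| with hb''
    have hb''pos : 0 < b'' := abs_pos.mpr hb₁0
    have hmkb'' : mk b'' = mk b₁ := mk_abs b₁
    have hbig : inf → mk b'' < mk u' := fun h => by
      rw [hmkb'']; exact hb₁.trans_le (hLu h)
    obtain ⟨τ, hτ, hτ'⟩ := hK.res b''
    obtain ⟨t, ht, ht'⟩ := hK.res_ex (σ - τ) (hRes σ hσ τ hτ) b'' hb''pos hbig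
    have hmkb' : mk (b'' + t) = mk b₁ := by rw [mk_add_eq_mk_left ht, hmkb'']
    have hb'pos : 0 < b'' + t := (pos_add_iff_of_mk_lt ht).mpr hb''pos
    refine ⟨b'' + t, good_extend hS hu ?_ ?_⟩
    · intro n hn
      refine ⟨σ n, hσ' n hn, ?_⟩
      have : b'' + t - σ n • u' = (b'' - τ n • u') + (t - (σ - τ) n • u') := by
        rw [Pi.sub_apply, sub_zsmul]
        abel
      rw [this]
      exact (hτ' n hn).add (ht' n hn)
    · intro j hj p hp
      rcases lt_trichotomy (mk p.1) (mk a') with h | h | h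
      · have e1 : mk p.1 < mk (j • a') := by rw [mk_smul _ hj]; exact h
        have e2 : mk p.2 < mk (j • (b'' + t)) := by
          rw [mk_smul _ hj, hmkb']; exact hb₁' p hp h
        rw [pos_add_iff_of_mk_lt e1, pos_add_iff_of_mk_lt e2]
        exact hS.pos p hp
      · exact absurd h (hcase p hp)
      · have e1 : mk (j • a') < mk p.1 := by rw [mk_smul _ hj]; exact h
        have e2 : mk (j • (b'' + t)) < mk p.2 := by
          rw [mk_smul _ hj, hmkb']
          exact hb₁.trans_le ((hS.mk_le_iff hpL hp).mp (hpL2 p hp h))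
        rw [add_comm p.1, add_comm p.2, pos_add_iff_of_mk_lt e1, pos_add_iff_of_mk_lt e2]
        rw [zsmul_pos_iff' hpos, zsmul_pos_iff' hb'pos]

/-- Good partial isomorphisms containing `(u, u')`. -/
abbrev PGood (u : H) (u' : K) : Type (max u v) :=
  {S : AddSubgroup (H × K) // Good S ∧ (u, u') ∈ S}

lemma rich_dvdBy_iff {w : H} {k : Set ℝ} {Res : Set (ℕ → ℤ)} {inf : Prop}
    (hG : Rich H w k Res inf) (hinf : inf) {n : ℕ} (hn : 0 < n) {j : ℤ} :
    DvdBy n (j • w) ↔ (n : ℤ) ∣ j := by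
  constructor
  · rintro ⟨y, hy⟩
    have h1 : mk w ≤ mk y := by
      by_cases hj : j = 0
      · rw [hj, zero_zsmul] at hy
        have : y = 0 := by
          rcases smul_eq_zero.mp hy.symm with h | h
          · omega
          · exact h
        rw [this, mk_zero]
        exact le_top
      · have e1 : mk (j • w) = mk w := mk_smul w hj
        have e2 : mk (n • y) = mk y := by
          rw [← natCast_zsmul]
          exact mk_smul y (by exact_mod_cast hn.ne')
        rw [← e1, ← e2, hy]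
    obtain ⟨i, rfl⟩ := hG.discrete hinf y h1
    rw [← natCast_zsmul, ← mul_zsmul] at hy
    have h2 : j = n * i := by
      have h3 : (j - n * i) • w = 0 := by rw [sub_zsmul, hy]; simp
      rcases smul_eq_zero.mp h3 with h | h
      · linarith
      · exact absurd h hG.u_pos.ne'
    exact ⟨i, h2⟩
  · rintro ⟨i, rfl⟩
    exact ⟨i • w, by rw [mul_zsmul, natCast_zsmul]⟩

lemma good_zmultiples {u : H} {u' : K} {k : Set ℝ} {Res : Set (ℕ → ℤ)} {inf : Prop}
    (hH : Rich H u k Res inf) (hK : Rich K u' k Res inf) :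
    Good (AddSubgroup.zmultiples ((u, u') : H × K)) := by
  refine ⟨?_, ?_, ?_⟩
  · rw [AddSubgroup.zmultiples_eq_closure]
    exact ⟨{(u, u')}, by simp⟩
  · intro p hp
    obtain ⟨j, rfl⟩ := AddSubgroup.mem_zmultiples_iff.mp hp
    show 0 < j • u ↔ 0 < j • u'
    rw [zsmul_pos_iff' hH.u_pos, zsmul_pos_iff' hK.u_pos]
  · intro p hp n hn
    obtain ⟨j, rfl⟩ := AddSubgroup.mem_zmultiples_iff.mp hp
    show DvdBy n (j • u) ↔ DvdBy n (j • u')
    by_cases hinf : inf
    · rw [rich_dvdBy_iff hH hinf hn, rich_dvdBy_iff hK hinf hn]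
    · exact ⟨fun _ => hK.divisible hinf _ n hn, fun _ => hH.divisible hinf _ n hn⟩

theorem exists_iso [Countable H] [Countable K]
    {u : H} {u' : K} {k : Set ℝ} {Res : Set (ℕ → ℤ)} {inf : Prop}
    (hH : Rich H u k Res inf) (hK : Rich K u' k Res inf)
    (hRes : ∀ s ∈ Res, ∀ t ∈ Res, s - t ∈ Res) :
    ∃ e : H ≃+ K, (∀ x y, x < y ↔ e x < e y) ∧ e u = u' := by
  classical
  let S₀ : PGood u u' := ⟨_, good_zmultiples hH hK, AddSubgroup.mem_zmultiples _⟩
  let D : H ⊕ K → Order.Cofinal (PGood u u') := fun x => match x with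
    | .inl a => ⟨{S | ∃ b, (a, b) ∈ S.1}, by
        rintro ⟨S, hS, hu⟩
        obtain ⟨b, hb⟩ := extend_step hH hK hRes hS hu a
        refine ⟨⟨_, hb, (le_sup_left : S ≤ _) hu⟩, ⟨b, ?_⟩, ?_⟩
        · exact (le_sup_right : AddSubgroup.zmultiples (a, b) ≤ _) (AddSubgroup.mem_zmultiples _)
        · exact (le_sup_left : S ≤ _)⟩
    | .inr b => ⟨{S | ∃ a, (a, b) ∈ S.1}, by
        rintro ⟨S, hS, hu⟩
        let sw : K × H ≃+ H × K := AddEquiv.prodComm
        have hsw : ∀ (T : AddSubgroup (H × K)) (x : H × K),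
            (x.2, x.1) ∈ T.map (AddEquiv.prodComm : H × K ≃+ K × H).toAddMonoidHom ↔ x ∈ T := by
          intro T x
          constructor
          · rintro ⟨y, hy, hyx⟩
            have : y = x := by
              have h1 : (y.2, y.1) = (x.2, x.1) := hyx
              rw [Prod.mk.injEq] at h1
              exact Prod.ext h1.2 h1.1
            rw [← this]; exact hy
          · intro hx
            exact ⟨x, hx, rfl⟩
        obtain ⟨a, ha⟩ := extend_step hK hH hRes hS.swap ((hsw S (u, u')).mpr hu) b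
        have hT := ha.swap
        set T := (S.map (AddEquiv.prodComm : H × K ≃+ K × H).toAddMonoidHom ⊔
          AddSubgroup.zmultiples (b, a)).map (AddEquiv.prodComm : K × H ≃+ H × K).toAddMonoidHom
          with hTdef
        have hST : S ≤ T := by
          intro x hx
          refine ⟨(x.2, x.1), ?_, rfl⟩
          exact (le_sup_left : S.map _ ≤ _) ((hsw S x).mpr hx)
        refine ⟨⟨T, hT, hST hu⟩, ⟨a, ?_⟩, hST⟩
        refine ⟨(b, a), ?_, rfl⟩
        exact (le_sup_right : AddSubgroup.zmultiples (b, a) ≤ _) (AddSubgroup.mem_zmultiples _)⟩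
  have : Encodable (H ⊕ K) := Encodable.ofCountable _
  let I := Order.idealOfCofinals S₀ D
  have hI : ∀ x : H ⊕ K, ∃ S : PGood u u', S ∈ D x ∧ S ∈ I :=
    fun x => Order.cofinal_meets_idealOfCofinals S₀ D x
  let Φ : H → K → Prop := fun a b => ∃ S : PGood u u', S ∈ I ∧ (a, b) ∈ S.1
  have hex : ∀ a, ∃ b, Φ a b := by
    intro a
    obtain ⟨S, ⟨b, hb⟩, hSI⟩ := hI (.inl a)
    exact ⟨b, S, hSI, hb⟩
  have hsurj : ∀ b, ∃ a, Φ a b := by
    intro b
    obtain ⟨S, ⟨a, hb⟩, hSI⟩ := hI (.inr b)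
    exact ⟨a, S, hSI, hb⟩
  have hdir : ∀ {S T : PGood u u'}, S ∈ I → T ∈ I → ∃ W ∈ I, S ≤ W ∧ T ≤ W :=
    fun {S T} hS hT => I.directed S hS T hT
  have hlt : ∀ {a b a' b'}, Φ a b → Φ a' b' → (a < a' ↔ b < b') := by
    rintro a b a' b' ⟨S, hS, hab⟩ ⟨T, hT, hab'⟩
    obtain ⟨W, _, hSW, hTW⟩ := hdir hS hT
    exact W.2.1.lt_iff (hSW hab) (hTW hab')
  have hadd : ∀ {a b a' b'}, Φ a b → Φ a' b' → Φ (a + a') (b + b') := by
    rintro a b a' b' ⟨S, hS, hab⟩ ⟨T, hT, hab'⟩
    obtain ⟨W, hW, hSW, hTW⟩ := hdir hS hT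
    exact ⟨W, hW, W.1.add_mem (hSW hab) (hTW hab')⟩
  have huniq : ∀ {a b b'}, Φ a b → Φ a b' → b = b' := by
    intro a b b' h h'
    apply le_antisymm
    · by_contra hcon
      push Not at hcon
      exact lt_irrefl _ ((hlt h' h).mpr hcon)
    · by_contra hcon
      push Not at hcon
      exact lt_irrefl _ ((hlt h h').mpr hcon)
  choose e he using hex
  have he_lt : ∀ x y, x < y ↔ e x < e y := fun x y => hlt (he x) (he y)
  have hinj : Function.Injective e := by
    intro x y hxy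
    apply le_antisymm
    · by_contra hcon
      push Not at hcon
      have := (he_lt y x).mp hcon
      rw [hxy] at this
      exact lt_irrefl _ this
    · by_contra hcon
      push Not at hcon
      have := (he_lt x y).mp hcon
      rw [hxy] at this
      exact lt_irrefl _ this
  have hsurj' : Function.Surjective e := by
    intro b
    obtain ⟨a, ha⟩ := hsurj b
    exact ⟨a, huniq (he a) ha⟩
  let e' : H →+ K := AddMonoidHom.mk' e (fun x y => huniq (he (x + y)) (hadd (he x) (he y)))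
  refine ⟨AddEquiv.ofBijective e' ⟨hinj, hsurj'⟩, he_lt, ?_⟩
  exact huniq (he u) ⟨S₀, Order.mem_idealOfCofinals S₀ D, AddSubgroup.mem_zmultiples _⟩

end extend

end Pool.Agent.Lib_helper35.EIP
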