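import Mathlib
import Pool.Agent.Lib_helper35.EIP.Arith

/-!
# Powers of two in discretely ordered rings with bounded induction
-/

set_option autoImplicit false

namespace Pool.Agent.Lib_helper35.EIP

universe u

section pow2

variable {Z : Type u} [CommRing Z] [LinearOrder Z]

/-- Powers of two: positive elements all of whose divisors are `1` or even. -/
def Pow2 (p : Z) : Prop :=
  0 < p ∧ ∀ d, 0 ≤ d → d < p + 1 → ∀ e, 0 ≤ e → e < p + 1 → d * e = p →
    (d = 1 ∨ ∃ c, 0 ≤ c ∧ c < d + 1 ∧ d = 2 * c)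

lemma DZ.pow2_base : DZ (fun v : ℕ → Z => Pow2 (v 0)) := by
  unfold Pow2
  infer_instance

instance DZ.pow2 {s : (ℕ → Z) → Z} [PF s] : DZ (fun v => Pow2 (s v)) :=
  DZ.subst1 DZ.pow2_base

variable [IsStrictOrderedRing Z] [BArith Z]

lemma even_or_odd' (z : Z) : (∃ c, z = 2 * c) ∨ ∃ c, z = 2 * c + 1 := by
  obtain ⟨q, r, hr, hr2, h⟩ := exists_divMod z (b := 2) (by norm_num)
  have : r = 0 ∨ r = 1 := by
    have h2 : r ≤ ((1 : ℕ) : Z) := by
      rw [← lt_add_one_iff']; push_cast; linarith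
    obtain ⟨k, hk, hrk⟩ := exists_nat_of_le hr h2
    interval_cases k
    · left; simpa using hrk
    · right; simpa using hrk
  rcases this with h' | h'
  · left; exact ⟨q, by rw [h, h']; ring⟩
  · right; exact ⟨q, by rw [h, h']; ring⟩

lemma not_even_and_odd {a b : Z} (h : 2 * a = 2 * b + 1) : False := by
  have h1 : 2 * (a - b) = 1 := by linarith
  rcases lt_or_ge (a - b) 1 with h2 | h2
  · have : a - b ≤ 0 := by
      have := lt_iff_add_one_le'.mp h2
      linarith
    linarith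
  · linarith

omit [BArith Z] in
lemma pow2_iff_aux {p d e : Z} (hp : 0 < p) (hd : 0 ≤ d) (he : 0 ≤ e) (h : d * e = p)
    (h1 : ∀ z : Z, 0 < z → 1 ≤ z) : d ≤ p := by
  have he0 : 0 < e := by
    rcases lt_or_eq_of_le he with h | h'
    · exact h
    · rw [← h', mul_zero] at h; linarith
  have := h1 e he0
  nlinarith

lemma pow2_iff {p : Z} : Pow2 p ↔ 0 < p ∧ ∀ d e, 0 ≤ d → 0 ≤ e → d * e = p →
    (d = 1 ∨ ∃ c, d = 2 * c) := by
  constructor
  · rintro ⟨hp, h⟩
    refine ⟨hp, fun d e hd he hde => ?_⟩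
    have h1 := pow2_iff_aux hp hd he hde BArith.discrete
    have h2 := pow2_iff_aux hp he hd (by rw [mul_comm]; exact hde) BArith.discrete
    rcases h d hd (by linarith) e he (by linarith) hde with h | ⟨c, _, _, h⟩
    · left; exact h
    · right; exact ⟨c, h⟩
  · rintro ⟨hp, h⟩
    refine ⟨hp, fun d hd _ e he _ hde => ?_⟩
    rcases h d e hd he hde with h | ⟨c, hc⟩
    · left; exact h
    · right
      exact ⟨c, by linarith, by linarith, hc⟩

omit [IsStrictOrderedRing Z] [BArith Z] in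
lemma Pow2.pos {p : Z} (h : Pow2 p) : 0 < p := h.1

lemma Pow2.one_le {p : Z} (h : Pow2 p) : 1 ≤ p := BArith.discrete p h.1

lemma eq_one_of_mul_eq_one {d e : Z} (hd : 0 ≤ d) (he : 0 ≤ e) (h : d * e = 1) : d = 1 := by
  have h1 := pow2_iff_aux one_pos hd he h BArith.discrete
  have hd0 : 0 < d := by
    rcases lt_or_eq_of_le hd with h | h'
    · exact h
    · rw [← h', zero_mul] at h; exact absurd h zero_ne_one
  exact le_antisymm h1 (BArith.discrete d hd0)

lemma pow2_one : Pow2 (1 : Z) := by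
  rw [pow2_iff]
  exact ⟨one_pos, fun d e hd he h => Or.inl (eq_one_of_mul_eq_one hd he h)⟩

lemma Pow2.two_mul {p : Z} (h : Pow2 p) : Pow2 (2 * p) := by
  rw [pow2_iff] at h ⊢
  refine ⟨by linarith [h.1], fun d e hd he hde => ?_⟩
  rcases even_or_odd' d with ⟨c, hc⟩ | ⟨c, hc⟩
  · right; exact ⟨c, hc⟩
  · rcases even_or_odd' e with ⟨f, hf⟩ | ⟨f, hf⟩
    · have h1 : d * f = p := by
        have : 2 * (d * f) = 2 * p := by rw [← hde, hf]; ring
        linarith
      exact h.2 d f hd (by linarith) h1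
    · exfalso
      have : 2 * p = 2 * (2 * c * f + c + f) + 1 := by rw [← hde, hc, hf]; ring
      exact not_even_and_odd this

lemma Pow2.of_mul {p q : Z} (h : Pow2 (p * q)) (hp : 0 ≤ p) (hq : 0 ≤ q) : Pow2 p := by
  have hp0 : 0 < p := by
    rcases lt_or_eq_of_le hp with h' | h'
    · exact h'
    · rw [← h', zero_mul] at h; exact absurd h.1 (lt_irrefl _)
  rw [pow2_iff] at h ⊢
  refine ⟨hp0, fun d e hd he hde => h.2 d (e * q) hd (mul_nonneg he hq) ?_⟩
  rw [← hde]; ring

lemma Pow2.half {p : Z} (h : Pow2 p) (h1 : p ≠ 1) : ∃ q, Pow2 q ∧ p = 2 * q := by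
  rcases (pow2_iff.mp h).2 p 1 h.pos.le zero_le_one (mul_one p) with h2 | ⟨c, hc⟩
  · exact absurd h2 h1
  · refine ⟨c, ?_, hc⟩
    have hc0 : 0 ≤ c := by have := h.pos; linarith
    apply Pow2.of_mul (q := 2) _ hc0 zero_le_two
    rw [mul_comm, ← hc]; exact h

/-- Induction along powers of two. -/
theorem pow2_induction {P : Z → Prop} (hP : DZ (fun v : ℕ → Z => P (v 0))) (h1 : P 1)
    (h2 : ∀ p, Pow2 p → P p → P (2 * p)) : ∀ p, Pow2 p → P p := by
  intro p hp
  by_contra hcon
  obtain ⟨x, hx, _, ⟨hx1, hx2⟩, hleast⟩ := exists_least (P := fun x => Pow2 x ∧ ¬ P x)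
    inferInstance hp.pos.le ⟨hp, hcon⟩
  by_cases hx3 : x = 1
  · rw [hx3] at hx2; exact hx2 h1
  · obtain ⟨q, hq, hxq⟩ := hx1.half hx3
    have hq1 : q < x := by have := hq.pos; linarith
    have := hleast q hq.pos.le hq1
    push Not at this
    rw [hxq] at hx2
    exact hx2 (h2 q hq (this hq))

theorem exists_pow2_le {a : Z} (ha : 1 ≤ a) : ∃ p, Pow2 p ∧ p ≤ a ∧ a < 2 * p := by
  have key : ∀ x : Z, 0 ≤ x → ∃ p, 0 ≤ p ∧ p < x + 2 ∧ (Pow2 p ∧ p ≤ x + 1 ∧ x + 1 < 2 * p) := by
    apply bInduction (P := fun x => ∃ p, 0 ≤ p ∧ p < x + 2 ∧ (Pow2 p ∧ p ≤ x + 1 ∧ x + 1 < 2 * p))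
      inferInstance
    · exact ⟨1, zero_le_one, by linarith, pow2_one, by linarith, by linarith⟩
    · rintro x hx ⟨p, hp0, hp, hp1, hp2, hp3⟩
      rcases lt_or_eq_of_le (lt_iff_add_one_le'.mp hp3) with h | h
      · exact ⟨p, hp0, by linarith, hp1, by linarith, h⟩
      · exact ⟨2 * p, by linarith, by linarith, hp1.two_mul, by linarith, by linarith⟩
  obtain ⟨p, _, _, hp1, hp2, hp3⟩ := key (a - 1) (by linarith)
  exact ⟨p, hp1, by linarith, by linarith⟩

theorem Pow2.mul {p q : Z} (hp : Pow2 p) (hq : Pow2 q) : Pow2 (p * q) := by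
  revert p
  apply pow2_induction (P := fun p => Pow2 (p * q)) inferInstance
  · rw [one_mul]; exact hq
  · intro p _ h
    have := h.two_mul
    rwa [← mul_assoc] at this

theorem Pow2.pow {p : Z} (hp : Pow2 p) (n : ℕ) : Pow2 (p ^ n) := by
  induction n with
  | zero => rw [pow_zero]; exact pow2_one
  | succ n ih => rw [pow_succ]; exact ih.mul hp

/-- Powers of two are totally ordered by divisibility. -/
theorem Pow2.exists_mul_eq {p q : Z} (hp : Pow2 p) (hq : Pow2 q) (hpq : p ≤ q) :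
    ∃ r, Pow2 r ∧ q = p * r := by
  have key : ∀ q : Z, Pow2 q → ∀ p, 0 ≤ p → p < q + 1 → (Pow2 p →
      ∃ r, 0 ≤ r ∧ r < q + 1 ∧ (Pow2 r ∧ q = p * r)) := by
    apply pow2_induction (P := fun q => ∀ p, 0 ≤ p → p < q + 1 → (Pow2 p →
      ∃ r, 0 ≤ r ∧ r < q + 1 ∧ (Pow2 r ∧ q = p * r))) inferInstance
    · intro p _ hp1 hp
      have : p = 1 := le_antisymm (lt_add_one_iff'.mp hp1) hp.one_le
      exact ⟨1, zero_le_one, by linarith, pow2_one, by rw [this, mul_one]⟩
    · intro q hq ih p hp0 hpq hp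
      rcases lt_or_ge p (q + 1) with h | h
      · obtain ⟨r, hr0, hr, hr1, hr2⟩ := ih p hp0 h hp
        have hr' := lt_add_one_iff'.mp hr
        exact ⟨2 * r, by linarith, by linarith, hr1.two_mul, by rw [hr2]; ring⟩
      · have hp1 : p ≠ 1 := by
          have := hq.one_le
          intro h'
          linarith
        obtain ⟨p', hp', hpp'⟩ := hp.half hp1
        have hle : p' < q + 1 := by
          rw [lt_add_one_iff'] at hpq
          linarith
        obtain ⟨r, hr0, hr, hr1, hr2⟩ := ih p' hp'.pos.le hle hp'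
        have hr3 : r = 1 := by
          apply le_antisymm _ hr1.one_le
          by_contra hcon
          push Not at hcon
          have : 2 ≤ r := by
            have := lt_iff_add_one_le'.mp hcon
            linarith
          have hpos := hp'.pos
          nlinarith
        refine ⟨1, zero_le_one, by have := hq.pos; linarith, pow2_one, ?_⟩
        rw [hpp', mul_one, hr2, hr3, mul_one]
  obtain ⟨r, _, _, hr1, hr2⟩ := key q hq p hp.pos.le (by linarith) hp
  exact ⟨r, hr1, hr2⟩

lemma pow2_two : Pow2 (2 : Z) := by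
  have := (pow2_one (Z := Z)).two_mul
  rwa [mul_one] at this

/-- Finite powers of two are standard powers of two. -/
lemma Pow2.eq_two_pow {p : Z} (hp : Pow2 p) (h : ¬ Infin p) : ∃ n : ℕ, p = 2 ^ n := by
  obtain ⟨k, hk⟩ := exists_nat_of_not_infin hp.pos.le h
  induction k using Nat.strong_induction_on generalizing p with
  | _ k ih =>
    by_cases h1 : p = 1
    · exact ⟨0, by simp [h1]⟩
    · obtain ⟨q, hq, hpq⟩ := hp.half h1
      have hqfin : ¬ Infin q := fun h' => h (h'.mono (by have := hq.pos; linarith))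
      obtain ⟨j, hj⟩ := exists_nat_of_not_infin hq.pos.le hqfin
      have hjk : j < k := by
        have : (j : Z) < k := by
          rw [← hj, ← hk, hpq]
          have := hq.pos
          linarith
        exact_mod_cast this
      obtain ⟨n, hn⟩ := ih j hjk hq hqfin hj
      exact ⟨n + 1, by rw [hpq, hn]; ring⟩

end pow2

end Pool.Agent.Lib_helper35.EIP
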