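import Mathlib
import Pool.Agent.Lib_helper35.EIP.Pow2

/-!
# Coding of short sequences
-/

set_option autoImplicit false

namespace Pool.Agent.Lib_helper35.EIP

universe u

section coding

variable {Z : Type u} [CommRing Z] [LinearOrder Z]

/-- `y` is the remainder of `c` modulo `1 + (i + 1) d`. -/
def Beta (c d i y : Z) : Prop :=
  0 ≤ y ∧ y < 1 + (i + 1) * d ∧ ∃ q, 0 ≤ q ∧ q < c + 1 ∧ c = q * (1 + (i + 1) * d) + y

lemma DZ.beta_base : DZ (fun v : ℕ → Z => Beta (v 0) (v 1) (v 2) (v 3)) := by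
  unfold Beta
  infer_instance

instance DZ.beta {s t r w : (ℕ → Z) → Z} [PF s] [PF t] [PF r] [PF w] :
    DZ (fun v => Beta (s v) (t v) (r v) (w v)) :=
  DZ.subst4 DZ.beta_base

variable [IsStrictOrderedRing Z] [BArith Z]

omit [BArith Z] in
lemma Beta.le {c d i y : Z} (hd : 0 ≤ d) (hi : 0 ≤ i) (h : Beta c d i y) : y ≤ c := by
  obtain ⟨hy, _, q, hq, _, hc⟩ := h
  have : 0 ≤ q * (1 + (i + 1) * d) := by positivity
  linarith

lemma Beta.unique {c d i y y' : Z} (hd : 0 ≤ d) (hi : 0 ≤ i) (h : Beta c d i y)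
    (h' : Beta c d i y') : y = y' := by
  obtain ⟨hy, hy1, q, hq, _, hc⟩ := h
  obtain ⟨hy', hy1', q', hq', _, hc'⟩ := h'
  have hm : 0 < 1 + (i + 1) * d := by positivity
  have hqq : q = q' := by
    rcases lt_trichotomy q q' with h | h | h
    · have := lt_iff_add_one_le'.mp h
      nlinarith
    · exact h
    · have := lt_iff_add_one_le'.mp h
      nlinarith
  rw [hqq] at hc
  linarith

omit [LinearOrder Z] [IsStrictOrderedRing Z] [BArith Z] in
lemma isCoprime_moduli {i j : ℕ} {d e : Z} (he : d = ((j : Z) - (i : Z)) * e) :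
    IsCoprime (1 + ((i : Z) + 1) * d) (1 + ((j : Z) + 1) * d) := by
  refine ⟨1 - (i + 1) * (j + 1) * e, (i + 1) ^ 2 * e, ?_⟩
  rw [he]
  ring

/-- Every standard finite sequence of elements of `[0, A]` has a code. -/
theorem exists_beta_code (N : ℕ) (a : ℕ → Z) {A : Z} (hA1 : 1 ≤ A) (ha0 : ∀ i, 0 ≤ a i)
    (ha : ∀ i, i ≤ N → a i ≤ A) :
    ∃ c d : Z, 0 ≤ c ∧ 0 ≤ d ∧ d ≤ (N.factorial : Z) * A ∧
      c ≤ (1 + ((N : Z) + 1) * ((N.factorial : Z) * A)) ^ (N + 1) ∧
      ∀ i : ℕ, i ≤ N → Beta c d i (a i) := by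
  set d : Z := (N.factorial : Z) * A with hd
  have hfac : (1 : Z) ≤ (N.factorial : Z) := by exact_mod_cast N.factorial_pos
  have hd1 : A ≤ d := by
    rw [hd]; nlinarith
  have hd0 : 0 ≤ d := by linarith
  set m : Fin (N + 1) → Z := fun i => 1 + (((i : ℕ) : Z) + 1) * d with hm
  have hm1 : ∀ i, A < m i := by
    intro i
    have : (0 : Z) ≤ ((i : ℕ) : Z) := by positivity
    simp only [hm]
    nlinarith [mul_nonneg this hd0]
  have hmle : ∀ i, m i ≤ 1 + ((N : Z) + 1) * d := by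
    intro i
    have h1 : ((i : ℕ) : Z) ≤ (N : Z) := by
      exact_mod_cast Nat.lt_succ_iff.mp i.2
    simp only [hm]
    nlinarith [mul_le_mul_of_nonneg_right h1 hd0]
  have hcop : Pairwise (Function.onFun IsCoprime (fun i => Ideal.span {m i})) := by
    intro i j hij
    simp only [Function.onFun]
    rw [Ideal.isCoprime_span_singleton_iff]
    wlog hlt : (i : ℕ) < (j : ℕ) generalizing i j
    · have hlt' : (j : ℕ) < (i : ℕ) := by
        have : (i : ℕ) ≠ (j : ℕ) := fun h => hij (Fin.ext h)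
        omega
      exact (this hij.symm hlt').symm
    obtain ⟨k, hk⟩ : (j - i : ℕ) ∣ N.factorial := Nat.dvd_factorial (by omega) (by omega)
    apply isCoprime_moduli (e := (k : Z) * A)
    rw [hd, hk]
    push_cast [Nat.cast_sub hlt.le]
    ring
  obtain ⟨c₀, hc₀⟩ := Ideal.exists_forall_sub_mem_ideal hcop (fun i : Fin (N + 1) => a i)
  have hc₀' : ∀ i : Fin (N + 1), m i ∣ c₀ - a i := fun i => Ideal.mem_span_singleton.mp (hc₀ i)
  set Q : Z := ∏ i, m i with hQ
  have hmpos : ∀ i, 0 < m i := fun i => lt_of_lt_of_le (by linarith) (hm1 i).le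
  have hQpos : 0 < Q := Finset.prod_pos (fun i _ => hmpos i)
  obtain ⟨q, c, hc0, hcQ, hcq⟩ := exists_divMod c₀ hQpos
  refine ⟨c, d, hc0, hd0, le_rfl, ?_, ?_⟩
  · refine hcQ.le.trans ?_
    calc Q ≤ ∏ _i : Fin (N + 1), (1 + ((N : Z) + 1) * d) :=
          Finset.prod_le_prod (fun i _ => (hmpos i).le) (fun i _ => hmle i)
      _ = _ := by simp
  · intro i hi
    have hdvd : m ⟨i, by omega⟩ ∣ c - a i := by
      have h1 := hc₀' ⟨i, by omega⟩
      have h2 : m ⟨i, by omega⟩ ∣ q * Q := Dvd.dvd.mul_left (Finset.dvd_prod_of_mem m (Finset.mem_univ _)) q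
      have h3 : c - a i = (c₀ - a i) - q * Q := by rw [hcq]; ring
      rw [h3]
      exact dvd_sub h1 h2
    have hm2 : A < 1 + ((i : Z) + 1) * d := hm1 ⟨i, by omega⟩
    refine ⟨ha0 i, lt_of_le_of_lt (ha i hi) hm2, ?_⟩
    obtain ⟨k, hk⟩ := hdvd
    have hk' : c - a i = (1 + ((i : Z) + 1) * d) * k := hk
    have hpos : 0 < 1 + ((i : Z) + 1) * d := by linarith
    have hk0 : 0 ≤ k := by
      by_contra hcon
      push Not at hcon
      have h5 : k ≤ -1 := by
        have := lt_iff_add_one_le'.mp hcon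
        linarith
      have := ha i hi
      nlinarith
    refine ⟨k, hk0, ?_, by rw [mul_comm]; linarith⟩
    have h1 : 1 ≤ 1 + ((i : Z) + 1) * d := by linarith
    have := ha0 i
    nlinarith

end coding

end Pool.Agent.Lib_helper35.EIP
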