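import Mathlib

/-!
# Intermediate values of polynomials over certain ordered fields
-/

set_option autoImplicit false

namespace Pool.Agent.Lib_helper35.EIP

universe u

open Polynomial

section ivt

variable {R : Type u} [Field R] [LinearOrder R] [IsStrictOrderedRing R]

/-- The intermediate value property for polynomials. -/
def PolyIVT (R : Type u) [Field R] [LinearOrder R] : Prop :=
  ∀ f : R[X], ∀ a b : R, a < b → f.eval a * f.eval b < 0 → ∃ c, a < c ∧ c < b ∧ f.eval c = 0

theorem polyIVT_of
    (hG : ∀ f : R[X], Irreducible f → 2 ≤ f.natDegree → ∃ P : R[X],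
      P.natDegree ≤ (f.natDegree - 1) + (f.natDegree - 1) ∧ (∀ x, 0 ≤ P.eval x) ∧ f ∣ 1 + P) :
    PolyIVT R := by
  have key : ∀ n : ℕ, ∀ f : R[X], f.natDegree ≤ n → ∀ a b : R, a < b → f.eval a * f.eval b < 0 →
      ∃ c, a < c ∧ c < b ∧ f.eval c = 0 := by
    intro n
    induction n using Nat.strong_induction_on with
    | _ n ih =>
      intro f hfn a b hab hsign
      have hf0 : f ≠ 0 := by
        rintro rfl
        simp at hsign
      rcases Nat.lt_or_ge f.natDegree 2 with h2 | h2
      · rcases Nat.lt_or_ge f.natDegree 1 with h1 | h1
        · have : f.natDegree = 0 := by omega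
          obtain ⟨c, rfl⟩ := natDegree_eq_zero.mp this
          rw [eval_C, eval_C] at hsign
          exact absurd hsign (not_lt.mpr (mul_self_nonneg c))
        · have h3 : f.natDegree = 1 := by omega
          obtain ⟨p, hp, q, hpq⟩ := natDegree_eq_one.mp h3
          rw [← hpq] at hsign ⊢
          simp only [eval_add, eval_mul, eval_C, eval_X] at hsign ⊢
          have hq : q = -(p * (-q / p)) := by field_simp
          set c := -q / p with hc
          have h4 : (p * p) * ((a - c) * (b - c)) < 0 := by
            have : (p * p) * ((a - c) * (b - c)) = (p * a + q) * (p * b + q) := by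
              rw [hq]; ring
            rw [this]; exact hsign
          have h5 : 0 < p * p := mul_self_pos.mpr hp
          have h6 : (a - c) * (b - c) < 0 := by
            by_contra hcon
            push Not at hcon
            exact absurd h4 (not_lt.mpr (mul_nonneg h5.le hcon))
          refine ⟨c, ?_, ?_, by rw [hq]; ring⟩
          · by_contra hcon
            push Not at hcon
            have : 0 ≤ (a - c) * (b - c) := mul_nonneg (by linarith) (by linarith)
            linarith
          · by_contra hcon
            push Not at hcon
            have : 0 ≤ (a - c) * (b - c) := mul_nonneg_of_nonpos_of_nonpos (by linarith) (by linarith)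
            linarith
      · by_cases hirr : Irreducible f
        · obtain ⟨P, hPdeg, hPnn, g, hg⟩ := hG f hirr h2
          have hpos : ∀ x, 0 < (1 + P).eval x := by
            intro x
            rw [eval_add, eval_one]
            have := hPnn x
            linarith
          have h1P : (1 + P) ≠ 0 := by
            intro h
            have := hpos 0
            rw [h, eval_zero] at this
            exact lt_irrefl _ this
          have hg0 : g ≠ 0 := by
            rintro rfl
            rw [mul_zero] at hg
            exact h1P hg
          have hdeg : g.natDegree ≤ f.natDegree - 2 := by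
            have e1 : (1 + P).natDegree ≤ (f.natDegree - 1) + (f.natDegree - 1) := by
              refine (natDegree_add_le _ _).trans (max_le ?_ hPdeg)
              simp
            rw [hg, natDegree_mul hf0 hg0] at e1
            omega
          have hev : ∀ x, 0 < f.eval x * g.eval x := by
            intro x
            have := hpos x
            rwa [hg, eval_mul] at this
          have hgs : g.eval a * g.eval b < 0 := by
            have e1 := mul_pos (hev a) (hev b)
            have e2 : f.eval a * g.eval a * (f.eval b * g.eval b)
                = (f.eval a * f.eval b) * (g.eval a * g.eval b) := by ring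
            rw [e2] at e1
            by_contra hcon
            push Not at hcon
            exact absurd e1 (not_lt.mpr (mul_nonpos_of_nonpos_of_nonneg hsign.le hcon))
          obtain ⟨c, _, _, hc⟩ := ih (f.natDegree - 2) (by omega) g hdeg a b hab hgs
          have := hev c
          rw [hc, mul_zero] at this
          exact absurd this (lt_irrefl _)
        · have hunit : ¬ IsUnit f := by
            intro h
            have := natDegree_eq_zero_of_isUnit h
            omega
          rw [irreducible_iff] at hirr
          push Not at hirr
          obtain ⟨g, h, hfgh, hg, hh⟩ := hirr hunit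
          have hg0 : g ≠ 0 := by rintro rfl; rw [zero_mul] at hfgh; exact hf0 hfgh
          have hh0 : h ≠ 0 := by rintro rfl; rw [mul_zero] at hfgh; exact hf0 hfgh
          have hdeg : f.natDegree = g.natDegree + h.natDegree := by
            rw [hfgh, natDegree_mul hg0 hh0]
          have hgd : 0 < g.natDegree := by
            rw [Nat.pos_iff_ne_zero]
            intro h0
            obtain ⟨c, hc⟩ := natDegree_eq_zero.mp h0
            apply hg
            rw [← hc, isUnit_C, isUnit_iff_ne_zero]
            rintro rfl
            rw [C_0] at hc
            exact hg0 hc.symm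
          have hhd : 0 < h.natDegree := by
            rw [Nat.pos_iff_ne_zero]
            intro h0
            obtain ⟨c, hc⟩ := natDegree_eq_zero.mp h0
            apply hh
            rw [← hc, isUnit_C, isUnit_iff_ne_zero]
            rintro rfl
            rw [C_0] at hc
            exact hh0 hc.symm
          have e : f.eval a * f.eval b = (g.eval a * g.eval b) * (h.eval a * h.eval b) := by
            rw [hfgh, eval_mul, eval_mul]; ring
          rw [e] at hsign
          by_cases h1 : g.eval a * g.eval b < 0
          · obtain ⟨c, h3, h4, h5⟩ := ih g.natDegree (by omega) g le_rfl a b hab h1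
            exact ⟨c, h3, h4, by rw [hfgh, eval_mul, h5, zero_mul]⟩
          · have h2 : h.eval a * h.eval b < 0 := by
              by_contra hcon
              push Not at h1 hcon
              exact absurd hsign (not_lt.mpr (mul_nonneg h1 hcon))
            obtain ⟨c, h3, h4, h5⟩ := ih h.natDegree (by omega) h le_rfl a b hab h2
            exact ⟨c, h3, h4, by rw [hfgh, eval_mul, h5, mul_zero]⟩
  intro f a b hab hsign
  exact key f.natDegree f le_rfl a b hab hsign

/-- A monic polynomial is positive at large values. -/
lemma monic_eval_pos {f : R[X]} (hf : f.Monic) {x : R}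
    (hx : 1 + ∑ i ∈ Finset.range f.natDegree, |f.coeff i| ≤ x) : 0 < f.eval x := by
  set S := ∑ i ∈ Finset.range f.natDegree, |f.coeff i| with hS
  have hS0 : 0 ≤ S := Finset.sum_nonneg (fun i _ => abs_nonneg _)
  have hx1 : 1 ≤ x := by linarith
  rw [eval_eq_sum_range, Finset.sum_range_succ, hf.coeff_natDegree, one_mul]
  rcases Nat.eq_zero_or_pos f.natDegree with h0 | hpos
  · rw [h0]; simp
  · have h1 : ∀ i ∈ Finset.range f.natDegree,
        -(|f.coeff i| * x ^ (f.natDegree - 1)) ≤ f.coeff i * x ^ i := by
      intro i hi
      have hi' := Finset.mem_range.mp hi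
      have e1 : x ^ i ≤ x ^ (f.natDegree - 1) := pow_le_pow_right₀ hx1 (by omega)
      have e2 : |f.coeff i * x ^ i| ≤ |f.coeff i| * x ^ (f.natDegree - 1) := by
        rw [abs_mul, abs_of_nonneg (by positivity : (0 : R) ≤ x ^ i)]
        exact mul_le_mul_of_nonneg_left e1 (abs_nonneg _)
      exact (neg_le_neg e2).trans (neg_abs_le _)
    have h2 := Finset.sum_le_sum h1
    rw [Finset.sum_neg_distrib, ← Finset.sum_mul, ← hS] at h2
    have h3 : x ^ f.natDegree = x ^ (f.natDegree - 1) * x := by
      rw [← pow_succ]; congr 1; omega
    have h4 : 0 < x ^ (f.natDegree - 1) := by positivity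
    rw [h3]
    nlinarith

lemma monic_neg_comp {f : R[X]} (hf : f.Monic) {x : R}
    (hx : 1 + ∑ i ∈ Finset.range f.natDegree, |f.coeff i| ≤ x) :
    0 < (-1) ^ f.natDegree * f.eval (-x) := by
  set g : R[X] := C ((-1) ^ f.natDegree) * f.comp (-X) with hg
  have hdeg : g.natDegree = f.natDegree := by
    rw [hg, natDegree_C_mul (by simp)]
    simp [natDegree_comp]
  have hmon : g.Monic := by
    rw [Monic, hg, leadingCoeff_mul, leadingCoeff_C, comp_neg_X_leadingCoeff_eq, hf.leadingCoeff,
      mul_one, ← mul_pow]
    simp
  have hcoeff : ∀ i, |g.coeff i| = |f.coeff i| := by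
    intro i
    have e : (-X : R[X]) = C (-1) * X := by simp
    rw [hg, coeff_C_mul, abs_mul, abs_pow, abs_neg, abs_one, one_pow, one_mul, e,
      comp_C_mul_X_coeff, abs_mul, abs_pow, abs_neg, abs_one, one_pow, mul_one]
  have := monic_eval_pos hmon (x := x) (by simpa only [hdeg, hcoeff] using hx)
  rw [hg] at this
  simpa using this

/-- Roots are bounded. -/
lemma root_bound {f : R[X]} (hf : f.Monic) {x : R} (hx : f.eval x = 0) :
    |x| < 1 + ∑ i ∈ Finset.range f.natDegree, |f.coeff i| := by
  by_contra hcon
  push Not at hcon
  rcases le_total 0 x with h | h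
  · rw [abs_of_nonneg h] at hcon
    have := monic_eval_pos hf hcon
    rw [hx] at this
    exact lt_irrefl _ this
  · rw [abs_of_nonpos h] at hcon
    have := monic_neg_comp hf hcon
    rw [neg_neg, hx, mul_zero] at this
    exact lt_irrefl _ this

theorem isRealClosed_of_polyIVT (h : PolyIVT R) : IsRealClosed R := by
  apply IsRealClosed.of_linearOrderedField
  · intro x hx
    rcases eq_or_lt_of_le hx with h0 | h0
    · rw [← h0]; exact ⟨0, by simp⟩
    · obtain ⟨c, _, _, hc⟩ := h (X ^ 2 - C x) 0 (x + 1) (by linarith) (by
        simp only [eval_sub, eval_pow, eval_X, eval_C]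
        apply mul_neg_of_neg_of_pos
        · linarith
        · nlinarith)
      refine ⟨c, ?_⟩
      simp only [eval_sub, eval_pow, eval_X, eval_C] at hc
      linarith [sq c]
  · intro f hf
    have hf0 : f ≠ 0 := by
      rintro rfl
      simp at hf
    set g := f * C (f.leadingCoeff⁻¹) with hg
    have hmon : g.Monic := monic_mul_leadingCoeff_inv hf0
    have hdeg : g.natDegree = f.natDegree := natDegree_mul_leadingCoeff_inv f hf0
    set B := 1 + ∑ i ∈ Finset.range g.natDegree, |g.coeff i| with hB
    have hB1 : 1 ≤ B := by
      have : 0 ≤ ∑ i ∈ Finset.range g.natDegree, |g.coeff i| :=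
        Finset.sum_nonneg (fun i _ => abs_nonneg _)
      linarith
    have h1 := monic_eval_pos hmon (x := B) le_rfl
    have h2 := monic_neg_comp hmon (x := B) le_rfl
    rw [hdeg, hf.neg_one_pow] at h2
    obtain ⟨c, _, _, hc⟩ := h g (-B) B (by linarith) (by nlinarith)
    refine ⟨c, ?_⟩
    rw [hg, eval_mul, eval_C] at hc
    rcases mul_eq_zero.mp hc with h3 | h3
    · exact h3
    · exact absurd h3 (inv_ne_zero (leadingCoeff_ne_zero.mpr hf0))

end ivt

end Pool.Agent.Lib_helper35.EIP
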