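import Mathlib
import Pool.Agent.Lib_helper35.EIP.Arith
import Pool.Agent.Lib_helper35.EIP.IVT

/-!
# Shepherdson's theorem: integer parts of real closed fields
-/

set_option autoImplicit false

namespace Pool.Agent.Lib_helper35.EIP

universe u

open Polynomial

section rolle

variable {R : Type u} [Field R] [LinearOrder R] [IsStrictOrderedRing R]

lemma PolyIVT.same_sign (h : PolyIVT R) {f : R[X]} {a b : R} (hab : a ≤ b)
    (hf : ∀ c, a ≤ c → c ≤ b → f.eval c ≠ 0) : 0 < f.eval a * f.eval b := by
  rcases eq_or_lt_of_le hab with rfl | hlt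
  · exact mul_self_pos.mpr (hf a le_rfl le_rfl)
  · by_contra hcon
    push Not at hcon
    rcases eq_or_lt_of_le hcon with h0 | h0
    · rcases mul_eq_zero.mp h0 with h1 | h1
      · exact hf a le_rfl hab h1
      · exact hf b hab le_rfl h1
    · obtain ⟨c, h1, h2, h3⟩ := h f a b hlt h0
      exact hf c h1.le h2.le h3

/-- Rolle's theorem between consecutive roots. -/
lemma rolle_aux (h : PolyIVT R) {p : R[X]} (hp : p ≠ 0) {a b : R} (hab : a < b)
    (ha : p.eval a = 0) (hb : p.eval b = 0) (hno : ∀ c, a < c → c < b → p.eval c ≠ 0) :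
    ∃ c, a < c ∧ c < b ∧ (derivative p).eval c = 0 := by
  obtain ⟨q, hq, hqdvd⟩ := exists_eq_pow_rootMultiplicity_mul_and_not_dvd p hp a
  set m := p.rootMultiplicity a with hm
  have hm0 : 0 < m := (rootMultiplicity_pos hp).mpr ha
  have hqa : q.eval a ≠ 0 := fun h0 => hqdvd (dvd_iff_isRoot.mpr h0)
  have hq0 : q ≠ 0 := by
    rintro rfl
    simp at hqa
  have hqb : q.eval b = 0 := by
    rw [hq, eval_mul, eval_pow, eval_sub, eval_X, eval_C] at hb
    rcases mul_eq_zero.mp hb with h1 | h1
    · have := pow_eq_zero_iff (hm0.ne') |>.mp h1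
      linarith
    · exact h1
  obtain ⟨Q, hQ, hQdvd⟩ := exists_eq_pow_rootMultiplicity_mul_and_not_dvd q hq0 b
  set n := q.rootMultiplicity b with hn
  have hn0 : 0 < n := (rootMultiplicity_pos hq0).mpr hqb
  have hQb : Q.eval b ≠ 0 := fun h0 => hQdvd (dvd_iff_isRoot.mpr h0)
  have hQa : Q.eval a ≠ 0 := by
    intro h0
    rw [hQ, eval_mul, h0, mul_zero] at hqa
    exact hqa rfl
  have hpQ : p = (X - C a) ^ m * ((X - C b) ^ n * Q) := by
    rw [← hQ]; exact hq
  have hQno : ∀ c, a ≤ c → c ≤ b → Q.eval c ≠ 0 := by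
    intro c hac hcb h0
    rcases eq_or_lt_of_le hac with h1 | h1
    · rw [← h1] at h0; exact hQa h0
    · rcases eq_or_lt_of_le hcb with h2 | h2
      · rw [h2] at h0; exact hQb h0
      · apply hno c h1 h2
        rw [hpQ, eval_mul, eval_mul, h0, mul_zero, mul_zero]
  have hsign := h.same_sign hab.le hQno
  set G : R[X] := C (m : R) * (X - C b) * Q + C (n : R) * (X - C a) * Q +
    (X - C a) * (X - C b) * derivative Q with hG
  have hder : derivative p = (X - C a) ^ (m - 1) * ((X - C b) ^ (n - 1) * G) := by
    rw [hpQ, hG]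
    clear_value m n
    obtain ⟨m', rfl⟩ : ∃ m', m = m' + 1 := ⟨m - 1, by omega⟩
    obtain ⟨n', rfl⟩ : ∃ n', n = n' + 1 := ⟨n - 1, by omega⟩
    simp only [derivative_mul, derivative_pow, derivative_sub, derivative_X, derivative_C,
      sub_zero, mul_one, Nat.add_sub_cancel]
    rw [pow_succ, pow_succ]
    push_cast
    ring
  obtain ⟨c, h1, h2, h3⟩ := h G a b hab (by
    rw [hG]
    simp only [eval_add, eval_mul, eval_C, eval_sub, eval_X, sub_self, zero_mul, mul_zero, add_zero,
      zero_add]
    have hm' : (0 : R) < m := by exact_mod_cast hm0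
    have hn' : (0 : R) < n := by exact_mod_cast hn0
    have e : (m : R) * (a - b) * Q.eval a * (n * (b - a) * Q.eval b) =
      -((m * n) * (b - a) ^ 2 * (Q.eval a * Q.eval b)) := by ring
    rw [e]
    have : 0 < (b - a) ^ 2 := by
      have : 0 < b - a := by linarith
      positivity
    have := mul_pos (mul_pos (mul_pos hm' hn') this) hsign
    linarith)
  exact ⟨c, h1, h2, by rw [hder, eval_mul, eval_mul, h3, mul_zero, mul_zero]⟩

/-- Rolle's theorem. -/
theorem rolle (h : PolyIVT R) {p : R[X]} (hp : p ≠ 0) {a b : R} (hab : a < b)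
    (ha : p.eval a = 0) (hb : p.eval b = 0) :
    ∃ c, a < c ∧ c < b ∧ (derivative p).eval c = 0 := by
  classical
  set S := p.roots.toFinset.filter (fun c => a < c ∧ c ≤ b) with hS
  have hne : S.Nonempty := ⟨b, by
    rw [hS, Finset.mem_filter, Multiset.mem_toFinset, mem_roots hp]
    exact ⟨hb, hab, le_rfl⟩⟩
  have hmem := S.min'_mem hne
  set b' := S.min' hne with hb'
  rw [hS, Finset.mem_filter, Multiset.mem_toFinset, mem_roots hp] at hmem
  obtain ⟨h1, h2, h3⟩ := hmem
  obtain ⟨c, h4, h5, h6⟩ := rolle_aux h hp h2 ha h1 (by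
    intro c hc1 hc2 hc3
    have : c ∈ S := by
      rw [hS, Finset.mem_filter, Multiset.mem_toFinset, mem_roots hp]
      exact ⟨hc3, hc1, hc2.le.trans h3⟩
    exact absurd (S.min'_le c this) (not_le.mpr hc2))
  exact ⟨c, h4, h5.trans_le h3, h6⟩

end rolle

section shepherdson

variable {Z : Type u} [CommRing Z] [LinearOrder Z]

instance PF.polyEval {s : (ℕ → Z) → Z} [hs : PF s] (P : Z[X]) : PF (fun v => P.eval (s v)) := by
  induction P using Polynomial.induction_on with
  | C a => simpa only [eval_C] using PF.const a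
  | add p q hp hq =>
    simp only [eval_add]
    exact inferInstance
  | monomial n a _ =>
    simp only [eval_mul, eval_C, eval_pow, eval_X]
    exact inferInstance

variable [IsStrictOrderedRing Z] [BArith Z]
variable {R : Type u} [Field R] [LinearOrder R] [IsStrictOrderedRing R]

omit [BArith Z] in
lemma exists_bound_of_root [BArith Z] (i : Z →+* R) (hi : StrictMono i) {P : Z[X]} (hP : P ≠ 0)
    {r : R} (hr : (P.map i).eval r = 0) : ∃ z : Z, |r| < i z := by
  have hinj := hi.injective
  set p := P.map i with hp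
  have hp0 : p ≠ 0 := (Polynomial.map_ne_zero_iff hinj).mpr hP
  set g := p * C (p.leadingCoeff⁻¹) with hg
  have hmon : g.Monic := monic_mul_leadingCoeff_inv hp0
  have hgr : g.eval r = 0 := by rw [hg, eval_mul, hr, zero_mul]
  have hb := root_bound hmon hgr
  refine ⟨1 + ∑ j ∈ Finset.range g.natDegree, |P.coeff j|, hb.trans_le ?_⟩
  rw [map_add, map_one, map_sum]
  gcongr with j _
  rw [hg, coeff_mul_C, hp, coeff_map, leadingCoeff_map_of_injective hinj, abs_mul]
  have h1 : (1 : R) ≤ |i P.leadingCoeff| := by
    have h2 : P.leadingCoeff ≠ 0 := leadingCoeff_ne_zero.mpr hP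
    have h3 : (1 : Z) ≤ |P.leadingCoeff| := BArith.discrete _ (abs_pos.mpr h2)
    have h4 := hi.monotone h3
    rw [map_one] at h4
    rcases abs_choice P.leadingCoeff with h5 | h5
    · rw [h5] at h4; exact h4.trans (le_abs_self _)
    · rw [h5, map_neg] at h4; exact h4.trans (neg_le_abs _)
  have h2 : |(i P.leadingCoeff)⁻¹| ≤ 1 := by
    rw [abs_inv]
    exact inv_le_one_of_one_le₀ h1
  have h3 : |i (P.coeff j)| = i |P.coeff j| := by
    rcases le_total 0 (P.coeff j) with h | h
    · rw [abs_of_nonneg h, abs_of_nonneg]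
      rw [← map_zero i]; exact hi.monotone h
    · rw [abs_of_nonpos h, abs_of_nonpos, map_neg]
      rw [← map_zero i]; exact hi.monotone h
  rw [h3]
  have h4 : 0 ≤ i |P.coeff j| := by rw [← h3]; exact abs_nonneg _
  nlinarith

theorem exists_floor_of_root (hivt : PolyIVT R) (i : Z →+* R) (hi : StrictMono i) :
    ∀ n : ℕ, ∀ P : Z[X], P ≠ 0 → P.natDegree ≤ n → ∀ r : R, (P.map i).eval r = 0 →
      ∃ z : Z, i z ≤ r ∧ r < i (z + 1) := by
  classical
  have hinj := hi.injective
  intro n
  induction n with
  | zero =>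
    intro P hP hdeg r hr
    obtain ⟨c, rfl⟩ := natDegree_eq_zero.mp (Nat.le_zero.mp hdeg)
    rw [map_C, eval_C, map_eq_zero_iff i hinj] at hr
    rw [hr, C_0] at hP
    exact absurd rfl hP
  | succ n ih =>
    intro P hP hdeg r hr
    by_contra hcon
    push Not at hcon
    have hnf : ∀ z, i z ≤ r → i (z + 1) ≤ r := hcon
    rcases Nat.eq_zero_or_pos P.natDegree with h0 | hpos
    · obtain ⟨c, rfl⟩ := natDegree_eq_zero.mp h0
      rw [map_C, eval_C, map_eq_zero_iff i hinj] at hr
      rw [hr, C_0] at hP
      exact absurd rfl hP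
    have hchar : CharZero Z := inferInstance
    set D := derivative P with hD
    have hDdeg : D.natDegree ≤ n := (natDegree_derivative_le P).trans (by omega)
    have hD0 : D ≠ 0 := by
      intro h
      have := derivative_eq_zero.mp h
      omega
    set p := P.map i with hp
    have hp0 : p ≠ 0 := (Polynomial.map_ne_zero_iff hinj).mpr hP
    set d := D.map i with hd
    have hd0 : d ≠ 0 := (Polynomial.map_ne_zero_iff hinj).mpr hD0
    have hdp : d = derivative p := by rw [hd, hD, hp, derivative_map]
    have hdr : d.eval r ≠ 0 := by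
      intro h
      obtain ⟨z, h1, h2⟩ := ih D hD0 hDdeg r h
      exact absurd (hnf z h1) (not_le.mpr h2)
    -- lower separation
    have hlow : ∀ S : Finset R, (∀ s ∈ S, ∃ z, s < i z ∧ i z ≤ r) →
        ∃ z₀, i z₀ ≤ r ∧ ∀ s ∈ S, s < i z₀ := by
      intro S
      induction S using Finset.induction_on with
      | empty =>
        intro _
        obtain ⟨z, hz⟩ := exists_bound_of_root i hi hP hr
        refine ⟨-z, ?_, by simp⟩
        rw [map_neg]
        have := neg_abs_le r
        linarith
      | insert s S _ ihS =>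
        intro hS
        obtain ⟨z₀, h1, h2⟩ := ihS (fun t ht => hS t (Finset.mem_insert_of_mem ht))
        obtain ⟨z₁, h3, h4⟩ := hS s (Finset.mem_insert_self _ _)
        refine ⟨max z₀ z₁, ?_, ?_⟩
        · rcases max_choice z₀ z₁ with h | h <;> rw [h] <;> assumption
        · intro t ht
          rcases Finset.mem_insert.mp ht with rfl | ht
          · exact h3.trans_le (hi.monotone (le_max_right _ _))
          · exact (h2 t ht).trans_le (hi.monotone (le_max_left _ _))
    have hup : ∀ S : Finset R, (∀ s ∈ S, ∃ z, i z < s ∧ r < i z) →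
        ∃ z₀, r < i z₀ ∧ ∀ s ∈ S, i z₀ < s := by
      intro S
      induction S using Finset.induction_on with
      | empty =>
        intro _
        obtain ⟨z, hz⟩ := exists_bound_of_root i hi hP hr
        exact ⟨z, (le_abs_self r).trans_lt hz, by simp⟩
      | insert s S _ ihS =>
        intro hS
        obtain ⟨z₀, h1, h2⟩ := ihS (fun t ht => hS t (Finset.mem_insert_of_mem ht))
        obtain ⟨z₁, h3, h4⟩ := hS s (Finset.mem_insert_self _ _)
        refine ⟨min z₀ z₁, ?_, ?_⟩
        · rcases min_choice z₀ z₁ with h | h <;> rw [h] <;> assumption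
        · intro t ht
          rcases Finset.mem_insert.mp ht with rfl | ht
          · exact (hi.monotone (min_le_right _ _)).trans_lt h3
          · exact (hi.monotone (min_le_left _ _)).trans_lt (h2 t ht)
    obtain ⟨z₀, hz₀, hz₀'⟩ := hlow (d.roots.toFinset.filter (fun s => s < r)) (by
      intro s hs
      rw [Finset.mem_filter, Multiset.mem_toFinset, mem_roots hd0] at hs
      obtain ⟨z, h1, h2⟩ := ih D hD0 hDdeg s hs.1
      exact ⟨z + 1, h2, hnf z (h1.trans hs.2.le)⟩)
    obtain ⟨z₁, hz₁, hz₁'⟩ := hup (d.roots.toFinset.filter (fun s => r < s)) (by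
      intro s hs
      rw [Finset.mem_filter, Multiset.mem_toFinset, mem_roots hd0] at hs
      obtain ⟨z, h1, h2⟩ := ih D hD0 hDdeg s hs.1
      refine ⟨z - 1, ?_, ?_⟩
      · rw [map_sub, map_one]; linarith
      · by_contra hcon
        push Not at hcon
        have h3 := hnf _ hcon
        rw [sub_add_cancel] at h3
        have h4 := hnf _ h3
        linarith [hs.2])
    have hdno : ∀ c, i z₀ ≤ c → c ≤ i z₁ → d.eval c ≠ 0 := by
      intro c h1 h2 h3
      rcases lt_trichotomy c r with h4 | h4 | h4
      · have := hz₀' c (by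
          rw [Finset.mem_filter, Multiset.mem_toFinset, mem_roots hd0]
          exact ⟨h3, h4⟩)
        linarith
      · rw [h4] at h3; exact hdr h3
      · have := hz₁' c (by
          rw [Finset.mem_filter, Multiset.mem_toFinset, mem_roots hd0]
          exact ⟨h3, h4⟩)
        linarith
    have hpno : ∀ c, i z₀ ≤ c → c ≤ i z₁ → p.eval c = 0 → c = r := by
      intro c h1 h2 h3
      rcases lt_trichotomy c r with h4 | h4 | h4
      · exfalso
        obtain ⟨t, h5, h6, h7⟩ := rolle hivt hp0 h4 h3 hr
        rw [← hdp] at h7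
        exact hdno t (h1.trans h5.le) (h6.le.trans hz₁.le) h7
      · exact h4
      · exfalso
        obtain ⟨t, h5, h6, h7⟩ := rolle hivt hp0 h4 hr h3
        rw [← hdp] at h7
        exact hdno t (hz₀.trans h5.le) (h6.le.trans h2) h7
    obtain ⟨q, hq⟩ : (X - C r) ∣ p := dvd_iff_isRoot.mpr hr
    have hqr : q.eval r ≠ 0 := by
      intro h
      apply hdr
      rw [hdp, hq, derivative_mul, eval_add, eval_mul, eval_mul, h, mul_zero, zero_add]
      simp
    have hqno : ∀ c, i z₀ ≤ c → c ≤ i z₁ → q.eval c ≠ 0 := by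
      intro c h1 h2 h3
      have h4 := hpno c h1 h2 (by rw [hq, eval_mul, h3, mul_zero])
      rw [h4] at h3
      exact hqr h3
    obtain ⟨ε, hε, hεsq⟩ : ∃ ε : Z, (0 < i ε * q.eval r) ∧ (ε = 1 ∨ ε = -1) := by
      rcases lt_or_gt_of_ne hqr with h | h
      · exact ⟨-1, by rw [map_neg, map_one]; linarith, Or.inr rfl⟩
      · exact ⟨1, by rw [map_one]; linarith, Or.inl rfl⟩
    have hsign : ∀ c, i z₀ ≤ c → c ≤ i z₁ → 0 < i ε * q.eval c := by
      intro c h1 h2
      have h3 : 0 < q.eval c * q.eval r := by
        rcases le_total c r with h4 | h4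
        · exact hivt.same_sign h4 (fun t h5 h6 => hqno t (h1.trans h5) (h6.trans hz₁.le))
        · have := hivt.same_sign h4 (fun t h5 h6 => hqno t (hz₀.trans h5) (h6.trans h2))
          linarith
      by_contra hcon
      push Not at hcon
      rcases lt_or_gt_of_ne (hqno c h1 h2) with h5 | h5
      · have h6 : q.eval r < 0 := by
          by_contra h7
          push Not at h7
          nlinarith
        have h8 : i ε < 0 := by
          by_contra h9
          push Not at h9
          nlinarith
        nlinarith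
      · have h6 : 0 < q.eval r := by
          by_contra h7
          push Not at h7
          nlinarith
        have h8 : 0 < i ε := by
          by_contra h9
          push Not at h9
          nlinarith
        nlinarith
    have hz01 : z₀ ≤ z₁ := by
      by_contra hcon
      push Not at hcon
      have := hi hcon
      linarith
    have hval : ∀ z : Z, z₀ ≤ z → z ≤ z₁ → (ε * P.eval z ≤ 0 ↔ i z ≤ r) := by
      intro z h1 h2
      have h3 : i (ε * P.eval z) = (i z - r) * (i ε * q.eval (i z)) := by
        rw [map_mul]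
        have : i (P.eval z) = p.eval (i z) := by rw [hp, eval_map, eval₂_at_apply]
        rw [this, hq, eval_mul, eval_sub, eval_X, eval_C]
        ring
      have h4 := hsign (i z) (hi.monotone h1) (hi.monotone h2)
      constructor
      · intro h5
        have h6 := hi.monotone h5
        rw [map_zero, h3] at h6
        by_contra hcon
        push Not at hcon
        have : 0 < (i z - r) * (i ε * q.eval (i z)) := mul_pos (by linarith) h4
        linarith
      · intro h5
        by_contra hcon
        push Not at hcon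
        have h6 := hi hcon
        rw [map_zero, h3] at h6
        have : (i z - r) * (i ε * q.eval (i z)) ≤ 0 :=
          mul_nonpos_of_nonpos_of_nonneg (by linarith) h4.le
        linarith
    obtain ⟨x, hx0, hx1, h1, h2⟩ := exists_step (P := fun x => ε * P.eval (z₀ + x) ≤ 0)
      inferInstance (by
        rw [add_zero, hval z₀ le_rfl hz01]
        exact hz₀) (y := z₁ - z₀) (by linarith) (by
        rw [show z₀ + (z₁ - z₀) = z₁ by ring, hval z₁ hz01 le_rfl]
        exact not_le.mpr hz₁)
    rw [hval _ (by linarith) (by linarith)] at h1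
    have hx2 := lt_iff_add_one_le'.mp hx1
    rw [hval _ (by linarith) (by linarith)] at h2
    have h3 := hnf _ h1
    rw [add_assoc] at h3
    exact h2 h3

end shepherdson

end Pool.Agent.Lib_helper35.EIP
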