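import Mathlib

/-!
# Existence of real closures of ordered fields, with the intermediate value property
-/

set_option autoImplicit false

namespace Pool.Agent.Lib_helper35.EIP

universe u

open Polynomial

section cone

variable {F : Type u} [Field F] [LinearOrder F] [IsStrictOrderedRing F]
variable {K : Type u} [Field K] [Algebra F K]

/-- The multiplicative set of elements `c x ^ 2`. -/
def sqMon (L : IntermediateField F K) : Submonoid K where
  carrier := {y | ∃ c : F, 0 ≤ c ∧ ∃ x ∈ L, y = algebraMap F K c * x ^ 2}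
  one_mem' := ⟨1, zero_le_one, 1, L.one_mem, by simp⟩
  mul_mem' := by
    rintro _ _ ⟨c, hc, x, hx, rfl⟩ ⟨d, hd, y, hy, rfl⟩
    refine ⟨c * d, mul_nonneg hc hd, x * y, L.mul_mem hx hy, ?_⟩
    rw [map_mul]; ring

/-- The cone generated by the squares of `L` and the nonnegative elements of `F`. -/
def cone (L : IntermediateField F K) : Subsemiring K := (sqMon L).subsemiringClosure

lemma mem_cone {L : IntermediateField F K} {x : K} :
    x ∈ cone L ↔ x ∈ AddSubmonoid.closure (sqMon L : Set K) := Submonoid.subsemiringClosure_mem _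

lemma cone_le {L : IntermediateField F K} {x : K} (hx : x ∈ cone L) : x ∈ L := by
  rw [mem_cone] at hx
  induction hx using AddSubmonoid.closure_induction with
  | mem x hx =>
    obtain ⟨c, _, y, hy, rfl⟩ := hx
    exact L.mul_mem (L.algebraMap_mem c) (pow_mem hy 2)
  | zero => exact L.zero_mem
  | add x y _ _ h1 h2 => exact L.add_mem h1 h2

lemma gen_mem_cone {L : IntermediateField F K} {c : F} (hc : 0 ≤ c) {x : K} (hx : x ∈ L) :
    algebraMap F K c * x ^ 2 ∈ cone L := by
  rw [mem_cone]
  exact AddSubmonoid.subset_closure ⟨c, hc, x, hx, rfl⟩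

lemma sq_mem_cone {L : IntermediateField F K} {x : K} (hx : x ∈ L) : x ^ 2 ∈ cone L := by
  have := gen_mem_cone (F := F) (L := L) zero_le_one hx
  simpa using this

lemma cone_mono {L L' : IntermediateField F K} (h : L ≤ L') : cone L ≤ cone L' := by
  intro x hx
  rw [mem_cone] at hx ⊢
  refine AddSubmonoid.closure_mono ?_ hx
  rintro _ ⟨c, hc, y, hy, rfl⟩
  exact ⟨c, hc, y, h hy, rfl⟩

/-- Formally real over the ordered field `F`. -/
def FR (L : IntermediateField F K) : Prop := (-1 : K) ∉ cone L

lemma cone_bot {x : K} (hx : x ∈ cone (⊥ : IntermediateField F K)) :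
    ∃ c : F, 0 ≤ c ∧ x = algebraMap F K c := by
  rw [mem_cone] at hx
  induction hx using AddSubmonoid.closure_induction with
  | mem x hx =>
    obtain ⟨c, hc, y, hy, rfl⟩ := hx
    obtain ⟨d, rfl⟩ := IntermediateField.mem_bot.mp hy
    exact ⟨c * d ^ 2, mul_nonneg hc (sq_nonneg d), by rw [map_mul, map_pow]⟩
  | zero => exact ⟨0, le_rfl, by simp⟩
  | add x y _ _ h1 h2 =>
    obtain ⟨c, hc, rfl⟩ := h1
    obtain ⟨d, hd, rfl⟩ := h2
    exact ⟨c + d, add_nonneg hc hd, by rw [map_add]⟩

lemma FR_bot : FR (⊥ : IntermediateField F K) := by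
  intro h
  obtain ⟨c, hc, h⟩ := cone_bot h
  have : algebraMap F K (c + 1) = 0 := by rw [map_add, ← h]; simp
  rw [map_eq_zero] at this
  linarith

variable (F K) in
lemma exists_maximal_FR : ∃ L : IntermediateField F K, Maximal FR L := by
  suffices h : ∀ c ⊆ {L : IntermediateField F K | FR L}, IsChain (· ≤ ·) c → ∀ y ∈ c,
      ∃ ub ∈ {L : IntermediateField F K | FR L}, ∀ z ∈ c, z ≤ ub by
    obtain ⟨L, _, hL⟩ := zorn_le_nonempty₀ {L : IntermediateField F K | FR L} h ⊥ FR_bot
    exact ⟨L, hL⟩
  · intro c hc hchain y hy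
    have : Nonempty c := ⟨⟨y, hy⟩⟩
    have hdir : Directed (· ≤ ·) (fun L : c => (L : IntermediateField F K)) := by
      intro a b
      rcases hchain.total a.2 b.2 with h | h
      · exact ⟨b, h, le_rfl⟩
      · exact ⟨a, le_rfl, h⟩
    refine ⟨⨆ L : c, (L : IntermediateField F K), ?_, fun z hz => le_iSup (fun L : c => (L : IntermediateField F K)) ⟨z, hz⟩⟩
    intro hmem
    have key : ∀ x ∈ cone (⨆ L : c, (L : IntermediateField F K)), ∃ L : c, x ∈ cone (L : IntermediateField F K) := by
      intro x hx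
      rw [mem_cone] at hx
      induction hx using AddSubmonoid.closure_induction with
      | mem x hx =>
        obtain ⟨d, hd, z, hz, rfl⟩ := hx
        rw [← SetLike.mem_coe, IntermediateField.coe_iSup_of_directed hdir, Set.mem_iUnion] at hz
        obtain ⟨L, hL⟩ := hz
        exact ⟨L, gen_mem_cone hd hL⟩
      | zero => exact ⟨⟨y, hy⟩, (cone _).zero_mem⟩
      | add x z _ _ h1 h2 =>
        obtain ⟨L1, h1⟩ := h1
        obtain ⟨L2, h2⟩ := h2
        obtain ⟨L3, h13, h23⟩ := hdir L1 L2
        exact ⟨L3, (cone _).add_mem (cone_mono h13 h1) (cone_mono h23 h2)⟩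
    obtain ⟨L, hL⟩ := key _ hmem
    exact hc L.2 hL

/-- The cone of polynomials `∑ cᵢ gᵢ ^ 2` with `deg gᵢ < n`. -/
noncomputable def polyCone (L : IntermediateField F K) (n : ℕ) : AddSubmonoid (L[X]) :=
  AddSubmonoid.closure {Q | ∃ c : F, 0 ≤ c ∧ ∃ g : L[X], g.natDegree < n ∧
    Q = C (algebraMap F L c) * g ^ 2}

lemma polyCone_eval {L : IntermediateField F K} {n : ℕ} {P : L[X]} (hP : P ∈ polyCone L n) (x : L) :
    ((P.eval x : L) : K) ∈ cone L := by
  unfold polyCone at hP
  induction hP using AddSubmonoid.closure_induction with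
  | mem P hP =>
    obtain ⟨c, hc, g, _, rfl⟩ := hP
    rw [eval_mul, eval_C, eval_pow]
    exact gen_mem_cone hc (g.eval x).2
  | zero => simp [(cone L).zero_mem]
  | add P Q _ _ h1 h2 =>
    rw [eval_add]
    exact (cone L).add_mem h1 h2

omit [IsStrictOrderedRing F] in
lemma polyCone_natDegree {L : IntermediateField F K} {n : ℕ} {P : L[X]} (hP : P ∈ polyCone L n) :
    P.natDegree ≤ (n - 1) + (n - 1) := by
  unfold polyCone at hP
  induction hP using AddSubmonoid.closure_induction with
  | mem P hP =>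
    obtain ⟨c, hc, g, hg, rfl⟩ := hP
    refine (natDegree_C_mul_le _ _).trans ?_
    rw [sq]
    exact natDegree_mul_le.trans (by omega)
  | zero => simp
  | add P Q _ _ h1 h2 => exact (natDegree_add_le _ _).trans (max_le h1 h2)

lemma polyCone_coeff {L : IntermediateField F K} {n : ℕ} {P : L[X]} (hP : P ∈ polyCone L n) :
    ((P.coeff ((n - 1) + (n - 1)) : L) : K) ∈ cone L := by
  unfold polyCone at hP
  induction hP using AddSubmonoid.closure_induction with
  | mem P hP =>
    obtain ⟨c, hc, g, hg, rfl⟩ := hP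
    rw [coeff_C_mul, sq, coeff_mul_add_eq_of_natDegree_le (by omega) (by omega), ← sq]
    exact gen_mem_cone hc (g.coeff (n - 1)).2
  | zero => simp [(cone L).zero_mem]
  | add P Q _ _ h1 h2 =>
    rw [coeff_add]
    exact (cone L).add_mem h1 h2

lemma exists_polyCone_dvd [IsAlgClosed K] [Algebra.IsAlgebraic F K] {L : IntermediateField F K}
    (hL : Maximal FR L) {f : L[X]} (hf : Irreducible f) (hdeg : 2 ≤ f.natDegree) :
    ∃ P ∈ polyCone L f.natDegree, f ∣ 1 + P := by
  obtain ⟨α, hα⟩ := IsAlgClosed.exists_aeval_eq_zero K f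
    (by
      intro h
      have := natDegree_eq_zero_iff_degree_le_zero.mpr h.le
      omega)
  have hαL : α ∉ L := by
    intro h
    have h1 : f.IsRoot (⟨α, h⟩ : L) := by
      rw [IsRoot, ← (algebraMap L K).injective.eq_iff, map_zero]
      rw [← aeval_algebraMap_apply_eq_algebraMap_eval]
      exact hα
    have h2 := degree_eq_one_of_irreducible_of_root hf h1
    have h3 : f.natDegree = 1 := natDegree_eq_of_degree_eq_some h2
    omega
  set L1 : IntermediateField F K := (IntermediateField.adjoin L {α}).restrictScalars F with hL1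
  have hle : L ≤ L1 := by
    intro x hx
    have : algebraMap L K ⟨x, hx⟩ ∈ IntermediateField.adjoin L {α} :=
      (IntermediateField.adjoin L {α}).algebraMap_mem _
    exact this
  have hαL1 : α ∈ L1 := IntermediateField.mem_adjoin_simple_self L α
  have hnot : ¬ FR L1 := by
    intro h
    have := hL.le_of_ge h hle
    exact hαL (this hαL1)
  have hmem : (-1 : K) ∈ cone L1 := by
    by_contra hcon
    exact hnot hcon
  have hrep : ∀ x ∈ L1, ∃ g : L[X], g.natDegree < f.natDegree ∧ aeval α g = x := by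
    intro x hx
    have halg : IsAlgebraic L α := ⟨f, hf.ne_zero, hα⟩
    have hx' : x ∈ (IntermediateField.adjoin L {α}).toSubalgebra := hx
    rw [IntermediateField.adjoin_simple_toSubalgebra_of_isAlgebraic halg,
      Algebra.adjoin_singleton_eq_range_aeval] at hx'
    obtain ⟨g, hg⟩ := hx'
    refine ⟨g % f, natDegree_mod_lt g (by omega), ?_⟩
    have hg' : aeval α g = x := hg
    rw [← hg']
    conv_rhs => rw [← EuclideanDomain.div_add_mod g f]
    rw [map_add, map_mul, hα, zero_mul, zero_add]
  have key : ∀ y ∈ cone L1, ∃ P ∈ polyCone L f.natDegree, aeval α P = y := by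
    intro y hy
    rw [mem_cone] at hy
    induction hy using AddSubmonoid.closure_induction with
    | mem x hx =>
      obtain ⟨c, hc, z, hz, rfl⟩ := hx
      obtain ⟨g, hg, hgz⟩ := hrep z hz
      refine ⟨C (algebraMap F L c) * g ^ 2, AddSubmonoid.subset_closure ⟨c, hc, g, hg, rfl⟩, ?_⟩
      rw [map_mul, map_pow, hgz, aeval_C]
      rfl
    | zero => exact ⟨0, AddSubmonoid.zero_mem _, by simp⟩
    | add x z _ _ h1 h2 =>
      obtain ⟨P, hP, rfl⟩ := h1
      obtain ⟨Q, hQ, rfl⟩ := h2
      exact ⟨P + Q, AddSubmonoid.add_mem _ hP hQ, by rw [map_add]⟩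
  obtain ⟨P, hP, hPα⟩ := key _ hmem
  refine ⟨P, hP, ?_⟩
  by_contra hcon
  have hcop : IsCoprime f (1 + P) := (hf.coprime_iff_not_dvd).mpr hcon
  obtain ⟨a, b, hab⟩ := hcop
  have := congrArg (aeval α) hab
  rw [map_add, map_mul, map_mul, hα, map_add, hPα, map_one] at this
  simp at this

end cone

end Pool.Agent.Lib_helper35.EIP
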