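import Mathlib
import Pool.Agent.Lib_helper35.EIP.RealClosure
import Pool.Agent.Lib_helper35.EIP.IVT

/-!
# Existence of real closures
-/

set_option autoImplicit false

namespace Pool.Agent.Lib_helper35.EIP

universe u

open Polynomial

section order

variable {F : Type u} [Field F] [LinearOrder F] [IsStrictOrderedRing F]
variable {K : Type u} [Field K] [Algebra F K]

lemma cone_antisymm {L : IntermediateField F K} (hL : FR L) {r : K} (h1 : r ∈ cone L)
    (h2 : -r ∈ cone L) : r = 0 := by
  by_contra hr
  apply hL
  have h3 : (r⁻¹) ^ 2 ∈ cone L := sq_mem_cone (L.inv_mem (cone_le h1))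
  have h4 := (cone L).mul_mem ((cone L).mul_mem h1 h2) h3
  have : r * -r * r⁻¹ ^ 2 = -1 := by field_simp
  rwa [this] at h4

lemma cone_total [IsAlgClosed K] [Algebra.IsAlgebraic F K] {L : IntermediateField F K}
    (hL : Maximal FR L) (a : L) : (a : K) ∈ cone L ∨ -(a : K) ∈ cone L := by
  by_cases hsq : ∃ b : L, b ^ 2 = a
  · obtain ⟨b, rfl⟩ := hsq
    left
    exact sq_mem_cone b.2
  · right
    push Not at hsq
    set f : L[X] := X ^ 2 - C a with hf
    have hdeg : f.natDegree = 2 := natDegree_X_pow_sub_C
    have hirr : Irreducible f := by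
      apply irreducible_of_degree_le_three_of_not_isRoot
      · rw [hdeg]; simp
      · intro x hx
        apply hsq x
        rw [IsRoot, hf, eval_sub, eval_pow, eval_X, eval_C] at hx
        exact sub_eq_zero.mp hx
    obtain ⟨P, hP, h, hh⟩ := exists_polyCone_dvd hL hirr (by omega)
    have hPdeg := polyCone_natDegree hP
    rw [hdeg] at hPdeg
    norm_num at hPdeg
    have hPc := polyCone_coeff hP
    rw [hdeg] at hPc
    norm_num at hPc
    have h1P : 1 + P ≠ 0 := by
      intro h0
      have h1 := polyCone_eval hP 0
      have h2 : P.eval 0 = -1 := by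
        have := congrArg (Polynomial.eval (0 : L)) h0
        rw [eval_add, eval_one, eval_zero] at this
        linear_combination this
      rw [h2] at h1
      exact hL.prop (by simpa using h1)
    have hh0 : h ≠ 0 := by
      rintro rfl
      rw [mul_zero] at hh
      exact h1P hh
    have hhdeg : h.natDegree = 0 := by
      have e1 : (1 + P).natDegree ≤ 2 := by
        refine (natDegree_add_le _ _).trans (max_le ?_ hPdeg)
        simp
      rw [hh, natDegree_mul hirr.ne_zero hh0, hdeg] at e1
      omega
    obtain ⟨t, rfl⟩ := natDegree_eq_zero.mp hhdeg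
    have ht : P.coeff 2 = t := by
      have := congrArg (fun Q : L[X] => Q.coeff 2) hh
      simp only [coeff_add, coeff_mul_C, hf, coeff_sub, coeff_X_pow, coeff_one, coeff_C] at this
      simpa using this
    have h0 : 1 + P.eval 0 = -a * t := by
      have := congrArg (Polynomial.eval (0 : L)) hh
      simpa [hf] using this
    have ht0 : t ≠ 0 := by
      rintro rfl
      simp at hh0
    have ht0' : (t : K) ≠ 0 := by
      intro h
      exact ht0 (by exact_mod_cast h)
    rw [ht] at hPc
    have hP0 := polyCone_eval hP 0
    have h1 : (1 : K) + ((P.eval 0 : L) : K) ∈ cone L := (cone L).add_mem (cone L).one_mem hP0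
    have h2 : (1 : K) + ((P.eval 0 : L) : K) = -(a : K) * t := by exact_mod_cast h0
    have h3 : ((t : K)⁻¹) ^ 2 ∈ cone L := sq_mem_cone (L.inv_mem t.2)
    have h4 := (cone L).mul_mem ((cone L).mul_mem h1 hPc) h3
    rw [h2] at h4
    have : -(a : K) * t * t * (t : K)⁻¹ ^ 2 = -a := by field_simp
    rwa [this] at h4

/-- The linear order of a maximal formally real field. -/
@[reducible]
noncomputable def orderOfMaximal [IsAlgClosed K] [Algebra.IsAlgebraic F K]
    {L : IntermediateField F K} (hL : Maximal FR L) : LinearOrder L where
  le a b := ((b - a : L) : K) ∈ cone L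
  le_refl a := by simp [(cone L).zero_mem]
  le_trans a b c h1 h2 := by
    have := (cone L).add_mem h1 h2
    have e : ((b - a : L) : K) + ((c - b : L) : K) = ((c - a : L) : K) := by push_cast; ring
    rwa [e] at this
  le_antisymm a b h1 h2 := by
    have e : ((a - b : L) : K) = -((b - a : L) : K) := by push_cast; ring
    rw [e] at h2
    have := cone_antisymm hL.prop h1 h2
    have h3 : b - a = 0 := by exact_mod_cast this
    exact (sub_eq_zero.mp h3).symm
  le_total a b := by
    rcases cone_total hL (b - a) with h | h
    · left; exact h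
    · right
      have e : ((a - b : L) : K) = -((b - a : L) : K) := by push_cast; ring
      rw [e]; exact h
  toDecidableLE := Classical.decRel _

variable (F) in
theorem exists_realClosure :
    ∃ (R : Type u) (_ : Field R) (_ : LinearOrder R) (_ : IsStrictOrderedRing R) (_ : Algebra F R),
      Algebra.IsAlgebraic F R ∧ StrictMono (algebraMap F R) ∧ PolyIVT R ∧ IsRealClosed R := by
  let K := AlgebraicClosure F
  obtain ⟨L, hL⟩ := exists_maximal_FR F K
  let _ := orderOfMaximal hL
  have hle : ∀ a b : L, a ≤ b ↔ ((b - a : L) : K) ∈ cone L := fun a b => Iff.rfl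
  have h1 : IsOrderedAddMonoid L := by
    have : ∀ a b : L, a ≤ b → ∀ c, a + c ≤ b + c := by
      intro a b h c
      rw [hle] at h ⊢
      rwa [add_sub_add_right_eq_sub]
    exact ⟨fun a b h c => this a b h c, fun a b h c => by
      rw [add_comm c a, add_comm c b]; exact this a b h c⟩
  have h2 : ZeroLEOneClass L := ⟨by
    rw [hle]
    simp [(cone L).one_mem]⟩
  have h3 : IsStrictOrderedRing L := by
    apply IsStrictOrderedRing.of_mul_pos
    intro a b ha hb
    apply lt_of_le_of_ne
    · have ha' := ha.le
      have hb' := hb.le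
      rw [hle, sub_zero] at ha' hb' ⊢
      exact (cone L).mul_mem ha' hb'
    · exact (mul_ne_zero ha.ne' hb.ne').symm
  have hivt : PolyIVT L := by
    apply polyIVT_of
    intro f hf hdeg
    obtain ⟨P, hP, hdvd⟩ := exists_polyCone_dvd hL hf hdeg
    refine ⟨P, polyCone_natDegree hP, fun x => ?_, hdvd⟩
    rw [hle, sub_zero]
    exact polyCone_eval hP x
  refine ⟨L, inferInstance, inferInstance, h3, inferInstance, ?_, ?_, hivt,
    isRealClosed_of_polyIVT hivt⟩
  · infer_instance
  · have hmono : Monotone (algebraMap F L) := by
      intro a b hab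
      rw [hle, ← map_sub]
      have := gen_mem_cone (L := L) (sub_nonneg.mpr hab) L.one_mem
      rw [one_pow, mul_one] at this
      exact this
    exact hmono.strictMono_of_injective (algebraMap F L).injective

end order

end Pool.Agent.Lib_helper35.EIP
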