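import Mathlib
import Pool.Agent.Lib_helper35.EIP.IntPart
import Pool.Agent.Lib_helper35.EIP.RealClosure2

/-!
# Every discretely ordered ring with bounded induction is an integer part of a real closed field
-/

set_option autoImplicit false

namespace Pool.Agent.Lib_helper35.EIP

universe u

open Polynomial

section frac

variable (Z : Type u) [CommRing Z] [LinearOrder Z] [IsStrictOrderedRing Z]

/-- Nonnegative fractions. -/
def fracCone (x : FractionRing Z) : Prop :=
  ∃ a b : Z, 0 ≤ a ∧ 0 < b ∧ x = algebraMap Z (FractionRing Z) a / algebraMap Z (FractionRing Z) b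

variable {Z}

omit [IsStrictOrderedRing Z] in
lemma algMap_ne {b : Z} (hb : 0 < b) : algebraMap Z (FractionRing Z) b ≠ 0 := by
  intro h
  have := (IsFractionRing.injective Z (FractionRing Z)) (h.trans (map_zero _).symm)
  exact hb.ne' this

lemma fracCone_add {x y : FractionRing Z} (hx : fracCone Z x) (hy : fracCone Z y) :
    fracCone Z (x + y) := by
  obtain ⟨a, b, ha, hb, rfl⟩ := hx
  obtain ⟨c, d, hc, hd, rfl⟩ := hy
  refine ⟨a * d + c * b, b * d, by positivity, by positivity, ?_⟩
  have h1 := algMap_ne hb
  have h2 := algMap_ne hd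
  rw [map_add, map_mul, map_mul, map_mul]
  field_simp

lemma fracCone_mul {x y : FractionRing Z} (hx : fracCone Z x) (hy : fracCone Z y) :
    fracCone Z (x * y) := by
  obtain ⟨a, b, ha, hb, rfl⟩ := hx
  obtain ⟨c, d, hc, hd, rfl⟩ := hy
  refine ⟨a * c, b * d, by positivity, by positivity, ?_⟩
  have h1 := algMap_ne hb
  have h2 := algMap_ne hd
  rw [map_mul, map_mul]
  field_simp

lemma fracCone_total (x : FractionRing Z) : fracCone Z x ∨ fracCone Z (-x) := by
  obtain ⟨a, b, hb, rfl⟩ := IsFractionRing.div_surjective (A := Z) x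
  have hb0 : b ≠ 0 := nonZeroDivisors.ne_zero hb
  rcases le_total 0 a with ha | ha <;> rcases lt_or_gt_of_ne hb0 with hb' | hb'
  · right
    refine ⟨a, -b, ha, by linarith, ?_⟩
    rw [map_neg]
    ring
  · left
    exact ⟨a, b, ha, hb', rfl⟩
  · left
    refine ⟨-a, -b, by linarith, by linarith, ?_⟩
    rw [map_neg, map_neg]
    ring
  · right
    refine ⟨-a, b, by linarith, hb', ?_⟩
    rw [map_neg]
    ring

lemma fracCone_antisymm {x : FractionRing Z} (hx : fracCone Z x) (hy : fracCone Z (-x)) : x = 0 := by
  obtain ⟨a, b, ha, hb, rfl⟩ := hx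
  obtain ⟨c, d, hc, hd, h⟩ := hy
  have h1 := algMap_ne hb
  have h2 := algMap_ne hd
  have h3 : algebraMap Z (FractionRing Z) (a * d + c * b) = 0 := by
    rw [map_add, map_mul, map_mul]
    field_simp at h
    linear_combination -h
  have h4 : a * d + c * b = 0 :=
    (IsFractionRing.injective Z (FractionRing Z)) (h3.trans (map_zero _).symm)
  have h5 : 0 ≤ a * d := by positivity
  have h6 : 0 ≤ c * b := by positivity
  have h7 : a * d = 0 := by linarith
  rcases mul_eq_zero.mp h7 with h8 | h8
  · rw [h8, map_zero, zero_div]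
  · exact absurd h8 hd.ne'

/-- The linear order of the fraction field. -/
@[reducible]
noncomputable def fracOrder : LinearOrder (FractionRing Z) where
  le a b := fracCone Z (b - a)
  le_refl a := ⟨0, 1, le_rfl, one_pos, by simp⟩
  le_trans a b c h1 h2 := by
    have := fracCone_add h1 h2
    rwa [show b - a + (c - b) = c - a by ring] at this
  le_antisymm a b h1 h2 := by
    rw [show a - b = -(b - a) by ring] at h2
    exact (sub_eq_zero.mp (fracCone_antisymm h1 h2)).symm
  le_total a b := by
    rcases fracCone_total (b - a) with h | h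
    · left; exact h
    · right; rwa [show -(b - a) = a - b by ring] at h
  toDecidableLE := Classical.decRel _

end frac

section embed

variable (Z : Type u) [CommRing Z] [LinearOrder Z] [IsStrictOrderedRing Z] [BArith Z]

theorem exists_rcf [Countable Z] :
    ∃ (R : Type u) (_ : Field R) (_ : LinearOrder R) (_ : IsStrictOrderedRing R) (i : Z →+* R),
      StrictMono i ∧ IsRealClosed R ∧ Countable R ∧ ∀ r : R, ∃ z : Z, i z ≤ r ∧ r < i (z + 1) := by
  let F := FractionRing Z
  let _ : LinearOrder F := fracOrder
  have hle : ∀ a b : F, a ≤ b ↔ fracCone Z (b - a) := fun a b => Iff.rfl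
  have h1 : IsOrderedAddMonoid F := by
    have : ∀ a b : F, a ≤ b → ∀ c, a + c ≤ b + c := by
      intro a b h c
      rw [hle] at h ⊢
      rwa [add_sub_add_right_eq_sub]
    exact ⟨fun a b h c => this a b h c, fun a b h c => by
      rw [add_comm c a, add_comm c b]; exact this a b h c⟩
  have h2 : ZeroLEOneClass F := ⟨by
    rw [hle]
    exact ⟨1, 1, zero_le_one, one_pos, by simp⟩⟩
  have h3 : IsStrictOrderedRing F := by
    apply IsStrictOrderedRing.of_mul_pos
    intro a b ha hb
    apply lt_of_le_of_ne
    · have ha' := ha.le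
      have hb' := hb.le
      rw [hle, sub_zero] at ha' hb' ⊢
      exact fracCone_mul ha' hb'
    · exact (mul_ne_zero ha.ne' hb.ne').symm
  have hcountF : Countable F := by
    have hsurj : Function.Surjective (fun p : Z × Z =>
        algebraMap Z F p.1 / algebraMap Z F p.2) := by
      intro x
      obtain ⟨a, b, _, rfl⟩ := IsFractionRing.div_surjective (A := Z) x
      exact ⟨(a, b), rfl⟩
    exact hsurj.countable
  obtain ⟨R, _, _, _, _, halg, hmono, hivt, hrc⟩ := exists_realClosure F
  have hcountR : Countable R := by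
    rw [← Cardinal.mk_le_aleph0_iff]
    refine (Algebra.IsAlgebraic.cardinalMk_le_max F R).trans ?_
    exact max_le (Cardinal.mk_le_aleph0_iff.mpr hcountF) le_rfl
  have hmonoZ : StrictMono (algebraMap Z F) := by
    have hmono' : Monotone (algebraMap Z F) := by
      intro a b hab
      rw [hle, ← map_sub]
      exact ⟨b - a, 1, by linarith, one_pos, by rw [map_one, div_one]⟩
    exact hmono'.strictMono_of_injective (IsFractionRing.injective Z F)
  set i : Z →+* R := (algebraMap F R).comp (algebraMap Z F) with hi
  have hiMono : StrictMono i := hmono.comp hmonoZ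
  refine ⟨R, inferInstance, inferInstance, inferInstance, i, hiMono, hrc, hcountR, fun r => ?_⟩
  -- `r` is algebraic over `Z`
  have hr : IsAlgebraic F r := halg.isAlgebraic r
  obtain ⟨P, hP0, hP⟩ : ∃ P : Z[X], P ≠ 0 ∧ (P.map i).eval r = 0 := by
    obtain ⟨q, hq0, hq⟩ := hr
    refine ⟨IsLocalization.integerNormalization (nonZeroDivisors Z) q, ?_, ?_⟩
    · intro h
      exact hq0 ((IsFractionRing.integerNormalization_eq_zero_iff).mp h)
    · rw [eval_map]
      exact IsLocalization.integerNormalization_eval₂_eq_zero (nonZeroDivisors Z)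
        (algebraMap F R) q hq
  exact exists_floor_of_root hivt i hiMono P.natDegree P hP0 le_rfl r hP

end embed

end Pool.Agent.Lib_helper35.EIP
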