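import Mathlib
import Pool.Agent.Lib_helper35.EIP.Ratio

/-!
# More on ratios
-/

set_option autoImplicit false

namespace Pool.Agent.Lib_helper35.EIP

universe u

open ArchimedeanClass

section ratio

variable {H : Type u} [AddCommGroup H] [LinearOrder H] [IsOrderedAddMonoid H]

/-- Approximate version of the inequalities defining a ratio. -/
lemma IsRatio.of_approx {a b : H} {r : ℝ} (hb : 0 < b)
    (h : ∀ (p : ℤ) (q : ℕ), 0 < q →
      ((p : ℝ) < q * r → ∃ e, mk b < mk e ∧ p • b ≤ q • a + e) ∧
      ((q : ℝ) * r < p → ∃ e, mk b < mk e ∧ q • a ≤ p • b + e)) : IsRatio a b r := by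
  intro p q hq
  constructor
  · intro hlt
    obtain ⟨n, hn⟩ := exists_nat_gt (1 / ((q : ℝ) * r - p))
    have hpos : 0 < (q : ℝ) * r - p := by linarith
    rw [div_lt_iff₀ hpos] at hn
    have hn0 : 0 < n := by
      rcases Nat.eq_zero_or_pos n with h0 | h0
      · rw [h0] at hn; norm_num at hn
      · exact h0
    obtain ⟨e, he, hle⟩ := (h (n * p + 1) (n * q) (Nat.mul_pos hn0 hq)).1 (by
      push_cast
      nlinarith)
    have he' : e ≤ b := by
      have := mk_lt_mk.mp he 1
      rw [one_nsmul, abs_of_pos hb] at this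
      exact (le_abs_self e).trans this.le
    have h1 : n • (p • b) ≤ n • (q • a) := by
      have e1 : (n * p + 1 : ℤ) • b = n • (p • b) + b := by
        rw [add_zsmul, one_zsmul, mul_zsmul, natCast_zsmul]
      have e2 : (n * q) • a = n • (q • a) := by rw [mul_nsmul']
      rw [e1, e2] at hle
      have : n • (p • b) + b ≤ n • (q • a) + b := hle.trans (by gcongr)
      exact le_of_add_le_add_right this
    exact (nsmul_le_nsmul_iff_right hn0.ne').mp h1
  · intro hlt
    obtain ⟨n, hn⟩ := exists_nat_gt (1 / (p - (q : ℝ) * r))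
    have hpos : 0 < p - (q : ℝ) * r := by linarith
    rw [div_lt_iff₀ hpos] at hn
    have hn0 : 0 < n := by
      rcases Nat.eq_zero_or_pos n with h0 | h0
      · rw [h0] at hn; norm_num at hn
      · exact h0
    obtain ⟨e, he, hle⟩ := (h (n * p - 1) (n * q) (Nat.mul_pos hn0 hq)).2 (by
      push_cast
      nlinarith)
    have he' : e ≤ b := by
      have := mk_lt_mk.mp he 1
      rw [one_nsmul, abs_of_pos hb] at this
      exact (le_abs_self e).trans this.le
    have h1 : n • (q • a) ≤ n • (p • b) := by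
      have e1 : (n * p - 1 : ℤ) • b = n • (p • b) - b := by
        rw [sub_zsmul, one_zsmul, mul_zsmul, natCast_zsmul, sub_eq_add_neg]
      have e2 : (n * q) • a = n • (q • a) := by rw [mul_nsmul']
      rw [e1, e2] at hle
      calc n • (q • a) ≤ n • (p • b) - b + e := hle
        _ ≤ n • (p • b) - b + b := by gcongr
        _ = n • (p • b) := by abel
    exact (nsmul_le_nsmul_iff_right hn0.ne').mp h1

lemma IsRatio.unique {a b : H} {r r' : ℝ} (hb : 0 < b) (h : IsRatio a b r) (h' : IsRatio a b r') :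
    r = r' := by
  have h1 := h.add hb h'.neg
  rw [add_neg_cancel] at h1
  rcases lt_trichotomy (r + -r') 0 with h2 | h2 | h2
  · exact absurd (h1.neg_of_neg hb h2) (lt_irrefl _)
  · linarith
  · exact absurd (h1.pos hb h2) (lt_irrefl _)

lemma IsRatio.self {b : H} (hb : 0 < b) : IsRatio b b 1 := by
  intro p q hq
  constructor
  · intro h
    rw [mul_one] at h
    have h' : p ≤ q := by exact_mod_cast h.le
    rw [← natCast_zsmul]
    exact zsmul_le_zsmul_left hb.le h'
  · intro h
    rw [mul_one] at h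
    have h' : (q : ℤ) ≤ p := by exact_mod_cast h.le
    rw [← natCast_zsmul]
    exact zsmul_le_zsmul_left hb.le h'

/-- Transitivity of ratios. -/
lemma IsRatio.div {a b u : H} {ρ σ : ℝ} (hu : 0 < u) (ha : IsRatio a u ρ) (hb : IsRatio b u σ)
    (hσ : 0 < σ) : IsRatio a b (ρ / σ) := by
  have key : ∀ {a : H} {ρ : ℝ}, IsRatio a u ρ → ∀ (p : ℤ) (q : ℕ), 0 < q →
      (p : ℝ) < q * (ρ / σ) → p • b ≤ q • a := by
    intro a ρ ha p q hq hlt
    have h1 := (ha.nsmul hu q).add hu (hb.zsmul hu p).neg
    have h2 : 0 < (q : ℝ) * ρ + -(p * σ) := by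
      rw [← mul_div_assoc, lt_div_iff₀ hσ] at hlt
      linarith
    have h3 := h1.pos hu h2
    have h4 : q • a + -(p • b) = q • a - p • b := (sub_eq_add_neg _ _).symm
    rw [h4, sub_pos] at h3
    exact h3.le
  intro p q hq
  refine ⟨key ha p q hq, fun hlt => ?_⟩
  have h1 := key ha.neg (-p) q hq (by
    push_cast
    rw [neg_div]
    linarith)
  rw [neg_zsmul, smul_neg] at h1
  exact neg_le_neg_iff.mp h1

lemma IsRatio.mul_unit {a b u : H} {ρ σ : ℝ} (hu : 0 < u) (hb0 : 0 < b) (ha : IsRatio a b ρ)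
    (hb : IsRatio b u σ) (hσ : 0 < σ) : IsRatio a u (ρ * σ) := by
  have hub : IsRatio u b (1 / σ) := (IsRatio.self hu).div hu hb hσ
  have := ha.div hb0 hub (by positivity)
  rwa [div_div_eq_mul_div, div_one] at this

end ratio

section field

variable {R : Type u} [Field R] [LinearOrder R] [IsStrictOrderedRing R]

/-- Ratios in an ordered field. -/
lemma isRatio_iff_div {a b : R} (hb : 0 < b) {r : ℝ} : IsRatio a b r ↔ IsRatio (a / b) 1 r := by
  unfold IsRatio
  refine forall_congr' fun p => forall_congr' fun q => forall_congr' fun _ => ?_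
  have e1 : p • b ≤ q • a ↔ p • (1 : R) ≤ q • (a / b) := by
    rw [zsmul_eq_mul, nsmul_eq_mul, zsmul_eq_mul, nsmul_eq_mul, mul_one, ← mul_div_assoc,
      le_div_iff₀ hb]
  have e2 : q • a ≤ p • b ↔ q • (a / b) ≤ p • (1 : R) := by
    rw [zsmul_eq_mul, nsmul_eq_mul, zsmul_eq_mul, nsmul_eq_mul, mul_one, ← mul_div_assoc,
      div_le_iff₀ hb]
  rw [e1, e2]

omit [IsStrictOrderedRing R] in
lemma isRatio_one_iff {x : R} {r : ℝ} : IsRatio x 1 r ↔
    ∀ (p : ℤ) (q : ℕ), 0 < q → ((p : ℝ) < q * r → (p : R) ≤ q * x) ∧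
      ((q : ℝ) * r < p → (q : R) * x ≤ p) := by
  unfold IsRatio
  simp only [zsmul_eq_mul, nsmul_eq_mul, mul_one]

/-- Strict form: rational comparisons with the standard part transfer. -/
lemma IsRatio.lt_of_lt {x : R} {r : ℝ} (h : IsRatio x 1 r) {t : ℚ} (ht : (t : ℝ) < r) :
    (t : R) < x := by
  obtain ⟨t', h1, h2⟩ := exists_rat_btwn ht
  have h3 := (isRatio_one_iff.mp h t'.num t'.den t'.den_pos).1 (by
    have : (t' : ℝ) = t'.num / t'.den := by exact_mod_cast (Rat.num_div_den t').symm
    have hd : (0 : ℝ) < t'.den := by exact_mod_cast t'.den_pos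
    rw [this, div_lt_iff₀ hd] at h2
    linarith)
  have h4 : (t' : R) ≤ x := by
    have : (t' : R) = t'.num / t'.den := by exact_mod_cast (Rat.num_div_den t').symm
    have hd : (0 : R) < t'.den := by exact_mod_cast t'.den_pos
    rw [this, div_le_iff₀ hd]
    linarith
  have h5 : (t : R) < (t' : R) := by exact_mod_cast h1
  exact h5.trans_le h4

lemma IsRatio.gt_of_gt {x : R} {r : ℝ} (h : IsRatio x 1 r) {t : ℚ} (ht : r < (t : ℝ)) :
    x < (t : R) := by
  have h1 := h.neg.lt_of_lt (t := -t) (by push_cast; linarith)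
  push_cast at h1
  linarith

lemma isRatio_of_rat {x : R} {r : ℝ} (h1 : ∀ t : ℚ, (t : ℝ) < r → (t : R) ≤ x)
    (h2 : ∀ t : ℚ, r < (t : ℝ) → x ≤ (t : R)) : IsRatio x 1 r := by
  rw [isRatio_one_iff]
  intro p q hq
  have hd : (0 : ℝ) < q := by exact_mod_cast hq
  have hd' : (0 : R) < q := by exact_mod_cast hq
  constructor
  · intro h
    have := h1 (p / q) (by push_cast; rw [div_lt_iff₀ hd]; linarith)
    push_cast at this
    rw [div_le_iff₀ hd'] at this
    linarith
  · intro h
    have := h2 (p / q) (by push_cast; rw [lt_div_iff₀ hd]; linarith)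
    push_cast at this
    rw [le_div_iff₀ hd'] at this
    linarith

lemma IsRatio.mul_one {x y : R} {r s : ℝ} (hx : IsRatio x 1 r) (hy : IsRatio y 1 s) :
    IsRatio (x * y) 1 (r * s) := by
  -- reduce to positive standard parts by shifting
  have key : ∀ {x y : R} {r s : ℝ}, IsRatio x 1 r → IsRatio y 1 s → 0 < r → 0 < s →
      IsRatio (x * y) 1 (r * s) := by
    intro x y r s hx hy hr hs
    have hx0 : 0 < x := hx.pos one_pos hr
    have hy0 : 0 < y := hy.pos one_pos hs
    apply isRatio_of_rat
    · intro t ht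
      rcases le_or_gt (t : ℝ) 0 with h0 | h0
      · have : (t : R) ≤ 0 := by exact_mod_cast h0
        exact this.trans (mul_pos hx0 hy0).le
      · -- find rationals a < r, b < s with a b ≥ t
        have h1 : (t : ℝ) / s < r := by rwa [div_lt_iff₀ hs]
        obtain ⟨a, ha1, ha2⟩ := exists_rat_btwn h1
        have ha0 : (0 : ℝ) < a := (div_pos h0 hs).trans ha1
        have h2 : (t : ℝ) / a < s := by
          rw [div_lt_iff₀ ha0]
          rw [div_lt_iff₀ hs] at ha1
          linarith
        obtain ⟨b, hb1, hb2⟩ := exists_rat_btwn h2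
        have hb0 : (0 : ℝ) < b := (div_pos h0 ha0).trans hb1
        rw [div_lt_iff₀ ha0] at hb1
        have hab : t < b * a := by exact_mod_cast hb1
        have hax := hx.lt_of_lt ha2
        have hby := hy.lt_of_lt hb2
        have ha0' : (0 : R) < a := by exact_mod_cast ha0
        have hb0' : (0 : R) < b := by exact_mod_cast hb0
        calc (t : R) ≤ ((b * a : ℚ) : R) := by exact_mod_cast hab.le
          _ = a * b := by push_cast; ring
          _ ≤ x * y := mul_le_mul hax.le hby.le hb0'.le hx0.le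
    · intro t ht
      have ht0 : (0 : ℝ) < t := (mul_pos hr hs).trans ht
      have h1 : r < (t : ℝ) / s := by rwa [lt_div_iff₀ hs]
      obtain ⟨a, ha1, ha2⟩ := exists_rat_btwn h1
      have ha0 : (0 : ℝ) < a := hr.trans ha1
      have h2 : s < (t : ℝ) / a := by
        rw [lt_div_iff₀ ha0]
        rw [lt_div_iff₀ hs] at ha2
        linarith
      obtain ⟨b, hb1, hb2⟩ := exists_rat_btwn h2
      have hb0 : (0 : ℝ) < b := hs.trans hb1
      rw [lt_div_iff₀ ha0] at hb2
      have hab : b * a < t := by exact_mod_cast hb2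
      have hax := hx.gt_of_gt ha1
      have hby := hy.gt_of_gt hb1
      have ha0' : (0 : R) < a := by exact_mod_cast ha0
      have hb0' : (0 : R) < b := by exact_mod_cast hb0
      calc x * y ≤ a * b := mul_le_mul hax.le hby.le hy0.le ha0'.le
        _ = ((b * a : ℚ) : R) := by push_cast; ring
        _ ≤ t := by exact_mod_cast hab.le
  obtain ⟨n, hn⟩ := exists_nat_gt (|r| + |s|)
  have hr : 0 < r + n := by
    have := neg_abs_le r
    have := abs_nonneg s
    linarith
  have hs : 0 < s + n := by
    have := neg_abs_le s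
    have := abs_nonneg r
    linarith
  have hn' : IsRatio (n : R) 1 (n : ℝ) := by
    have := (IsRatio.self (H := R) one_pos).nsmul one_pos n
    simpa using this
  have h1 := key (hx.add one_pos hn') (hy.add one_pos hn') hr hs
  have h2 := hx.nsmul one_pos n
  have h3 := hy.nsmul one_pos n
  have h4 := (hn'.nsmul one_pos n)
  have h5 := h1.add one_pos ((h2.add one_pos h3).add one_pos h4).neg
  convert h5 using 1
  · simp only [nsmul_eq_mul]; ring
  · ring

lemma IsRatio.inv_one {x : R} {r : ℝ} (hx : IsRatio x 1 r) (hr : 0 < r) :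
    IsRatio x⁻¹ 1 r⁻¹ := by
  have hx0 : 0 < x := hx.pos one_pos hr
  have h1 : IsRatio (1 : R) x (1 / r) := (IsRatio.self one_pos).div one_pos hx hr
  rw [isRatio_iff_div hx0] at h1
  simpa using h1

lemma IsRatio.pow_one {x : R} {r : ℝ} (hx : IsRatio x 1 r) (n : ℕ) : IsRatio (x ^ n) 1 (r ^ n) := by
  induction n with
  | zero => simpa using IsRatio.self (H := R) one_pos
  | succ n ih =>
    rw [pow_succ, pow_succ]
    exact ih.mul_one hx

lemma IsRatio.rat (t : ℚ) : IsRatio (t : R) 1 (t : ℝ) := by
  apply isRatio_of_rat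
  · intro s hs
    have : s < t := by exact_mod_cast hs
    exact_mod_cast this.le
  · intro s hs
    have : t < s := by exact_mod_cast hs
    exact_mod_cast this.le

end field

end Pool.Agent.Lib_helper35.EIP
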