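import Mathlib
import Pool.Agent.Lib_helper35.EIP.BackForth2
import Pool.Agent.Lib_helper35.EIP.Ratio2

/-!
# The multiplicative group of positive elements, written additively
-/

set_option autoImplicit false
set_option linter.unusedSectionVars false

namespace Pool.Agent.Lib_helper35.EIP

universe u

section pg

variable (R : Type u) [Field R] [LinearOrder R] [IsStrictOrderedRing R]

/-- The ordered group of positive elements, written additively. -/
abbrev PosG : Type u := Additive {x : R // 0 < x}

variable {R}

/-- The underlying element of the field. -/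
def pval (x : PosG R) : R := ((Additive.toMul x : {x : R // 0 < x}) : R)

/-- A positive element as a member of the group. -/
def toP (x : R) (hx : 0 < x) : PosG R := Additive.ofMul ⟨x, hx⟩

@[simp] lemma pval_toP (x : R) (hx : 0 < x) : pval (toP x hx) = x := rfl

lemma pval_pos (x : PosG R) : 0 < pval x := (Additive.toMul x : {x : R // 0 < x}).2

lemma pval_injective : Function.Injective (pval (R := R)) := by
  intro x y h
  exact Additive.toMul.injective (Subtype.ext h)

@[simp] lemma pval_zero : pval (0 : PosG R) = 1 := rfl

@[simp] lemma pval_add (x y : PosG R) : pval (x + y) = pval x * pval y := rfl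

@[simp] lemma pval_neg (x : PosG R) : pval (-x) = (pval x)⁻¹ := rfl

@[simp] lemma pval_sub (x y : PosG R) : pval (x - y) = pval x / pval y := by
  rw [sub_eq_add_neg, pval_add, pval_neg, div_eq_mul_inv]

@[simp] lemma pval_nsmul (n : ℕ) (x : PosG R) : pval (n • x) = pval x ^ n := by
  induction n with
  | zero => simp
  | succ n ih => rw [succ_nsmul, pval_add, ih, pow_succ]

@[simp] lemma pval_zsmul (n : ℤ) (x : PosG R) : pval (n • x) = pval x ^ n := by
  obtain ⟨k, rfl | rfl⟩ := n.eq_nat_or_neg
  · rw [natCast_zsmul, pval_nsmul, zpow_natCast]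
  · rw [neg_zsmul, natCast_zsmul, pval_neg, pval_nsmul, zpow_neg, zpow_natCast]

lemma pval_le {x y : PosG R} : x ≤ y ↔ pval x ≤ pval y := Iff.rfl

lemma pval_lt {x y : PosG R} : x < y ↔ pval x < pval y := Iff.rfl

lemma pval_pos_iff {x : PosG R} : 0 < x ↔ 1 < pval x := pval_lt

end pg

end Pool.Agent.Lib_helper35.EIP
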