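import Mathlib
import Pool.Agent.Lib_helper35.EIP.Coding

/-!
# Internal powers with small exponents
-/

set_option autoImplicit false

namespace Pool.Agent.Lib_helper35.EIP

universe u

section power

variable {Z : Type u} [CommRing Z] [LinearOrder Z]

/-- The graph of the internal power function (with codes bounded by `B`). -/
def PG (B x n y : Z) : Prop :=
  ∃ c, 0 ≤ c ∧ c < B + 1 ∧ ∃ d, 0 ≤ d ∧ d < B + 1 ∧ (Beta c d 0 1 ∧
    (∀ i, 0 ≤ i → i < n → ∃ z, 0 ≤ z ∧ z < B + 1 ∧ (Beta c d i z ∧ Beta c d (i + 1) (x * z))) ∧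
    Beta c d n y)

lemma DZ.pg_base : DZ (fun v : ℕ → Z => PG (v 0) (v 1) (v 2) (v 3)) := by
  unfold PG
  infer_instance

instance DZ.pg {s t r w : (ℕ → Z) → Z} [PF s] [PF t] [PF r] [PF w] :
    DZ (fun v => PG (s v) (t v) (r v) (w v)) :=
  DZ.subst4 DZ.pg_base

variable [IsStrictOrderedRing Z] [BArith Z]

lemma PG.bound {B x n y : Z} (hn : 0 ≤ n) (h : PG B x n y) : 0 ≤ y ∧ y ≤ B := by
  obtain ⟨c, hc, hcB, d, hd, hdB, _, _, h⟩ := h
  exact ⟨h.1, (h.le hd hn).trans (lt_add_one_iff'.mp hcB)⟩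

lemma PG.unique {B x n y y' : Z} (hn : 0 ≤ n) (h : PG B x n y) (h' : PG B x n y') : y = y' := by
  obtain ⟨c, hc, hcB, d, hd, hdB, h0, h1, h2⟩ := h
  obtain ⟨c', hc', hcB', d', hd', hdB', h0', h1', h2'⟩ := h'
  have hB : 0 ≤ B := by
    have := lt_add_one_iff'.mp hcB
    linarith
  have key : ∀ i : Z, 0 ≤ i → (i ≤ n → ∃ z, 0 ≤ z ∧ z < B + 1 ∧ (Beta c d i z ∧ Beta c' d' i z)) := by
    apply bInduction (P := fun i => i ≤ n →
      ∃ z, 0 ≤ z ∧ z < B + 1 ∧ (Beta c d i z ∧ Beta c' d' i z)) inferInstance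
    · intro _
      refine ⟨1, zero_le_one, ?_, h0, h0'⟩
      have := h0.le hd le_rfl
      linarith
    · intro i hi ih hin
      obtain ⟨z, hz, hzB, hz1, hz2⟩ := ih (by linarith)
      have hin' : i < n := by linarith
      obtain ⟨w, hw, hwB, hw1, hw2⟩ := h1 i hi hin'
      obtain ⟨w', hw', hwB', hw1', hw2'⟩ := h1' i hi hin'
      have e1 := hw1.unique hd hi hz1
      have e2 := hw1'.unique hd' hi hz2
      rw [e1] at hw2
      rw [e2] at hw2'
      refine ⟨x * z, hw2.1, ?_, hw2, hw2'⟩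
      have := hw2.le hd (by linarith)
      linarith
  obtain ⟨z, hz, hzB, hz1, hz2⟩ := key n hn le_rfl
  rw [h2.unique hd hn hz1, h2'.unique hd' hn hz2]

/-- Data of an internal power function for bases `≤ X` and exponents `≤ N`. -/
structure IPow (X N B : Z) (f : Z → Z → Z) : Prop where
  one_le_X : 1 ≤ X
  inf_N : Infin N
  zero' : ∀ x, 0 ≤ x → x ≤ X → f x 0 = 1
  succ' : ∀ x, 0 ≤ x → x ≤ X → ∀ n, 0 ≤ n → n < N → f x (n + 1) = x * f x n
  graph : ∀ x n y, 0 ≤ x → x ≤ X → 0 ≤ n → n ≤ N → (PG B x n y ↔ f x n = y)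

theorem exists_iPow {X B Y : Z} (hX : Infin X) (hB : ∀ k : ℕ, X ^ k < B) (hY : Infin Y) :
    ∃ N, Infin N ∧ N ≤ Y ∧ ∃ f, IPow X N B f := by
  have hX1 : 1 ≤ X := BArith.discrete X hX.pos
  have hstd : ∀ N : ℕ, ∀ x, 0 ≤ x → x < X + 1 → ∃ c, 0 ≤ c ∧ c < B + 1 ∧ ∃ d, 0 ≤ d ∧ d < B + 1 ∧
      (Beta c d 0 1 ∧ (∀ i, 0 ≤ i → i < (N : Z) → ∃ z, 0 ≤ z ∧ z < B + 1 ∧
        (Beta c d i z ∧ Beta c d (i + 1) (x * z)))) := by
    intro N x hx hxX
    rw [lt_add_one_iff'] at hxX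
    have hXN : (1 : Z) ≤ X ^ N := one_le_pow₀ hX1
    obtain ⟨c, d, hc, hd, hdle, hcle, hcode⟩ := exists_beta_code N (fun i => x ^ i) hXN
      (fun i => by positivity)
      (fun i hi => (pow_le_pow_left₀ hx hxX i).trans (pow_le_pow_right₀ hX1 hi))
    have h1 : (1 + ((N : Z) + 1) * ((N.factorial : Z) * X ^ N)) ≤ X ^ (N + 1) := by
      have h2 : (((N + 1) * N.factorial + 1 : ℕ) : Z) < X := hX _
      push_cast at h2
      calc (1 + ((N : Z) + 1) * ((N.factorial : Z) * X ^ N))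
          ≤ X ^ N + ((N : Z) + 1) * ((N.factorial : Z) * X ^ N) := by linarith
        _ = (((N : Z) + 1) * (N.factorial : Z) + 1) * X ^ N := by ring
        _ ≤ X * X ^ N := by
            apply mul_le_mul_of_nonneg_right h2.le (by positivity)
        _ = X ^ (N + 1) := by ring
    have h0 : (0 : Z) ≤ (1 + ((N : Z) + 1) * ((N.factorial : Z) * X ^ N)) := by positivity
    have hcB : c < B + 1 := by
      have : c ≤ X ^ ((N + 1) * (N + 1)) := by
        rw [pow_mul]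
        exact hcle.trans (pow_le_pow_left₀ h0 h1 _)
      have := hB ((N + 1) * (N + 1))
      linarith
    have hdB : d < B + 1 := by
      have h3 : (N.factorial : Z) * X ^ N ≤ (1 + ((N : Z) + 1) * ((N.factorial : Z) * X ^ N)) := by
        have : (0 : Z) ≤ (N : Z) * ((N.factorial : Z) * X ^ N) := by positivity
        linarith
      have := hB (N + 1)
      linarith
    refine ⟨c, hc, hcB, d, hd, hdB, by simpa using hcode 0 (by omega), ?_⟩
    intro i hi hiN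
    obtain ⟨j, _, rfl⟩ := exists_nat_of_le hi hiN.le
    have hjN : j < N := by exact_mod_cast hiN
    refine ⟨x ^ j, by positivity, ?_, hcode j hjN.le, ?_⟩
    · have := (hcode j hjN.le).le hd (by positivity)
      linarith
    · have := hcode (j + 1) hjN
      push_cast at this
      rwa [pow_succ, mul_comm (x ^ j) x] at this
  obtain ⟨N, hN, hNY, hall⟩ := overspill
    (P := fun N => ∀ x, 0 ≤ x → x < X + 1 → ∃ c, 0 ≤ c ∧ c < B + 1 ∧ ∃ d, 0 ≤ d ∧ d < B + 1 ∧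
      (Beta c d 0 1 ∧ (∀ i, 0 ≤ i → i < N → ∃ z, 0 ≤ z ∧ z < B + 1 ∧
        (Beta c d i z ∧ Beta c d (i + 1) (x * z))))) inferInstance hstd hY
  have hex : ∀ x n, 0 ≤ x → x ≤ X → 0 ≤ n → n ≤ N → ∃ y, PG B x n y := by
    intro x n hx hxX hn hnN
    obtain ⟨c, hc, hcB, d, hd, hdB, h0, h1⟩ := hall (N) hN.pos.le le_rfl x hx (by linarith)
    rcases lt_or_eq_of_le hnN with h | h
    · obtain ⟨z, _, _, hz, _⟩ := h1 n hn h
      exact ⟨z, c, hc, hcB, d, hd, hdB, h0, fun i hi hin => h1 i hi (hin.trans h), hz⟩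
    · have hN1 : 0 ≤ N - 1 := by
        have := hN 1
        push_cast at this
        linarith
      obtain ⟨z, _, _, _, hz⟩ := h1 (N - 1) hN1 (by linarith)
      rw [sub_add_cancel] at hz
      exact ⟨_, c, hc, hcB, d, hd, hdB, h0, fun i hi hin => h1 i hi (by linarith), by rw [h]; exact hz⟩
  classical
  refine ⟨N, hN, hNY, fun x n => if h : ∃ y, PG B x n y then h.choose else 0, hX1, hN, ?_, ?_, ?_⟩
  · intro x hx hxX
    have h := hex x 0 hx hxX le_rfl hN.pos.le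
    simp only [h, ↓reduceDIte]
    apply h.choose_spec.unique le_rfl
    obtain ⟨c, hc, hcB, d, hd, hdB, h0, h1⟩ := hall N hN.pos.le le_rfl x hx (by linarith)
    exact ⟨c, hc, hcB, d, hd, hdB, h0, fun i hi hin => absurd hin (not_lt.mpr hi), h0⟩
  · intro x hx hxX n hn hnN
    have h := hex x n hx hxX hn hnN.le
    have h' := hex x (n + 1) hx hxX (by linarith) (lt_iff_add_one_le'.mp hnN)
    simp only [h, h', ↓reduceDIte]
    obtain ⟨c, hc, hcB, d, hd, hdB, h0, h1⟩ := hall N hN.pos.le le_rfl x hx (by linarith)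
    obtain ⟨z, _, _, hz, hz'⟩ := h1 n hn hnN
    have e1 : h.choose = z := h.choose_spec.unique hn
      ⟨c, hc, hcB, d, hd, hdB, h0, fun i hi hin => h1 i hi (hin.trans hnN), hz⟩
    have e2 : h'.choose = x * z := h'.choose_spec.unique (by linarith)
      ⟨c, hc, hcB, d, hd, hdB, h0, fun i hi hin => h1 i hi (lt_of_lt_of_le hin (lt_iff_add_one_le'.mp hnN)), hz'⟩
    rw [e1, e2]
  · intro x n y hx hxX hn hnN
    have h := hex x n hx hxX hn hnN
    simp only [h, ↓reduceDIte]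
    constructor
    · intro h'
      exact h.choose_spec.unique hn h'
    · intro h'
      rw [← h']
      exact h.choose_spec

namespace IPow

variable {X N B : Z} {f : Z → Z → Z} (hf : IPow X N B f)
include hf

lemma pg {x n : Z} (hx : 0 ≤ x) (hxX : x ≤ X) (hn : 0 ≤ n) (hnN : n ≤ N) : PG B x n (f x n) :=
  (hf.graph x n _ hx hxX hn hnN).mpr rfl

lemma nonneg {x n : Z} (hx : 0 ≤ x) (hxX : x ≤ X) (hn : 0 ≤ n) (hnN : n ≤ N) : 0 ≤ f x n :=
  ((hf.pg hx hxX hn hnN).bound hn).1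

lemma le {x n : Z} (hx : 0 ≤ x) (hxX : x ≤ X) (hn : 0 ≤ n) (hnN : n ≤ N) : f x n ≤ B :=
  ((hf.pg hx hxX hn hnN).bound hn).2

/-- Induction for one internal power. -/
theorem ind1 {R : Z → Z → Prop} [hR : DZ (fun v : ℕ → Z => R (v 0) (v 1))] {x : Z} (hx : 0 ≤ x)
    (hxX : x ≤ X) (h0 : R 0 1)
    (hs : ∀ n, 0 ≤ n → n < N → R n (f x n) → R (n + 1) (x * f x n)) :
    ∀ n, 0 ≤ n → n ≤ N → R n (f x n) := by
  have hR' : ∀ {s t : (ℕ → Z) → Z} [PF s] [PF t], DZ (fun v => R (s v) (t v)) :=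
    fun {s t} _ _ => DZ.subst2 hR
  have key : ∀ n : Z, 0 ≤ n → (n ≤ N → ∃ a, 0 ≤ a ∧ a < B + 1 ∧ (PG B x n a ∧ R n a)) := by
    apply bInduction (P := fun n => n ≤ N → ∃ a, 0 ≤ a ∧ a < B + 1 ∧ (PG B x n a ∧ R n a))
      inferInstance
    · intro _
      refine ⟨1, zero_le_one, ?_, ?_, h0⟩
      · have := hf.le hx hxX le_rfl hf.inf_N.pos.le
        rw [hf.zero' x hx hxX] at this
        linarith
      · rw [hf.graph x 0 1 hx hxX le_rfl hf.inf_N.pos.le]
        exact hf.zero' x hx hxX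
    · intro n hn ih hnN
      have hnN' : n < N := lt_iff_add_one_le'.mpr hnN
      obtain ⟨a, ha, _, hPG, hRa⟩ := ih hnN'.le
      have e := (hf.graph x n a hx hxX hn hnN'.le).mp hPG
      rw [← e] at hRa
      refine ⟨f x (n + 1), hf.nonneg hx hxX (by linarith) hnN, ?_, hf.pg hx hxX (by linarith) hnN, ?_⟩
      · have := hf.le hx hxX (n := n + 1) (by linarith) hnN
        linarith
      · rw [hf.succ' x hx hxX n hn hnN']
        exact hs n hn hnN' hRa
  intro n hn hnN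
  obtain ⟨a, _, _, hPG, hRa⟩ := key n hn hnN
  rw [(hf.graph x n a hx hxX hn hnN).mp hPG]
  exact hRa

/-- Induction for two internal powers. -/
theorem ind2 {R : Z → Z → Z → Prop} [hR : DZ (fun v : ℕ → Z => R (v 0) (v 1) (v 2))] {x y : Z}
    (hx : 0 ≤ x) (hxX : x ≤ X) (hy : 0 ≤ y) (hyX : y ≤ X) (h0 : R 0 1 1)
    (hs : ∀ n, 0 ≤ n → n < N → R n (f x n) (f y n) → R (n + 1) (x * f x n) (y * f y n)) :
    ∀ n, 0 ≤ n → n ≤ N → R n (f x n) (f y n) := by
  have hR' : ∀ {s t r : (ℕ → Z) → Z} [PF s] [PF t] [PF r], DZ (fun v => R (s v) (t v) (r v)) :=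
    fun {s t r} _ _ _ => DZ.subst3 hR
  have key := hf.ind1 (R := fun n a => n ≤ N → ∃ b, 0 ≤ b ∧ b < B + 1 ∧ (PG B y n b ∧ R n a b))
    hx hxX ?_ ?_
  · intro n hn hnN
    obtain ⟨b, _, _, hb, h⟩ := key n hn hnN hnN
    rw [(hf.graph y n b hy hyX hn hnN).mp hb]
    exact h
  · intro h
    refine ⟨1, zero_le_one, ?_, ?_, h0⟩
    · have := hf.le hx hxX le_rfl hf.inf_N.pos.le
      rw [hf.zero' x hx hxX] at this
      linarith
    · rw [hf.graph y 0 1 hy hyX le_rfl hf.inf_N.pos.le]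
      exact hf.zero' y hy hyX
  · intro n hn hnN ih _
    obtain ⟨b, _, _, hb, h⟩ := ih hnN.le
    have e := (hf.graph y n b hy hyX hn hnN.le).mp hb
    have hnN' := lt_iff_add_one_le'.mp hnN
    refine ⟨f y (n + 1), hf.nonneg hy hyX (by linarith) hnN', ?_, hf.pg hy hyX (by linarith) hnN', ?_⟩
    · have := hf.le hy hyX (n := n + 1) (by linarith) hnN'
      linarith
    · rw [hf.succ' y hy hyX n hn hnN]
      apply hs n hn hnN
      rw [e]
      exact h

lemma add {x m n : Z} (hx : 0 ≤ x) (hxX : x ≤ X) (hm : 0 ≤ m) (hn : 0 ≤ n) (hmn : m + n ≤ N) :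
    f x (m + n) = f x m * f x n := by
  have key := hf.ind1 (R := fun n a => m + n ≤ N → PG B x (m + n) (f x m * a)) hx hxX ?_ ?_ n hn
    (by linarith) hmn
  · exact (hf.graph x (m + n) _ hx hxX (by linarith) hmn).mp key
  · intro h
    rw [add_zero, mul_one]
    exact hf.pg hx hxX hm (by linarith)
  · intro n hn _ ih h
    have h' : m + n < N := by linarith
    have e := (hf.graph x (m + n) _ hx hxX (by linarith) h'.le).mp (ih h'.le)
    rw [hf.graph x (m + (n + 1)) _ hx hxX (by linarith) h, ← add_assoc,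
      hf.succ' x hx hxX (m + n) (by linarith) h', e]
    ring

lemma one_le {x n : Z} (hx : 1 ≤ x) (hxX : x ≤ X) (hn : 0 ≤ n) (hnN : n ≤ N) : 1 ≤ f x n := by
  refine hf.ind1 (R := fun _ a => 1 ≤ a) (by linarith) hxX le_rfl ?_ n hn hnN
  intro n _ _ h
  nlinarith

lemma mono_exp {x m n : Z} (hx : 1 ≤ x) (hxX : x ≤ X) (hm : 0 ≤ m) (hmn : m ≤ n) (hnN : n ≤ N) :
    f x m ≤ f x n := by
  have h1 := hf.add (x := x) (m := m) (n := n - m) (by linarith) hxX hm (by linarith) (by linarith)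
  have h2 := hf.one_le hx hxX (n := n - m) (by linarith) (by linarith)
  have h3 := hf.one_le hx hxX (n := m) (by linarith) (by linarith)
  rw [show m + (n - m) = n by ring] at h1
  rw [h1]
  nlinarith

lemma one_base {n : Z} (hn : 0 ≤ n) (hnN : n ≤ N) : f 1 n = 1 := by
  refine hf.ind1 (R := fun _ a => a = 1) (by linarith) hf.one_le_X rfl ?_ n hn hnN
  intro n _ _ h
  rw [h, one_mul]

lemma mono_base {x y n : Z} (hx : 0 ≤ x) (hxy : x ≤ y) (hyX : y ≤ X) (hn : 0 ≤ n) (hnN : n ≤ N) :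
    f x n ≤ f y n := by
  refine (hf.ind2 (R := fun _ a b => 0 ≤ a ∧ a ≤ b) hx (hxy.trans hyX) (hx.trans hxy) hyX
    ⟨zero_le_one, le_rfl⟩ ?_ n hn hnN).2
  intro n _ _ ⟨h1, h2⟩
  exact ⟨mul_nonneg hx h1, mul_le_mul hxy h2 h1 (hx.trans hxy)⟩

lemma strictMono_base {x y n : Z} (hx : 0 ≤ x) (hxy : x < y) (hyX : y ≤ X) (hn : 1 ≤ n)
    (hnN : n ≤ N) : f x n < f y n := by
  have h1 := hf.succ' x hx (hxy.le.trans hyX) (n - 1) (by linarith) (by linarith)
  have h2 := hf.succ' y (hx.trans hxy.le) hyX (n - 1) (by linarith) (by linarith)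
  rw [sub_add_cancel] at h1 h2
  rw [h1, h2]
  have h3 := hf.mono_base hx hxy.le hyX (n := n - 1) (by linarith) (by linarith)
  have h4 := hf.one_le (x := y) (n := n - 1) (BArith.discrete y (by linarith)) hyX (by linarith)
    (by linarith)
  have h5 := hf.nonneg hx (hxy.le.trans hyX) (n := n - 1) (by linarith) (by linarith)
  nlinarith

lemma lt_of_lt {x y n : Z} (hx : x ≤ X) (hy : 0 ≤ y) (hn : 0 ≤ n)
    (hnN : n ≤ N) (h : f x n < f y n) (_hx0 : 0 ≤ x) : x < y := by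
  by_contra hcon
  push Not at hcon
  exact absurd h (not_lt.mpr (hf.mono_base hy hcon hx hn hnN))

lemma mul_base {x y n : Z} (hx : 0 ≤ x) (hxX : x ≤ X) (hy : 0 ≤ y) (hyX : y ≤ X)
    (hxy : x * y ≤ X) (hn : 0 ≤ n) (hnN : n ≤ N) : f (x * y) n = f x n * f y n := by
  have hxy0 : 0 ≤ x * y := mul_nonneg hx hy
  have key := hf.ind2 (R := fun n a b => n ≤ N → PG B (x * y) n (a * b)) hx hxX hy hyX ?_ ?_ n hn
    hnN hnN
  · exact (hf.graph _ n _ hxy0 hxy hn hnN).mp key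
  · intro h
    rw [mul_one, hf.graph _ 0 _ hxy0 hxy le_rfl h]
    exact hf.zero' _ hxy0 hxy
  · intro n hn hnN ih h
    have e := (hf.graph _ n _ hxy0 hxy hn hnN.le).mp (ih hnN.le)
    rw [hf.graph _ (n + 1) _ hxy0 hxy (by linarith) h, hf.succ' _ hxy0 hxy n hn hnN, e]
    ring

lemma pow2 {x n : Z} (hx : Pow2 x) (hxX : x ≤ X) (hn : 0 ≤ n) (hnN : n ≤ N) : Pow2 (f x n) := by
  refine hf.ind1 (R := fun _ a => Pow2 a) hx.pos.le hxX pow2_one ?_ n hn hnN
  intro n _ _ h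
  exact hx.mul h

lemma natCast {x : Z} (hx : 0 ≤ x) (hxX : x ≤ X) (k : ℕ) : f x k = x ^ k := by
  induction k with
  | zero => rw [Nat.cast_zero, pow_zero]; exact hf.zero' x hx hxX
  | succ k ih =>
    push_cast
    rw [hf.succ' x hx hxX k (by positivity) (hf.inf_N k), ih]
    ring

lemma nsmul {x n : Z} (hx : 0 ≤ x) (hxX : x ≤ X) (hn : 0 ≤ n) (k : ℕ) (hkn : (k : Z) * n ≤ N) :
    f x (k * n) = (f x n) ^ k := by
  induction k with
  | zero => simpa using hf.zero' x hx hxX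
  | succ k ih =>
    have h1 : (0 : Z) ≤ (k : Z) * n := by positivity
    push_cast at hkn ⊢
    rw [show ((k : Z) + 1) * n = k * n + n by ring, hf.add hx hxX h1 hn (by linarith),
      ih (by linarith)]
    ring

lemma pow_base {x n : Z} (hx : 1 ≤ x) (hn : 0 ≤ n) (hnN : n ≤ N) (k : ℕ) (hk : x ^ k ≤ X)  :
    f (x ^ k) n = (f x n) ^ k := by
  induction k with
  | zero => simpa using hf.one_base hn hnN
  | succ k ih =>
    have h1 : 1 ≤ x ^ k := one_le_pow₀ hx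
    have h2 : x ^ k ≤ x ^ (k + 1) := pow_le_pow_right₀ hx (Nat.le_succ k)
    have h3 : x ≤ x ^ (k + 1) := by
      calc x = x ^ 1 := (pow_one x).symm
        _ ≤ x ^ (k + 1) := pow_le_pow_right₀ hx (by omega)
    rw [pow_succ, hf.mul_base (by linarith) (h2.trans hk) (by linarith) (h3.trans hk)
      (by rw [← pow_succ]; exact hk) hn hnN, ih (h2.trans hk), pow_succ]

/-- Base `K` representation of powers of two: `p = 2 ^ i * q ^ K`. -/
theorem repr {K : Z} (hK : 0 < K) (hKN : K ≤ N) (hX2 : 2 ≤ X) : ∀ p, Pow2 p → p ≤ X →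
    ∃ i q, 0 ≤ i ∧ i < K ∧ Pow2 q ∧ q ≤ p ∧ p = f 2 i * f q K := by
  have hB : 0 ≤ B := by
    have h1 := hf.nonneg zero_le_one hf.one_le_X le_rfl hf.inf_N.pos.le
    have h2 := hf.le zero_le_one hf.one_le_X le_rfl hf.inf_N.pos.le
    linarith
  have key : ∀ p, Pow2 p → (p ≤ X → ∃ i, 0 ≤ i ∧ i < K ∧ ∃ q, 0 ≤ q ∧ q < p + 1 ∧ (Pow2 q ∧
      ∃ a, 0 ≤ a ∧ a < B + 1 ∧ ∃ b, 0 ≤ b ∧ b < B + 1 ∧ (PG B 2 i a ∧ PG B q K b ∧ p = a * b))) := by
    apply pow2_induction (P := fun p => p ≤ X → ∃ i, 0 ≤ i ∧ i < K ∧ ∃ q, 0 ≤ q ∧ q < p + 1 ∧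
      (Pow2 q ∧ ∃ a, 0 ≤ a ∧ a < B + 1 ∧ ∃ b, 0 ≤ b ∧ b < B + 1 ∧
        (PG B 2 i a ∧ PG B q K b ∧ p = a * b))) inferInstance
    · intro hX
      refine ⟨0, le_rfl, hK, 1, zero_le_one, by linarith, pow2_one, f 2 0, ?_, ?_, f 1 K, ?_, ?_,
        hf.pg zero_le_two hX2 le_rfl hf.inf_N.pos.le, hf.pg zero_le_one hX hK.le hKN, ?_⟩
      · exact hf.nonneg zero_le_two hX2 le_rfl hf.inf_N.pos.le
      · exact lt_add_one_iff'.mpr (hf.le zero_le_two hX2 le_rfl hf.inf_N.pos.le)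
      · exact hf.nonneg zero_le_one hX hK.le hKN
      · exact lt_add_one_iff'.mpr (hf.le zero_le_one hX hK.le hKN)
      · rw [hf.zero' 2 zero_le_two hX2, hf.one_base hK.le hKN, mul_one]
    · intro p hp ih hpX
      have hp0 := hp.pos
      obtain ⟨i, hi, hiK, q, hq, hqp, hq2, a, ha, haB, b, hb, hbB, hPa, hPb, hpab⟩ :=
        ih (by linarith)
      have hqp' := lt_add_one_iff'.mp hqp
      have ea := (hf.graph 2 i a zero_le_two hX2 hi (by linarith)).mp hPa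
      have eb := (hf.graph q K b hq (by linarith) hK.le hKN).mp hPb
      rcases lt_or_eq_of_le (lt_iff_add_one_le'.mp hiK) with h | h
      · refine ⟨i + 1, by linarith, h, q, hq, by linarith, hq2, f 2 (i + 1), ?_, ?_, b, hb, hbB,
          hf.pg zero_le_two hX2 (by linarith) (by linarith), hPb, ?_⟩
        · exact hf.nonneg zero_le_two hX2 (by linarith) (by linarith)
        · exact lt_add_one_iff'.mpr (hf.le zero_le_two hX2 (by linarith) (by linarith))
        · rw [hf.succ' 2 zero_le_two hX2 i hi (by linarith), ea, hpab]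
          ring
      · have h2q : 0 ≤ 2 * q := by linarith
        have h2qX : 2 * q ≤ X := by linarith
        refine ⟨0, le_rfl, hK, 2 * q, h2q, by linarith, hq2.two_mul, f 2 0, ?_, ?_, f (2 * q) K,
          ?_, ?_, hf.pg zero_le_two hX2 le_rfl hf.inf_N.pos.le, hf.pg h2q h2qX hK.le hKN, ?_⟩
        · exact hf.nonneg zero_le_two hX2 le_rfl hf.inf_N.pos.le
        · exact lt_add_one_iff'.mpr (hf.le zero_le_two hX2 le_rfl hf.inf_N.pos.le)
        · exact hf.nonneg h2q h2qX hK.le hKN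
        · exact lt_add_one_iff'.mpr (hf.le h2q h2qX hK.le hKN)
        · rw [hf.zero' 2 zero_le_two hX2, one_mul,
            hf.mul_base zero_le_two hX2 hq (by linarith) h2qX hK.le hKN, ← h,
            hf.succ' 2 zero_le_two hX2 i hi (by linarith), ea, h, eb, hpab]
          ring
  intro p hp hpX
  obtain ⟨i, hi, hiK, q, hq, hqp, hq2, a, ha, haB, b, hb, hbB, hPa, hPb, hpab⟩ := key p hp hpX
  have hqp' := lt_add_one_iff'.mp hqp
  refine ⟨i, q, hi, hiK, hq2, hqp', ?_⟩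
  rw [(hf.graph 2 i a zero_le_two hX2 hi (by linarith)).mp hPa,
    (hf.graph q K b hq (by linarith) hK.le hKN).mp hPb, hpab]

/-- Integer roots. -/
theorem exists_root {K W : Z} (hK : 1 ≤ K) (hKN : K ≤ N) (hW : 0 ≤ W) (hWX : W < f X K) :
    ∃ y, 0 ≤ y ∧ y < X ∧ f y K ≤ W ∧ W < f (y + 1) K := by
  have hX0 : 0 ≤ X := zero_le_one.trans hf.one_le_X
  obtain ⟨y, hy, hyX, h1, h2⟩ := exists_step
    (P := fun y => y ≤ X → ∃ a, 0 ≤ a ∧ a < B + 1 ∧ (PG B y K a ∧ a ≤ W)) inferInstance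
    (by
      intro _
      refine ⟨f 0 K, hf.nonneg le_rfl hX0 (by linarith) hKN,
        lt_add_one_iff'.mpr (hf.le le_rfl hX0 (by linarith) hKN),
        hf.pg le_rfl hX0 (by linarith) hKN, ?_⟩
      have := hf.succ' 0 le_rfl hX0 (K - 1) (by linarith) (by linarith)
      rw [sub_add_cancel, zero_mul] at this
      rw [this]
      exact hW) (y := X) hX0
    (by
      push Not
      refine ⟨le_rfl, fun a ha haB h => ?_⟩
      rw [← (hf.graph X K a hX0 le_rfl (by linarith) hKN).mp h]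
      exact hWX)
  refine ⟨y, hy, hyX, ?_, ?_⟩
  · obtain ⟨a, _, _, ha, haW⟩ := h1 hyX.le
    rw [(hf.graph y K a hy hyX.le (by linarith) hKN).mp ha]
    exact haW
  · have hy1 : y + 1 ≤ X := lt_iff_add_one_le'.mp hyX
    push Not at h2
    exact h2.2 _ (hf.nonneg (by linarith) hy1 (by linarith) hKN)
      (lt_add_one_iff'.mpr (hf.le (by linarith) hy1 (by linarith) hKN))
      (hf.pg (by linarith) hy1 (by linarith) hKN)

/-- Integer logarithms. -/
theorem exists_log {b c W n : Z} (hb : 0 ≤ b) (hbX : b ≤ X) (hn : 0 ≤ n) (hnN : n ≤ N)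
    (h0 : c ≤ W) (hW : W < c * f b n) :
    ∃ m, 0 ≤ m ∧ m < n ∧ c * f b m ≤ W ∧ W < c * f b (m + 1) := by
  obtain ⟨m, hm, hmn, h1, h2⟩ := exists_step
    (P := fun m => m ≤ N → ∃ a, 0 ≤ a ∧ a < B + 1 ∧ (PG B b m a ∧ c * a ≤ W)) inferInstance
    (by
      intro _
      refine ⟨f b 0, hf.nonneg hb hbX le_rfl hf.inf_N.pos.le,
        lt_add_one_iff'.mpr (hf.le hb hbX le_rfl hf.inf_N.pos.le),
        hf.pg hb hbX le_rfl hf.inf_N.pos.le, ?_⟩
      rw [hf.zero' b hb hbX, mul_one]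
      exact h0) (y := n) hn
    (by
      push Not
      refine ⟨hnN, fun a ha haB h => ?_⟩
      rw [← (hf.graph b n a hb hbX hn hnN).mp h]
      exact hW)
  refine ⟨m, hm, hmn, ?_, ?_⟩
  · obtain ⟨a, _, _, ha, haW⟩ := h1 (by linarith)
    rw [(hf.graph b m a hb hbX hm (by linarith)).mp ha]
    exact haW
  · have hm1 : m + 1 ≤ N := (lt_iff_add_one_le'.mp hmn).trans hnN
    push Not at h2
    exact h2.2 _ (hf.nonneg hb hbX (by linarith) hm1)
      (lt_add_one_iff'.mpr (hf.le hb hbX (by linarith) hm1))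
      (hf.pg hb hbX (by linarith) hm1)

end IPow

end power

end Pool.Agent.Lib_helper35.EIP
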