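import Mathlib
import Pool.Agent.Lib_helper35.EIP.Arith
import Pool.Agent.Lib_helper35.EIP.BackForth2
import Pool.Agent.Lib_helper35.EIP.Ratio2

/-!
# The additive group of a nonstandard model is rich
-/

set_option autoImplicit false

namespace Pool.Agent.Lib_helper35.EIP

universe u

open ArchimedeanClass

section richZ

variable (Z : Type u) [CommRing Z] [LinearOrder Z] [IsStrictOrderedRing Z]

/-- Standard parts of quotients with infinite denominators. -/
def kZ : Set ℝ := {r | ∃ a b : Z, Infin b ∧ IsRatio a b r}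

/-- Systems of residues modulo standard numbers. -/
def ResZ : Set (ℕ → ℤ) := {s | ∃ z : Z, ∀ n : ℕ, 0 < n → DvdBy n (z - s n • (1 : Z))}

variable {Z}

omit [LinearOrder Z] [IsStrictOrderedRing Z] in
lemma ResZ_sub : ∀ s ∈ ResZ Z, ∀ t ∈ ResZ Z, s - t ∈ ResZ Z := by
  rintro s ⟨z, hz⟩ t ⟨w, hw⟩
  refine ⟨z - w, fun n hn => ?_⟩
  have : z - w - (s - t) n • (1 : Z) = (z - s n • (1 : Z)) - (w - t n • (1 : Z)) := by
    rw [Pi.sub_apply, sub_zsmul]; abel
  rw [this]
  exact (hz n hn).sub (hw n hn)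

lemma kZ_neg {r : ℝ} (h : r ∈ kZ Z) : -r ∈ kZ Z := by
  obtain ⟨a, b, hb, h⟩ := h
  exact ⟨-a, b, hb, h.neg⟩

lemma mk_lt_mk_one_iff {b : Z} : mk b < mk 1 ↔ Infin |b| := by
  rw [mk_lt_mk, abs_one]
  unfold Infin
  simp only [nsmul_eq_mul, mul_one]

lemma infin_iff {b : Z} (hb : 0 < b) : mk b < mk 1 ↔ Infin b := by
  rw [mk_lt_mk_one_iff, abs_of_pos hb]

variable [BArith Z]

lemma ratio_ex_Z {b : Z} (hb : Infin b) {r : ℝ} (hr : r ∈ kZ Z) : ∃ a, IsRatio a b r := by
  obtain ⟨a', b', hb', hr⟩ := hr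
  obtain ⟨a, h1, h2⟩ := exists_div (b * a') hb'.pos
  have hb0 := hb.pos
  have hb0' := hb'.pos
  refine ⟨a, IsRatio.of_approx hb0 fun p q hq => ⟨fun h => ?_, fun h => ?_⟩⟩
  · refine ⟨q • (1 : Z), ?_, ?_⟩
    · rw [← natCast_zsmul, mk_smul _ (by exact_mod_cast hq.ne')]
      exact (infin_iff hb0).mpr hb
    · have h3 := (hr p q hq).1 h
      simp only [zsmul_eq_mul, nsmul_eq_mul, mul_one] at h3 ⊢
      have hq0 : (0 : Z) < q := by exact_mod_cast hq
      have h4 : (p : Z) * b * b' ≤ (q * a + q) * b' := by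
        have e1 : (p : Z) * b * b' = b * (p * b') := by ring
        have e2 : b * ((p : Z) * b') ≤ b * (q * a') := mul_le_mul_of_nonneg_left h3 hb0.le
        have e3 : b * ((q : Z) * a') = q * (b * a') := by ring
        have e4 : (q : Z) * (b * a') ≤ q * ((a + 1) * b') := mul_le_mul_of_nonneg_left h2.le hq0.le
        calc (p : Z) * b * b' = b * (p * b') := e1
          _ ≤ q * (b * a') := by rw [← e3]; exact e2
          _ ≤ q * ((a + 1) * b') := e4
          _ = (q * a + q) * b' := by ring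
      exact le_of_mul_le_mul_right h4 hb0'
  · refine ⟨0, ?_, ?_⟩
    · rw [mk_zero]
      exact lt_of_lt_of_le ((infin_iff hb0).mpr hb) le_top
    · have h3 := (hr p q hq).2 h
      simp only [zsmul_eq_mul, nsmul_eq_mul, add_zero] at h3 ⊢
      have hq0 : (0 : Z) < q := by exact_mod_cast hq
      have h4 : (q : Z) * a * b' ≤ p * b * b' := by
        calc (q : Z) * a * b' = q * (a * b') := by ring
          _ ≤ q * (b * a') := mul_le_mul_of_nonneg_left h1 hq0.le
          _ = b * (q * a') := by ring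
          _ ≤ b * (p * b') := mul_le_mul_of_nonneg_left h3 hb0.le
          _ = p * b * b' := by ring
      exact le_of_mul_le_mul_right h4 hb0'

theorem rich_Z (hω : ∃ ω : Z, Infin ω) : Rich Z 1 (kZ Z) (ResZ Z) True where
  u_pos := one_pos
  res := by
    intro a
    have h : ∀ n : ℕ, ∃ s : ℤ, 0 < n → DvdBy n (a - s • (1 : Z)) := by
      intro n
      rcases Nat.eq_zero_or_pos n with h0 | h0
      · exact ⟨0, fun h => by omega⟩
      · obtain ⟨q, r, hr, hrn, e⟩ := exists_divMod a (b := (n : Z)) (by exact_mod_cast h0)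
        obtain ⟨k, _, hk⟩ := exists_nat_of_le hr hrn.le
        refine ⟨k, fun _ => ⟨q, ?_⟩⟩
        rw [e, hk]
        simp only [zsmul_eq_mul, nsmul_eq_mul]
        push_cast
        ring
    choose s hs using h
    exact ⟨s, ⟨a, hs⟩, hs⟩
  discrete := by
    intro _ a ha
    obtain ⟨n, hn⟩ := mk_le_mk.mp ha
    rw [abs_one, nsmul_eq_mul, mul_one] at hn
    obtain ⟨k, _, hk⟩ := exists_nat_of_le (abs_nonneg a) hn
    rcases abs_choice a with h | h
    · exact ⟨k, by rw [← h, hk]; simp⟩
    · refine ⟨-k, ?_⟩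
      have : a = -|a| := by rw [h]; ring
      rw [this, hk]
      simp
  bounded h := absurd trivial h
  divisible h := absurd trivial h
  ratio_mem := by
    intro b hb hbig a r hr
    exact ⟨a, b, (infin_iff hb).mp (hbig trivial), hr⟩
  ratio_ex := by
    intro b hb hbig r hr
    exact ratio_ex_Z ((infin_iff hb).mp (hbig trivial)) hr
  dens := by
    intro b c hb hcb
    have hb1 := hb trivial
    have hb0 : 0 < |b| := by
      rw [abs_pos]
      rintro rfl
      rw [mk_zero, top_le_iff, mk_eq_top_iff] at hb1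
      exact one_ne_zero hb1
    obtain ⟨q, hq1, hq2⟩ := exists_div |c| hb0
    have hqinf : Infin q := by
      intro n
      have h1 := mk_lt_mk.mp hcb (n + 1)
      rw [nsmul_eq_mul] at h1
      have h2 : ((n + 1 : ℕ) : Z) * |b| < (q + 1) * |b| := h1.trans hq2
      have h3 := lt_of_mul_lt_mul_right h2 hb0.le
      push_cast at h3
      linarith
    obtain ⟨s, hs, hsq⟩ := exists_infin_sq_le hqinf
    refine ⟨s * |b|, ?_, ?_⟩
    · rw [mk_lt_mk]
      intro n
      rw [abs_of_pos (mul_pos hs.pos hb0), nsmul_eq_mul]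
      have h1 : (n : Z) * s < s * s := by
        have := hs n
        have := hs.pos
        nlinarith
      calc (n : Z) * (s * |b|) = (n * s) * |b| := by ring
        _ < (s * s) * |b| := mul_lt_mul_of_pos_right h1 hb0
        _ ≤ q * |b| := mul_le_mul_of_nonneg_right hsq hb0.le
        _ ≤ |c| := hq1
    · rw [mk_lt_mk]
      intro n
      rw [abs_of_pos (mul_pos hs.pos hb0), nsmul_eq_mul]
      exact mul_lt_mul_of_pos_right (hs n) hb0
  unb := by
    intro _ b
    obtain ⟨ω, hω⟩ := hω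
    refine ⟨(|b| + 1) * ω, ?_⟩
    rw [mk_lt_mk]
    intro n
    have h0 := abs_nonneg b
    have h1 := hω n
    have h2 := hω.pos
    have h4 : 0 < (|b| + 1) * ω := mul_pos (by linarith) h2
    rw [abs_of_pos h4, nsmul_eq_mul]
    have h3 : (n : Z) * |b| ≤ ω * |b| := mul_le_mul_of_nonneg_right h1.le h0
    linarith
  res_ex := by
    rintro s ⟨z, hz⟩ b hb hbig
    have hbinf := (infin_iff hb).mp (hbig trivial)
    obtain ⟨y, hy, hyb⟩ := exists_infin_sq_le hbinf
    obtain ⟨K, hK, hKy, hdiv⟩ := exists_divisible hy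
    obtain ⟨q, t, ht0, htK, e⟩ := exists_divMod z hK.pos
    refine ⟨t, ?_, fun n hn => ?_⟩
    · rw [mk_lt_mk]
      intro n
      rw [abs_of_nonneg ht0, abs_of_pos hb, nsmul_eq_mul]
      have h1 := hy n
      have h2 := hy.pos
      have h3 : (n : Z) * t ≤ n * y := mul_le_mul_of_nonneg_left (by linarith) (by positivity)
      nlinarith
    · obtain ⟨c, _, hc⟩ := hdiv n hn
      have h1 : t - s n • (1 : Z) = (z - s n • (1 : Z)) - n • (q * c) := by
        rw [e, hc, nsmul_eq_mul]; ring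
      rw [h1]
      exact (hz n hn).sub ⟨_, rfl⟩

end richZ

end Pool.Agent.Lib_helper35.EIP
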