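import Mathlib
import Pool.Agent.Lib_helper35.EIP.Power
import Pool.Agent.Lib_helper35.EIP.RichZ
import Pool.Agent.Lib_helper35.EIP.PosGroup

/-!
# The group of powers of two is rich
-/

set_option autoImplicit false
set_option linter.unusedSectionVars false

namespace Pool.Agent.Lib_helper35.EIP

universe u

section setup

variable {Z : Type u} [CommRing Z] [LinearOrder Z] [IsStrictOrderedRing Z]

/-- Not polynomially bounded. -/
def NPB (Z : Type u) [CommRing Z] [LinearOrder Z] : Prop := ∀ a : Z, ∃ x, ∀ n : ℕ, a ^ n < x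

lemma NPB.exists_infin (h : NPB Z) : ∃ ω : Z, Infin ω := by
  obtain ⟨x, hx⟩ := h 2
  refine ⟨x, fun n => lt_trans ?_ (hx n)⟩
  have : n < 2 ^ n := Nat.lt_two_pow_self
  exact_mod_cast this

variable [BArith Z]

lemma NPB.setup (h : NPB Z) {γ Y : Z} (hγ : 1 ≤ γ) (hY : Infin Y) :
    ∃ X N B f, IPow X N B f ∧ N ≤ Y ∧ (∀ k : ℕ, γ ^ k ≤ X) ∧ 2 ≤ X := by
  obtain ⟨X, hX⟩ := h (γ + 1)
  have h2 : ∀ k : ℕ, (2 : Z) ^ k < X := fun k =>
    (pow_le_pow_left₀ zero_le_two (by linarith) k).trans_lt (hX k)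
  have hXinf : Infin X := by
    intro n
    refine lt_trans ?_ (h2 n)
    have : n < 2 ^ n := Nat.lt_two_pow_self
    exact_mod_cast this
  obtain ⟨B, hB⟩ := h X
  obtain ⟨N, hN, hNY, f, hf⟩ := exists_iPow hXinf hB hY
  refine ⟨X, N, B, f, hf, hNY, fun k => ?_, ?_⟩
  · exact ((pow_le_pow_left₀ (by linarith) (by linarith) k).trans_lt (hX k)).le
  · have := h2 1
    rw [pow_one] at this
    exact this.le

namespace IPow

variable {X N B : Z} {f : Z → Z → Z} (hf : IPow X N B f)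
include hf

lemma strictMono_exp {x m n : Z} (hx : 2 ≤ x) (hxX : x ≤ X) (hm : 0 ≤ m) (hmn : m < n)
    (hnN : n ≤ N) : f x m < f x n := by
  have h1 := hf.succ' x (by linarith) hxX m hm (by linarith)
  have h2 := hf.mono_exp (x := x) (m := m + 1) (n := n) (by linarith) hxX (by linarith)
    (lt_iff_add_one_le'.mp hmn) hnN
  have h3 := hf.one_le (x := x) (n := m) (by linarith) hxX hm (by linarith)
  nlinarith

lemma le_self_pow {x n : Z} (hx : 1 ≤ x) (hxX : x ≤ X) (hn : 1 ≤ n) (hnN : n ≤ N) : x ≤ f x n := by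
  have h1 := hf.succ' x (by linarith) hxX 0 le_rfl hf.inf_N.pos
  rw [zero_add, hf.zero' x (by linarith) hxX, mul_one] at h1
  calc x = f x 1 := h1.symm
    _ ≤ f x n := hf.mono_exp hx hxX zero_le_one hn hnN

/-- Overspill for internal powers below a bound. -/
lemma overspill_lt {x γ : Z} (hx : 0 ≤ x) (hxX : x ≤ X) (h : ∀ n : ℕ, x ^ n < γ) :
    ∃ s, Infin s ∧ s * s ≤ N ∧ ∀ z, 0 ≤ z → z ≤ s * s → f x z < γ := by
  obtain ⟨y, hy, hyN, hall⟩ := overspill
    (P := fun n => n ≤ N → ∃ a, 0 ≤ a ∧ a < B + 1 ∧ (PG B x n a ∧ a < γ)) inferInstance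
    (fun n hn => ⟨f x n, hf.nonneg hx hxX (by positivity) hn,
      lt_add_one_iff'.mpr (hf.le hx hxX (by positivity) hn), hf.pg hx hxX (by positivity) hn,
      by rw [hf.natCast hx hxX]; exact h n⟩) hf.inf_N
  obtain ⟨s, hs, hsy⟩ := exists_infin_sq_le hy
  refine ⟨s, hs, hsy.trans hyN, fun z hz hzs => ?_⟩
  obtain ⟨a, _, _, ha, haγ⟩ := hall z hz (hzs.trans hsy) ((hzs.trans hsy).trans hyN)
  rw [(hf.graph x z a hx hxX hz ((hzs.trans hsy).trans hyN)).mp ha]
  exact haγ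

end IPow

end setup

section G

variable {Z : Type u} [CommRing Z] [LinearOrder Z] [IsStrictOrderedRing Z] [BArith Z]
variable {R : Type u} [Field R] [LinearOrder R] [IsStrictOrderedRing R]

/-- The group of powers of two (and their inverses). -/
def G2 (i : Z →+* R) (hi : StrictMono i) : AddSubgroup (PosG R) where
  carrier := {x | ∃ p : Z, Pow2 p ∧ (pval x = i p ∨ pval x = (i p)⁻¹)}
  zero_mem' := ⟨1, pow2_one, Or.inl (by simp)⟩
  neg_mem' := by
    rintro x ⟨p, hp, h | h⟩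
    · exact ⟨p, hp, Or.inr (by rw [pval_neg, h])⟩
    · exact ⟨p, hp, Or.inl (by rw [pval_neg, h, inv_inv])⟩
  add_mem' := by
    have hpos : ∀ {p : Z}, Pow2 p → i p ≠ 0 := by
      intro p hp
      have := hi hp.pos
      rw [map_zero] at this
      exact this.ne'
    have key : ∀ {p q : Z}, Pow2 p → Pow2 q → ∃ r, Pow2 r ∧ (i p * (i q)⁻¹ = i r ∨
        i p * (i q)⁻¹ = (i r)⁻¹) := by
      intro p q hp hq
      have hp0 := hpos hp
      have hq0 := hpos hq
      rcases le_total p q with h | h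
      · obtain ⟨r, hr, e⟩ := hp.exists_mul_eq hq h
        have hr0 := hpos hr
        refine ⟨r, hr, Or.inr ?_⟩
        rw [e, map_mul]
        field_simp
      · obtain ⟨r, hr, e⟩ := hq.exists_mul_eq hp h
        have hr0 := hpos hr
        refine ⟨r, hr, Or.inl ?_⟩
        rw [e, map_mul]
        field_simp
    rintro x y ⟨p, hp, hx | hx⟩ ⟨q, hq, hy | hy⟩
    · exact ⟨p * q, hp.mul hq, Or.inl (by rw [pval_add, hx, hy, map_mul])⟩
    · obtain ⟨r, hr, h⟩ := key hp hq
      exact ⟨r, hr, by rw [pval_add, hx, hy]; exact h⟩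
    · obtain ⟨r, hr, h⟩ := key hq hp
      exact ⟨r, hr, by rw [pval_add, hx, hy, mul_comm]; exact h⟩
    · exact ⟨p * q, hp.mul hq, Or.inr (by rw [pval_add, hx, hy, map_mul, mul_inv])⟩

variable (i : Z →+* R) (hi : StrictMono i)

/-- A power of two as an element of the group. -/
def tG (p : Z) (hp : Pow2 p) : G2 i hi :=
  ⟨toP (i p) (by have := hi hp.pos; rwa [map_zero] at this), p, hp, Or.inl rfl⟩

variable {i hi}

lemma pval_tG {p : Z} (hp : Pow2 p) : pval (tG i hi p hp : PosG R) = i p := rfl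

lemma tG_le {p q : Z} {hp : Pow2 p} {hq : Pow2 q} : tG i hi p hp ≤ tG i hi q hq ↔ p ≤ q := by
  rw [← Subtype.coe_le_coe, pval_le, pval_tG, pval_tG]
  exact hi.le_iff_le

lemma tG_lt {p q : Z} {hp : Pow2 p} {hq : Pow2 q} : tG i hi p hp < tG i hi q hq ↔ p < q := by
  rw [← not_le, ← not_le, tG_le]

lemma tG_congr {p q : Z} {hp : Pow2 p} {hq : Pow2 q} (h : p = q) : tG i hi p hp = tG i hi q hq := by
  subst h; rfl

lemma tG_mul {p q : Z} (hp : Pow2 p) (hq : Pow2 q) :
    tG i hi (p * q) (hp.mul hq) = tG i hi p hp + tG i hi q hq := by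
  apply Subtype.ext
  apply pval_injective
  rw [AddSubgroup.coe_add, pval_add, pval_tG, pval_tG, pval_tG, map_mul]

lemma tG_pow {p : Z} (hp : Pow2 p) (n : ℕ) :
    tG i hi (p ^ n) (hp.pow n) = n • tG i hi p hp := by
  apply Subtype.ext
  apply pval_injective
  rw [AddSubgroup.coe_nsmul, pval_nsmul, pval_tG, pval_tG, map_pow]

lemma tG_one : tG i hi 1 pow2_one = 0 := by
  apply Subtype.ext
  apply pval_injective
  rw [pval_tG, map_one]
  rfl

lemma tG_nonneg {p : Z} (hp : Pow2 p) : 0 ≤ tG i hi p hp := by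
  rw [← tG_one, tG_le]
  exact hp.one_le

lemma exists_tG {g : G2 i hi} (hg : 0 ≤ g) : ∃ (p : Z) (hp : Pow2 p), g = tG i hi p hp := by
  obtain ⟨g, p, hp, h | h⟩ := g
  · exact ⟨p, hp, Subtype.ext (pval_injective h)⟩
  · -- then `i p ≤ 1`
    have h1 : (1 : R) ≤ pval g := hg
    have h2 : (0 : R) < i p := by have := hi hp.pos; rwa [map_zero] at this
    rw [h] at h1
    have h3 : i p ≤ 1 := by
      have := (one_le_inv₀ h2).mp h1
      exact this
    rw [← map_one i] at h3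
    have h4 : p = 1 := le_antisymm (hi.le_iff_le.mp h3) hp.one_le
    refine ⟨1, pow2_one, Subtype.ext (pval_injective ?_)⟩
    show pval g = i 1
    rw [h, h4, map_one, inv_one]

lemma exists_tG_abs (g : G2 i hi) : ∃ (p : Z) (hp : Pow2 p), |g| = tG i hi p hp :=
  exists_tG (abs_nonneg g)

lemma mk_tG_lt {p q : Z} {hp : Pow2 p} {hq : Pow2 q} :
    ArchimedeanClass.mk (tG i hi p hp) < ArchimedeanClass.mk (tG i hi q hq) ↔
      ∀ n : ℕ, q ^ n < p := by
  have e1 : |tG i hi p hp| = tG i hi p hp := abs_of_nonneg (tG_nonneg hp)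
  have e2 : |tG i hi q hq| = tG i hi q hq := abs_of_nonneg (tG_nonneg hq)
  rw [ArchimedeanClass.mk_lt_mk, e1, e2]
  apply forall_congr'
  intro n
  rw [← tG_pow, tG_lt]

lemma mk_tG_le {p q : Z} {hp : Pow2 p} {hq : Pow2 q} :
    ArchimedeanClass.mk (tG i hi p hp) ≤ ArchimedeanClass.mk (tG i hi q hq) ↔
      ∃ n : ℕ, q ≤ p ^ n := by
  have e1 : |tG i hi p hp| = tG i hi p hp := abs_of_nonneg (tG_nonneg hp)
  have e2 : |tG i hi q hq| = tG i hi q hq := abs_of_nonneg (tG_nonneg hq)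
  rw [ArchimedeanClass.mk_le_mk, e1, e2]
  apply exists_congr
  intro n
  rw [← tG_pow, tG_le]

end G

end Pool.Agent.Lib_helper35.EIP
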