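import Mathlib
import Pool.Agent.Lib_helper35.EIP.RichG

/-!
# The group of powers of two is rich (continued)
-/

set_option autoImplicit false
set_option linter.unusedSectionVars false

namespace Pool.Agent.Lib_helper35.EIP

universe u

open ArchimedeanClass

section G

variable {Z : Type u} [CommRing Z] [LinearOrder Z] [IsStrictOrderedRing Z] [BArith Z]
variable {R : Type u} [Field R] [LinearOrder R] [IsStrictOrderedRing R]
variable {i : Z →+* R} {hi : StrictMono i}

lemma exists_nat_resid (z : Z) {n : ℕ} (hn : 0 < n) :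
    ∃ (j : Z) (k : ℕ), k < n ∧ z = n * j + k := by
  obtain ⟨q, r, hr, hrn, e⟩ := exists_divMod z (b := (n : Z)) (by exact_mod_cast hn)
  obtain ⟨k, _, hk⟩ := exists_nat_of_le hr hrn.le
  refine ⟨q, k, ?_, by rw [e, hk]; ring⟩
  rw [hk] at hrn
  exact_mod_cast hrn

lemma resG_pos (hnpb : NPB Z) {p : Z} (hp : Pow2 p) :
    ∃ s ∈ ResZ Z, ∀ n : ℕ, 0 < n → DvdBy n (tG i hi p hp - s n • tG i hi 2 pow2_two) := by
  obtain ⟨ω, hω⟩ := hnpb.exists_infin
  obtain ⟨X, N, B, f, hf, _, hX, hX2⟩ := hnpb.setup hp.one_le hω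
  have hpX : p ≤ X := by simpa using hX 1
  obtain ⟨K, hK, hKN, hdiv⟩ := exists_divisible hf.inf_N
  obtain ⟨j₀, q, hj0, hjK, hq, hqp, hpq⟩ := hf.repr hK.pos hKN hX2 p hp hpX
  have hex : ∀ n : ℕ, ∃ k : ℤ, 0 < n → (DvdBy n (j₀ - k • (1 : Z)) ∧
      DvdBy n (tG i hi p hp - k • tG i hi 2 pow2_two)) := by
    intro n
    rcases Nat.eq_zero_or_pos n with h0 | h0
    · exact ⟨0, fun h => by omega⟩
    · obtain ⟨j, k, hk, e⟩ := exists_nat_resid j₀ h0
      refine ⟨k, fun _ => ⟨⟨j, ?_⟩, ?_⟩⟩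
      · rw [e]; simp
      · obtain ⟨c, hc0, hc⟩ := hdiv n h0
        have hn0 : (0 : Z) < n := by exact_mod_cast h0
        have hj : 0 ≤ j := by
          by_contra hcon
          push Not at hcon
          have h1 : j ≤ -1 := by
            have := lt_iff_add_one_le'.mp hcon
            linarith
          have h2 : (k : Z) < n := by exact_mod_cast hk
          nlinarith
        have hkk : (0 : Z) ≤ k := by positivity
        have hnj : (n : Z) * j ≤ N := by linarith
        have hjN : j ≤ N := by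
          have : (1 : Z) ≤ n := by exact_mod_cast h0
          nlinarith
        have hcN : c ≤ N := by
          have : (1 : Z) ≤ n := by exact_mod_cast h0
          nlinarith
        have e1 : f 2 j₀ = 2 ^ k * f 2 j ^ n := by
          rw [e, hf.add zero_le_two hX2 (by positivity) hkk (by linarith), hf.natCast zero_le_two hX2,
            hf.nsmul zero_le_two hX2 hj n hnj]
          ring
        have e2 : f q K = f q c ^ n := by
          rw [hc, hf.nsmul hq.pos.le (hqp.trans hpX) hc0.le n (by rw [← hc]; exact hKN)]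
        have hP1 : Pow2 (f 2 j) := hf.pow2 pow2_two hX2 hj hjN
        have hP2 : Pow2 (f q c) := hf.pow2 hq (hqp.trans hpX) hc0.le hcN
        have e3 : p = 2 ^ k * (f 2 j * f q c) ^ n := by
          rw [hpq, e1, e2]; ring
        refine ⟨tG i hi _ (hP1.mul hP2), ?_⟩
        have e4 : tG i hi p hp = k • tG i hi 2 pow2_two + n • tG i hi _ (hP1.mul hP2) := by
          rw [← tG_pow, ← tG_pow, ← tG_mul]
          exact tG_congr e3
        rw [e4, natCast_zsmul, add_sub_cancel_left]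
  choose s hs using hex
  exact ⟨s, ⟨j₀, fun n hn => (hs n hn).1⟩, fun n hn => (hs n hn).2⟩

lemma ResZ_neg {s : ℕ → ℤ} (hs : s ∈ ResZ Z) : -s ∈ ResZ Z := by
  have h0 := ResZ_sub s hs s hs
  have := ResZ_sub _ h0 s hs
  rwa [sub_self, zero_sub] at this

lemma two_le_of_mk_le {p : Z} {hp : Pow2 p}
    (h : mk (tG i hi p hp) ≤ mk (tG i hi 2 pow2_two)) : 2 ≤ p := by
  obtain ⟨n, hn⟩ := mk_tG_le.mp h
  by_contra hcon
  push Not at hcon
  have h1 : p ≤ 1 := by
    have := lt_iff_add_one_le'.mp hcon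
    linarith
  have h2 : p = 1 := le_antisymm h1 hp.one_le
  rw [h2, one_pow] at hn
  linarith

lemma ratioG_mem_pos (hnpb : NPB Z) {α β : Z} (hα : Pow2 α) (hβ : Pow2 β)
    (hbig : ∀ n : ℕ, 2 ^ n < β) {r : ℝ} (hr : IsRatio (tG i hi α hα) (tG i hi β hβ) r) :
    r ∈ kZ Z := by
  have hβ2 : 2 ≤ β := by have := hbig 1; rw [pow_one] at this; exact this.le
  have hb0 : 0 < tG i hi β hβ := by
    rw [← tG_one, tG_lt]; linarith
  obtain ⟨m, hm⟩ := mk_tG_le.mp (hr.bounded hb0)
  obtain ⟨ω, hω⟩ := hnpb.exists_infin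
  have hαβ : 1 ≤ α * β := (hα.mul hβ).one_le
  obtain ⟨X, N, B, f, hf, _, hX, hX2⟩ := hnpb.setup hαβ hω
  have hαX : ∀ k : ℕ, α ^ k ≤ X := fun k =>
    (pow_le_pow_left₀ hα.pos.le (by have := hα.pos; have := hβ.one_le; nlinarith) k).trans (hX k)
  have hβX : ∀ k : ℕ, β ^ k ≤ X := fun k =>
    (pow_le_pow_left₀ hβ.pos.le (by have := hβ.pos; have := hα.one_le; nlinarith) k).trans (hX k)
  have hαX1 : α ≤ X := by simpa using hαX 1
  have hβX1 : β ≤ X := by simpa using hβX 1
  obtain ⟨s, hs, hsN⟩ := exists_infin_sq_le hf.inf_N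
  have hs0 := hs.pos
  have hs1 : 1 ≤ s := BArith.discrete s hs0
  have hks : ∀ k : ℕ, (k : Z) * s ≤ N := fun k => by
    have := hs k
    nlinarith
  have hsN' : s ≤ N := by simpa using hks 1
  -- the logarithm
  have hfα1 : 1 ≤ f α s := hf.one_le hα.one_le hαX1 hs0.le hsN'
  have hfβ : β ≤ f β s := hf.le_self_pow hβ.one_le hβX1 hs1 hsN'
  have hW : f α s < 1 * f β (((m + 1 : ℕ) : Z) * s) := by
    rw [one_mul, hf.nsmul hβ.pos.le hβX1 hs0.le (m + 1) (hks _)]
    have h1 : f α s ≤ f (β ^ m) s := hf.mono_base hα.pos.le hm (hβX m) hs0.le hsN'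
    rw [hf.pow_base hβ.one_le hs0.le hsN' m (hβX m)] at h1
    have h2 : 0 < f β s ^ m := by
      have : 0 < f β s := by linarith
      positivity
    rw [pow_succ]
    nlinarith
  obtain ⟨P, hP0, hPn, hP1, hP2⟩ := hf.exists_log hβ.pos.le hβX1 (by positivity) (hks (m + 1)) hfα1 hW
  rw [one_mul] at hP1 hP2
  have hPs : ∀ k : ℕ, (k : Z) * P ≤ N := fun k => by
    have h1 := hs (k * (m + 1))
    push_cast at h1 hPn
    have h2 : (0 : Z) ≤ k := by positivity
    calc (k : Z) * P ≤ k * ((m + 1) * s) := mul_le_mul_of_nonneg_left hPn.le h2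
      _ = (k * (m + 1)) * s := by ring
      _ ≤ s * s := by nlinarith
      _ ≤ N := hsN
  have hP1s : ∀ k : ℕ, (k : Z) * (P + 1) ≤ N := fun k => by
    have h1 := hs (k * (m + 1))
    push_cast at h1 hPn
    have h2 : (0 : Z) ≤ k := by positivity
    have h3 := lt_iff_add_one_le'.mp hPn
    calc (k : Z) * (P + 1) ≤ k * ((m + 1) * s) := mul_le_mul_of_nonneg_left h3 h2
      _ = (k * (m + 1)) * s := by ring
      _ ≤ s * s := by nlinarith
      _ ≤ N := hsN
  have hP1N : P + 1 ≤ N := by simpa using hP1s 1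
  refine ⟨P, s, hs, IsRatio.of_approx hs0 fun p q hq => ⟨fun h => ?_, fun h => ?_⟩⟩
  · refine ⟨q • (1 : Z), ?_, ?_⟩
    · rw [← natCast_zsmul, mk_smul _ (by exact_mod_cast hq.ne')]
      exact (infin_iff hs0).mpr hs
    · simp only [zsmul_eq_mul, nsmul_eq_mul, mul_one]
      have hq0 : (0 : Z) < q := by exact_mod_cast hq
      rcases lt_or_ge p 0 with hp | hp
      · have : (p : Z) < 0 := by exact_mod_cast hp
        nlinarith
      · obtain ⟨p', rfl⟩ := Int.eq_ofNat_of_zero_le hp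
        have h1 := (hr p' q hq).1 h
        rw [natCast_zsmul, ← tG_pow, ← tG_pow, tG_le] at h1
        by_contra hcon
        push Not at hcon
        push_cast at hcon
        have h2 : f β ((q : Z) * (P + 1)) < f β ((p' : Z) * s) :=
          hf.strictMono_exp hβ2 hβX1 (by positivity) (by linarith) (hks p')
        rw [hf.nsmul hβ.pos.le hβX1 (by linarith) q (hP1s q), hf.nsmul hβ.pos.le hβX1 hs0.le p' (hks p'),
          ← hf.pow_base hβ.one_le hs0.le hsN' p' (hβX p')] at h2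
        have h3 : f (β ^ p') s ≤ f (α ^ q) s :=
          hf.mono_base (by positivity) h1 (hαX q) hs0.le hsN'
        rw [hf.pow_base hα.one_le hs0.le hsN' q (hαX q)] at h3
        have h4 : f α s ^ q ≤ f β (P + 1) ^ q := pow_le_pow_left₀ (by linarith) hP2.le q
        linarith
  · refine ⟨0, by rw [mk_zero]; exact lt_of_lt_of_le ((infin_iff hs0).mpr hs) le_top, ?_⟩
    simp only [zsmul_eq_mul, nsmul_eq_mul, add_zero]
    have hq0 : (0 : Z) < q := by exact_mod_cast hq
    have h1 := (hr p q hq).2 h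
    have hp : 0 ≤ p := by
      by_contra hcon
      push Not at hcon
      have h2 : 0 ≤ q • tG i hi α hα := nsmul_nonneg (tG_nonneg hα) q
      have h3 : p • tG i hi β hβ < (0 : ℤ) • tG i hi β hβ := (zsmul_lt_zsmul_iff_left hb0).mpr hcon
      rw [zero_zsmul] at h3
      exact absurd (h2.trans h1) (not_le.mpr h3)
    obtain ⟨p', rfl⟩ := Int.eq_ofNat_of_zero_le hp
    rw [natCast_zsmul, ← tG_pow, ← tG_pow, tG_le] at h1
    push_cast
    by_contra hcon
    push Not at hcon
    have h2 : f β ((p' : Z) * s) < f β ((q : Z) * P) :=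
      hf.strictMono_exp hβ2 hβX1 (by positivity) hcon (hPs q)
    rw [hf.nsmul hβ.pos.le hβX1 hP0 q (hPs q), hf.nsmul hβ.pos.le hβX1 hs0.le p' (hks p'),
      ← hf.pow_base hβ.one_le hs0.le hsN' p' (hβX p')] at h2
    have h3 : f (α ^ q) s ≤ f (β ^ p') s :=
      hf.mono_base (pow_nonneg hα.pos.le q) h1 (hβX p') hs0.le hsN'
    rw [hf.pow_base hα.one_le hs0.le hsN' q (hαX q)] at h3
    have hfP0 : 0 ≤ f β P := hf.nonneg hβ.pos.le hβX1 hP0 (by linarith)
    have h4 : f β P ^ q ≤ f α s ^ q := pow_le_pow_left₀ hfP0 hP1 q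
    linarith

end G

end Pool.Agent.Lib_helper35.EIP
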