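import Mathlib
import Pool.Agent.Lib_helper35.EIP.RichG2

/-!
# The group of powers of two is rich (end)
-/

set_option autoImplicit false
set_option linter.unusedSectionVars false

namespace Pool.Agent.Lib_helper35.EIP

universe u

open ArchimedeanClass

section G

variable {Z : Type u} [CommRing Z] [LinearOrder Z] [IsStrictOrderedRing Z] [BArith Z]
variable {R : Type u} [Field R] [LinearOrder R] [IsStrictOrderedRing R]
variable {i : Z →+* R} {hi : StrictMono i}

lemma ratioG_ex_pos (hnpb : NPB Z) {β : Z} (hβ : Pow2 β) (hbig : ∀ n : ℕ, 2 ^ n < β)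
    {r : ℝ} (hr0 : 0 < r) (hr : r ∈ kZ Z) : ∃ a, IsRatio a (tG i hi β hβ) r := by
  have hβ2 : 2 ≤ β := by have := hbig 1; rw [pow_one] at this; exact this.le
  have hb0 : 0 < tG i hi β hβ := by
    rw [← tG_one, tG_lt]; linarith
  obtain ⟨ω, hω⟩ := hnpb.exists_infin
  obtain ⟨X, N, B, f, hf, _, hX, hX2⟩ := hnpb.setup hβ.one_le hω
  have hβX1 : β ≤ X := by simpa using hX 1
  obtain ⟨s, hs, hsN, hslt⟩ := hf.overspill_lt zero_le_two hX2 hbig
  have hs0 := hs.pos
  have hs1 : 1 ≤ s := BArith.discrete s hs0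
  have hks : ∀ k : ℕ, (k : Z) * s ≤ s * s := fun k => by
    have := hs k
    nlinarith
  have hsN' : s ≤ N := by have := hks 1; push_cast at this; linarith
  obtain ⟨P, hP⟩ := ratio_ex_Z hs hr
  have hP0 : 0 < P := hP.pos hs0 hr0
  obtain ⟨m, hm⟩ := mk_le_mk.mp (hP.bounded hs0)
  rw [abs_of_pos hP0, abs_of_pos hs0, nsmul_eq_mul] at hm
  have hPs : ∀ k : ℕ, (k : Z) * P ≤ N := fun k => by
    have h1 := hks (k * m)
    push_cast at h1
    have h2 : (0 : Z) ≤ k := by positivity
    calc (k : Z) * P ≤ k * (m * s) := mul_le_mul_of_nonneg_left hm h2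
      _ = (k * m) * s := by ring
      _ ≤ N := h1.trans hsN
  have hPN : P ≤ N := by simpa using hPs 1
  obtain ⟨j, q, hj0, hjs, hq, hqβ, hrep⟩ := hf.repr hs0 hsN' hX2 β hβ hβX1
  have hqX : q ≤ X := hqβ.trans hβX1
  have h2s : ∀ n : ℕ, (f 2 s) ^ n < β := fun n => by
    rw [← hf.nsmul zero_le_two hX2 hs0.le n ((hks n).trans hsN)]
    exact hslt _ (by positivity) (hks n)
  have hj2 : f 2 j ≤ f 2 s := hf.mono_exp (by norm_num) hX2 hj0 hjs.le hsN'
  have hj1 : 1 ≤ f 2 j := hf.one_le (by norm_num) hX2 hj0 (by linarith)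
  have hPj : Pow2 (f 2 j) := hf.pow2 pow2_two hX2 hj0 (by linarith)
  have hPqs : Pow2 (f q s) := hf.pow2 hq hqX hs0.le hsN'
  have hPqP : Pow2 (f q P) := hf.pow2 hq hqX hP0.le hPN
  have he : mk (tG i hi β hβ) < mk (tG i hi _ hPj) := by
    rw [mk_tG_lt]
    intro n
    exact (pow_le_pow_left₀ (by linarith) hj2 n).trans_lt (h2s n)
  have hbsum : tG i hi β hβ = tG i hi _ hPj + tG i hi _ hPqs := by
    rw [← tG_mul]; exact tG_congr hrep
  refine ⟨tG i hi _ hPqP, IsRatio.of_approx hb0 fun p n hn => ⟨fun h => ?_, fun h => ?_⟩⟩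
  · have h1 := (hP p n hn).1 h
    simp only [zsmul_eq_mul, nsmul_eq_mul] at h1
    rcases lt_or_ge p 0 with hp | hp
    · refine ⟨0, by rw [mk_zero]; exact lt_of_lt_of_le he le_top, ?_⟩
      rw [add_zero]
      have h2 : 0 ≤ n • tG i hi _ hPqP := nsmul_nonneg (tG_nonneg hPqP) n
      have h3 : p • tG i hi β hβ < (0 : ℤ) • tG i hi β hβ := (zsmul_lt_zsmul_iff_left hb0).mpr hp
      rw [zero_zsmul] at h3
      exact h3.le.trans h2
    · obtain ⟨p', rfl⟩ := Int.eq_ofNat_of_zero_le hp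
      refine ⟨p' • tG i hi _ hPj, ?_, ?_⟩
      · refine lt_of_lt_of_le he ?_
        rw [← natCast_zsmul]
        exact mk_le_mk_smul _ _
      · push_cast at h1
        have h2 : p' • tG i hi _ hPqs ≤ n • tG i hi _ hPqP := by
          rw [← tG_pow, ← tG_pow, tG_le, ← hf.nsmul hq.pos.le hqX hs0.le p' ((hks p').trans hsN),
            ← hf.nsmul hq.pos.le hqX hP0.le n (hPs n)]
          exact hf.mono_exp hq.one_le hqX (by positivity) h1 (hPs n)
        rw [natCast_zsmul, hbsum, nsmul_add, add_comm]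
        gcongr
  · refine ⟨0, by rw [mk_zero]; exact lt_of_lt_of_le he le_top, ?_⟩
    rw [add_zero]
    have h1 := (hP p n hn).2 h
    simp only [zsmul_eq_mul, nsmul_eq_mul] at h1
    have hn0 : (0 : Z) < n := by exact_mod_cast hn
    have hp : 0 ≤ p := by
      by_contra hcon
      push Not at hcon
      have h2 : (p : Z) < 0 := by exact_mod_cast hcon
      have h3 : 0 < (n : Z) * P := mul_pos hn0 hP0
      nlinarith
    obtain ⟨p', rfl⟩ := Int.eq_ofNat_of_zero_le hp
    push_cast at h1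
    rw [natCast_zsmul]
    have h2 : n • tG i hi _ hPqP ≤ p' • tG i hi _ hPqs := by
      rw [← tG_pow, ← tG_pow, tG_le, ← hf.nsmul hq.pos.le hqX hs0.le p' ((hks p').trans hsN),
        ← hf.nsmul hq.pos.le hqX hP0.le n (hPs n)]
      exact hf.mono_exp hq.one_le hqX (by positivity) h1 ((hks p').trans hsN)
    refine h2.trans ?_
    rw [hbsum, nsmul_add]
    have : 0 ≤ p' • tG i hi _ hPj := nsmul_nonneg (tG_nonneg _) _
    exact le_add_of_nonneg_left this

theorem rich_G (hnpb : NPB Z) : Rich (G2 i hi) (tG i hi 2 pow2_two) (kZ Z) (ResZ Z) True where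
  u_pos := by
    rw [← tG_one, tG_lt]; norm_num
  res := by
    intro a
    rcases le_total 0 a with h | h
    · obtain ⟨p, hp, rfl⟩ := exists_tG h
      exact resG_pos hnpb hp
    · obtain ⟨p, hp, h1⟩ := exists_tG (neg_nonneg.mpr h)
      obtain ⟨s, hs, hs'⟩ := resG_pos (i := i) (hi := hi) hnpb hp
      refine ⟨-s, ResZ_neg hs, fun n hn => ?_⟩
      have : a - (-s) n • tG i hi 2 pow2_two = -(tG i hi p hp - s n • tG i hi 2 pow2_two) := by
        rw [← h1, Pi.neg_apply, neg_zsmul]; abel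
      rw [this]
      exact (hs' n hn).neg
  discrete := by
    intro _ a ha
    obtain ⟨p, hp, h1⟩ := exists_tG_abs a
    rw [← mk_abs a, h1] at ha
    obtain ⟨n, hn⟩ := mk_tG_le.mp ha
    have hfin : ¬ Infin p := by
      intro h
      have := h (2 ^ n)
      push_cast at this
      exact absurd hn (not_le.mpr this)
    obtain ⟨k, hk⟩ := hp.eq_two_pow hfin
    have h2 : |a| = k • tG i hi 2 pow2_two := by
      rw [h1, ← tG_pow]; exact tG_congr hk
    rcases abs_choice a with h | h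
    · exact ⟨k, by rw [← h, h2, natCast_zsmul]⟩
    · refine ⟨-k, ?_⟩
      have : a = -|a| := by rw [h, neg_neg]
      rw [this, h2, neg_zsmul, natCast_zsmul]
  bounded h := absurd trivial h
  divisible h := absurd trivial h
  ratio_mem := by
    intro b hb hbig a r hr
    obtain ⟨β, hβ, rfl⟩ := exists_tG hb.le
    have hbig' := mk_tG_lt.mp (hbig trivial)
    rcases le_total 0 a with h | h
    · obtain ⟨α, hα, rfl⟩ := exists_tG h
      exact ratioG_mem_pos hnpb hα hβ hbig' hr
    · obtain ⟨α, hα, h1⟩ := exists_tG (neg_nonneg.mpr h)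
      have h2 := hr.neg
      rw [h1] at h2
      have := kZ_neg (ratioG_mem_pos hnpb hα hβ hbig' h2)
      rwa [neg_neg] at this
  ratio_ex := by
    intro b hb hbig r hr
    obtain ⟨β, hβ, rfl⟩ := exists_tG hb.le
    have hbig' := mk_tG_lt.mp (hbig trivial)
    rcases lt_trichotomy r 0 with h | h | h
    · obtain ⟨a, ha⟩ := ratioG_ex_pos (i := i) (hi := hi) hnpb hβ hbig' (r := -r) (by linarith)
        (kZ_neg hr)
      refine ⟨-a, ?_⟩
      have := ha.neg
      rwa [neg_neg] at this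
    · exact ⟨0, by rw [h]; exact IsRatio.zero_left hb⟩
    · exact ratioG_ex_pos hnpb hβ hbig' h hr
  dens := by
    intro b c hb hcb
    obtain ⟨β, hβ, hb1⟩ := exists_tG_abs b
    obtain ⟨γ, hγ, hc1⟩ := exists_tG_abs c
    have hbu := hb trivial
    rw [← mk_abs b, hb1] at hbu
    rw [← mk_abs b, hb1, ← mk_abs c, hc1] at hcb
    rw [← mk_abs b, hb1, ← mk_abs c, hc1]
    have hβ2 := two_le_of_mk_le hbu
    have hlt := mk_tG_lt.mp hcb
    obtain ⟨ω, hω⟩ := hnpb.exists_infin
    obtain ⟨X, N, B, f, hf, _, hX, hX2⟩ := hnpb.setup hβ.one_le hω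
    have hβX1 : β ≤ X := by simpa using hX 1
    obtain ⟨s, hs, hsN, hslt⟩ := hf.overspill_lt hβ.pos.le hβX1 hlt
    have hs0 := hs.pos
    have hks : ∀ k : ℕ, (k : Z) * s ≤ s * s := fun k => by
      have := hs k
      nlinarith
    have hsN' : s ≤ N := by have := hks 1; push_cast at this; linarith
    refine ⟨tG i hi (f β s) (hf.pow2 hβ hβX1 hs0.le hsN'), ?_, ?_⟩
    · rw [mk_tG_lt]
      intro n
      rw [← hf.nsmul hβ.pos.le hβX1 hs0.le n ((hks n).trans hsN)]
      exact hslt _ (by positivity) (hks n)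
    · rw [mk_tG_lt]
      intro n
      rw [← hf.natCast hβ.pos.le hβX1]
      exact hf.strictMono_exp hβ2 hβX1 (by positivity) (hs n) hsN'
  unb := by
    intro _ b
    obtain ⟨β, hβ, hb1⟩ := exists_tG_abs b
    obtain ⟨x, hx⟩ := hnpb (2 * β)
    have hx1 : 1 ≤ x := by have := hx 0; rw [pow_zero] at this; exact this.le
    obtain ⟨p, hp, hpx, hxp⟩ := exists_pow2_le hx1
    refine ⟨tG i hi p hp, ?_⟩
    rw [← mk_abs b, hb1, mk_tG_lt]
    intro n
    have h1 := hx (n + 1)
    have h2 : (2 * β) ^ (n + 1) < 2 * p := h1.trans hxp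
    have h3 : 2 * β ^ n ≤ (2 * β) ^ (n + 1) := by
      rw [pow_succ, mul_pow]
      have h4 : (1 : Z) ≤ 2 ^ n := one_le_pow₀ (by norm_num)
      have h5 : (1 : Z) ≤ β := hβ.one_le
      have h6 : (1 : Z) ≤ β ^ n := one_le_pow₀ h5
      calc 2 * β ^ n = 1 * β ^ n * (2 * 1) := by ring
        _ ≤ 2 ^ n * β ^ n * (2 * β) := by gcongr
    linarith
  res_ex := by
    rintro s ⟨z, hz⟩ b hb hbig
    obtain ⟨β, hβ, rfl⟩ := exists_tG hb.le
    have hbig' := mk_tG_lt.mp (hbig trivial)
    obtain ⟨ω, hω⟩ := hnpb.exists_infin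
    obtain ⟨X, N, B, f, hf, _, hX, hX2⟩ := hnpb.setup hβ.one_le hω
    obtain ⟨w, hw, hwN, hwlt⟩ := hf.overspill_lt zero_le_two hX2 hbig'
    obtain ⟨K, hK, hKw, hdiv⟩ := exists_divisible hw
    obtain ⟨q, t, ht0, htK, e⟩ := exists_divMod z hK.pos
    have hkw : ∀ k : ℕ, (k : Z) * w ≤ w * w := fun k => by
      have := hw k
      have := hw.pos
      nlinarith
    have hkt : ∀ k : ℕ, (k : Z) * t ≤ w * w := fun k =>
      (mul_le_mul_of_nonneg_left (by linarith) (by positivity)).trans (hkw k)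
    have htN : t ≤ N := by have := hkt 1; push_cast at this; linarith
    refine ⟨tG i hi (f 2 t) (hf.pow2 pow2_two hX2 ht0 htN), ?_, fun n hn => ?_⟩
    · rw [mk_tG_lt]
      intro n
      rw [← hf.nsmul zero_le_two hX2 ht0 n ((hkt n).trans hwN)]
      exact hwlt _ (by positivity) (hkt n)
    · obtain ⟨j, k, hk, e1⟩ := exists_nat_resid t hn
      have hn0 : (0 : Z) < n := by exact_mod_cast hn
      have hj : 0 ≤ j := by
        by_contra hcon
        push Not at hcon
        have h1 : j ≤ -1 := by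
          have := lt_iff_add_one_le'.mp hcon
          linarith
        have h2 : (k : Z) < n := by exact_mod_cast hk
        nlinarith
      have hkk : (0 : Z) ≤ k := by positivity
      have hnj : (n : Z) * j ≤ N := by linarith
      have hjN : j ≤ N := by
        have : (1 : Z) ≤ n := by exact_mod_cast hn
        nlinarith
      have e2 : f 2 t = 2 ^ k * f 2 j ^ n := by
        rw [e1, hf.add zero_le_two hX2 (by positivity) hkk (by linarith), hf.natCast zero_le_two hX2,
          hf.nsmul zero_le_two hX2 hj n hnj]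
        ring
      -- `k ≡ s n` modulo `n`
      obtain ⟨c, _, hc⟩ := hdiv n hn
      have h3 : DvdBy n (((k : ℤ) - s n) • (1 : Z)) := by
        have : ((k : ℤ) - s n) • (1 : Z) = (z - s n • (1 : Z)) - n • (q * c + j) := by
          rw [e, e1, hc, nsmul_eq_mul, sub_zsmul, natCast_zsmul]
          simp only [nsmul_eq_mul, mul_one]
          ring
        rw [this]
        exact (hz n hn).sub ⟨_, rfl⟩
      have h4 : (n : ℤ) ∣ (k : ℤ) - s n :=
        (rich_dvdBy_iff (rich_Z hnpb.exists_infin) trivial hn).mp h3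
      obtain ⟨l, hl⟩ := h4
      have hPj : Pow2 (f 2 j) := hf.pow2 pow2_two hX2 hj hjN
      refine ⟨l • tG i hi 2 pow2_two + tG i hi _ hPj, ?_⟩
      have e3 : tG i hi (f 2 t) (hf.pow2 pow2_two hX2 ht0 htN) =
          k • tG i hi 2 pow2_two + n • tG i hi _ hPj := by
        rw [← tG_pow, ← tG_pow, ← tG_mul]
        exact tG_congr e2
      rw [e3, nsmul_add, add_sub_right_comm]
      congr 1
      rw [← natCast_zsmul (a := tG i hi 2 pow2_two) (n := k), sub_eq_add_neg, ← sub_zsmul, hl, mul_zsmul, natCast_zsmul]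

end G

end Pool.Agent.Lib_helper35.EIP
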