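import Mathlib
import Pool.Agent.Lib_helper35.EIP.RichG

/-!
# The field of standard parts is closed under exponentials and logarithms
-/

set_option autoImplicit false
set_option linter.unusedSectionVars false

namespace Pool.Agent.Lib_helper35.EIP

universe u

open ArchimedeanClass

section stdpart

variable {Z : Type u} [CommRing Z] [LinearOrder Z] [IsStrictOrderedRing Z]
variable {R : Type u} [Field R] [LinearOrder R] [IsStrictOrderedRing R]

lemma isRatio_map {i : Z →+* R} (hi : StrictMono i) {a b : Z} {r : ℝ} :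
    IsRatio (i a) (i b) r ↔ IsRatio a b r := by
  unfold IsRatio
  refine forall_congr' fun p => forall_congr' fun q => forall_congr' fun _ => ?_
  have e1 : p • i b ≤ q • i a ↔ p • b ≤ q • a := by
    rw [← map_zsmul, ← map_nsmul, hi.le_iff_le]
  have e2 : q • i a ≤ p • i b ↔ q • a ≤ p • b := by
    rw [← map_zsmul, ← map_nsmul, hi.le_iff_le]
  rw [e1, e2]

lemma isRatio_map_div {i : Z →+* R} (hi : StrictMono i) {a b : Z} (hb : 0 < b) {r : ℝ} :
    IsRatio (i a / i b) 1 r ↔ IsRatio a b r := by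
  have hb' : 0 < i b := by rw [← map_zero i]; exact hi hb
  rw [← isRatio_iff_div hb', isRatio_map hi]

variable (R) in
/-- Standard parts of finite elements of the field. -/
def kR : Set ℝ := {r | ∃ x : R, IsRatio x 1 r}

lemma pow_lt_of_ratio {i : Z →+* R} (hi : StrictMono i) {u V : Z} (hV : 0 < V) {s : ℝ}
    (h : IsRatio u V s) {A B q : ℕ} (hAB : (A : ℝ) < B * s ^ q) : (A : Z) * V ^ q < B * u ^ q := by
  have hV' : 0 < i V := by rw [← map_zero i]; exact hi hV
  have h1 := (((isRatio_map_div hi hV).mpr h).pow_one q)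
  have h2 := (IsRatio.rat (R := R) (B : ℚ)).mul_one h1
  have h3 := h2.lt_of_lt (t := (A : ℚ)) (by push_cast; exact hAB)
  push_cast at h3
  rw [div_pow, mul_div_assoc', lt_div_iff₀ (by positivity)] at h3
  apply hi.lt_iff_lt.mp
  simpa using h3

lemma pow_gt_of_ratio {i : Z →+* R} (hi : StrictMono i) {u V : Z} (hV : 0 < V) {s : ℝ}
    (h : IsRatio u V s) {A B q : ℕ} (hAB : B * s ^ q < (A : ℝ)) : B * u ^ q < (A : Z) * V ^ q := by
  have hV' : 0 < i V := by rw [← map_zero i]; exact hi hV
  have h1 := (((isRatio_map_div hi hV).mpr h).pow_one q)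
  have h2 := (IsRatio.rat (R := R) (B : ℚ)).mul_one h1
  have h3 := h2.gt_of_gt (t := (A : ℚ)) (by push_cast; exact hAB)
  push_cast at h3
  rw [div_pow, mul_div_assoc', div_lt_iff₀ (by positivity)] at h3
  apply hi.lt_iff_lt.mp
  simpa using h3

variable [BArith Z]

lemma exists_floor_ratio {i : Z →+* R} (hi : StrictMono i)
    (hfl : ∀ r : R, ∃ z : Z, i z ≤ r ∧ r < i (z + 1)) {V : Z} (hV : Infin V) {x : R} {r : ℝ}
    (hx : IsRatio x 1 r) : ∃ u, IsRatio u V r := by
  have hV0 : 0 < i V := by rw [← map_zero i]; exact hi hV.pos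
  obtain ⟨u, h1, h2⟩ := hfl (x * i V)
  rw [map_add, map_one] at h2
  refine ⟨u, (isRatio_map hi).mp ?_⟩
  have e : i u = x * i V + (i u - x * i V) := by ring
  rw [e]
  apply IsRatio.add_small hV0
  · rw [isRatio_iff_div hV0, mul_div_assoc, div_self hV0.ne', mul_one]
    exact hx
  · rw [mk_lt_mk]
    intro n
    rw [abs_of_pos hV0]
    have h3 : |i u - x * i V| ≤ 1 := abs_le.mpr ⟨by linarith, by linarith⟩
    calc n • |i u - x * i V| ≤ n • (1 : R) := nsmul_le_nsmul_right h3 n
      _ = i n := by simp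
      _ < i V := hi (hV n)

lemma kR_eq {i : Z →+* R} (hi : StrictMono i)
    (hfl : ∀ r : R, ∃ z : Z, i z ≤ r ∧ r < i (z + 1)) (hω : ∃ ω : Z, Infin ω) :
    kR R = kZ Z := by
  ext r
  constructor
  · rintro ⟨x, hx⟩
    obtain ⟨ω, hω⟩ := hω
    obtain ⟨u, hu⟩ := exists_floor_ratio hi hfl hω hx
    exact ⟨u, ω, hω, hu⟩
  · rintro ⟨a, b, hb, h⟩
    exact ⟨i a / i b, (isRatio_map_div hi hb.pos).mpr h⟩

lemma kR_mul {r s : ℝ} (hr : r ∈ kR R) (hs : s ∈ kR R) : r * s ∈ kR R := by
  obtain ⟨x, hx⟩ := hr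
  obtain ⟨y, hy⟩ := hs
  exact ⟨x * y, hx.mul_one hy⟩

lemma kR_neg {r : ℝ} (hr : r ∈ kR R) : -r ∈ kR R := by
  obtain ⟨x, hx⟩ := hr
  exact ⟨-x, hx.neg⟩

lemma kR_inv {r : ℝ} (hr : r ∈ kR R) : r⁻¹ ∈ kR R := by
  rcases lt_trichotomy r 0 with h | h | h
  · obtain ⟨x, hx⟩ := hr
    have := hx.neg.inv_one (by linarith)
    refine ⟨-(-x)⁻¹, ?_⟩
    convert this.neg using 1
    rw [inv_neg, neg_neg]
  · rw [h, inv_zero]
    exact ⟨0, IsRatio.zero_left one_pos⟩
  · obtain ⟨x, hx⟩ := hr
    exact ⟨x⁻¹, hx.inv_one h⟩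

lemma kR_rat (t : ℚ) : (t : ℝ) ∈ kR R := ⟨t, IsRatio.rat t⟩

/-- Logarithms of standard parts larger than one. -/
lemma logb_mem_kZ {i : Z →+* R} (hi : StrictMono i)
    (hnpb : NPB Z) {s : ℝ} (h1 : 1 < s) (hs : s ∈ kZ Z) : Real.logb 2 s ∈ kZ Z := by
  obtain ⟨Y, hY⟩ := hnpb.exists_infin
  obtain ⟨c, hc⟩ : ∃ c : ℕ, s < 2 ^ c := pow_unbounded_of_one_lt s one_lt_two
  obtain ⟨X, N, B, f, hf, hNY, hγX, hX2⟩ := hnpb.setup (γ := 2 * Y) (by
    have := BArith.discrete Y hY.pos
    linarith) hY
  have hY1 : 1 ≤ Y := BArith.discrete Y hY.pos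
  obtain ⟨u, hu⟩ := ratio_ex_Z hY hs
  have huY : Y < u := by
    have := pow_lt_of_ratio hi hY.pos hu (A := 1) (B := 1) (q := 1) (by simpa using h1)
    simpa using this
  have huY2 : u ≤ 2 ^ c * Y := by
    have := pow_gt_of_ratio hi hY.pos hu (A := 2 ^ c) (B := 1) (q := 1) (by simpa using hc)
    simpa using this.le
  have hu1 : 1 ≤ u := hY1.trans huY.le
  have huγ : u ≤ (2 * Y) ^ (c + 1) := by
    refine huY2.trans ?_
    rw [pow_succ, mul_pow]
    have e1 : (1 : Z) ≤ Y ^ c := one_le_pow₀ hY1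
    have e2 : (0 : Z) < 2 ^ c := by positivity
    have e3 : (2 : Z) ^ c ≤ 2 ^ c * Y ^ c := by nlinarith
    have e4 : Y ≤ 2 * Y := by linarith
    exact mul_le_mul e3 e4 (by linarith) (by positivity)
  have huX : ∀ q : ℕ, u ^ q ≤ X := fun q =>
    (pow_le_pow_left₀ (by linarith) huγ q).trans (by rw [← pow_mul]; exact hγX _)
  have hYX : ∀ q : ℕ, Y ^ q ≤ X := fun q =>
    (pow_le_pow_left₀ (by linarith) huY.le q).trans (huX q)
  have hu1X : u ≤ X := by simpa using huX 1
  have hY1X : Y ≤ X := by simpa using hYX 1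
  obtain ⟨M, hM, hMN⟩ := exists_infin_sq_le hf.inf_N
  have hM0 := hM.pos
  have hkM : ∀ k : ℕ, (k : Z) * M ≤ N := fun k =>
    (mul_le_mul_of_nonneg_right (hM k).le hM0.le).trans hMN
  have hM1 : M ≤ N := by simpa using hkM 1
  -- the logarithm
  have hcM : (0 : Z) ≤ c * M := by positivity
  have hcM1 : (c : Z) * M + 1 ≤ N := by
    have := hkM (c + 1)
    push_cast at this
    have := BArith.discrete M hM0
    linarith
  have hfY : 1 ≤ f Y M := hf.one_le hY1 hY1X hM0.le hM1
  obtain ⟨P, hP0, hPc, hP1, hP2⟩ := hf.exists_log (b := 2) (c := f Y M) (W := f u M)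
    (n := c * M + 1) zero_le_two hX2 (by linarith) hcM1
    (hf.mono_base (by linarith) huY.le hu1X hM0.le hM1) (by
      have e1 : f u M ≤ f (2 ^ c * Y) M := hf.mono_base (by linarith) huY2 (by
        calc (2 : Z) ^ c * Y ≤ (2 * Y) ^ (c + 1) := by
              rw [pow_succ, mul_pow]
              have e1 : (1 : Z) ≤ Y ^ c := one_le_pow₀ hY1
              have e2 : (0 : Z) < 2 ^ c := by positivity
              have e3 : (2 : Z) ^ c ≤ 2 ^ c * Y ^ c := by nlinarith
              have e4 : Y ≤ 2 * Y := by linarith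
              exact mul_le_mul e3 e4 (by linarith) (by positivity)
          _ ≤ X := hγX _) hM0.le hM1
      have h2c : (2 : Z) ^ c ≤ X := by
        calc (2 : Z) ^ c ≤ (2 * Y) ^ c := pow_le_pow_left₀ zero_le_two (by linarith) c
          _ ≤ X := hγX c
      rw [hf.mul_base (by positivity) h2c (by linarith) hY1X (by
        calc (2 : Z) ^ c * Y ≤ (2 * Y) ^ (c + 1) := by
              rw [pow_succ, mul_pow]
              have e1 : (1 : Z) ≤ Y ^ c := one_le_pow₀ hY1
              have e2 : (0 : Z) < 2 ^ c := by positivity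
              have e3 : (2 : Z) ^ c ≤ 2 ^ c * Y ^ c := by nlinarith
              have e4 : Y ≤ 2 * Y := by linarith
              exact mul_le_mul e3 e4 (by linarith) (by positivity)
          _ ≤ X := hγX _) hM0.le hM1, hf.pow_base one_le_two hM0.le hM1 c h2c,
        ← hf.nsmul zero_le_two hX2 hM0.le c (hkM c)] at e1
      rw [hf.succ' 2 zero_le_two hX2 (c * M) hcM (by linarith)]
      have e2 : 1 ≤ f 2 (c * M) := hf.one_le one_le_two hX2 hcM (by linarith)
      nlinarith)
  have hPN : P + 1 ≤ N := by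
    have := lt_iff_add_one_le'.mp hPc
    linarith
  have h1P : (1 : Z) ≤ f 2 P := hf.one_le one_le_two hX2 hP0 (by linarith)
  refine ⟨P, M, hM, IsRatio.of_approx hM0 fun p q hq => ⟨fun h => ?_, fun h => ?_⟩⟩
  · refine ⟨q • (1 : Z), ?_, ?_⟩
    · rw [← natCast_zsmul, mk_smul _ (by exact_mod_cast hq.ne')]
      exact (infin_iff hM0).mpr hM
    · simp only [zsmul_eq_mul, nsmul_eq_mul, mul_one]
      have hq0 : (0 : Z) < q := by exact_mod_cast hq
      rcases le_or_gt p 0 with hp | hp
      · have : (p : Z) ≤ 0 := by exact_mod_cast hp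
        nlinarith
      · obtain ⟨p, rfl⟩ := Int.eq_ofNat_of_zero_le hp.le
        have h3 : ((2 ^ p : ℕ) : ℝ) < (1 : ℕ) * s ^ q := by
          push_cast
          rw [one_mul]
          have hs0 : 0 < s := by linarith
          have : (p : ℝ) < Real.logb 2 (s ^ q) := by
            rw [Real.logb_pow]; exact_mod_cast h
          rw [Real.lt_logb_iff_rpow_lt one_lt_two (by positivity), Real.rpow_natCast] at this
          exact this
        have h4 := pow_lt_of_ratio hi hY.pos hu h3
        push_cast at h4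
        rw [one_mul] at h4
        by_contra hcon
        push Not at hcon
        have hpM := hkM p
        have hqP1 : (q : Z) * (P + 1) ≤ p * M := by
          push_cast at hcon
          linarith
        have e1 : f (2 ^ p * Y ^ q) M ≤ f (u ^ q) M := hf.mono_base (by positivity) h4.le (huX q)
          hM0.le hM1
        have h5 : (2 : Z) ^ p ≤ X := by
          calc (2 : Z) ^ p ≤ (2 * Y) ^ p := pow_le_pow_left₀ zero_le_two (by linarith) p
            _ ≤ X := hγX p
        rw [hf.mul_base (by positivity) h5 (by positivity) (hYX q) (h4.le.trans (huX q)) hM0.le hM1,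
          hf.pow_base one_le_two hM0.le hM1 p h5, hf.pow_base hY1 hM0.le hM1 q (hYX q),
          hf.pow_base hu1 hM0.le hM1 q (huX q), ← hf.nsmul zero_le_two hX2 hM0.le p hpM] at e1
        have e2 : (f u M) ^ q < (f Y M * f 2 (P + 1)) ^ q :=
          pow_lt_pow_left₀ hP2 (by have := hf.one_le hu1 hu1X hM0.le hM1; linarith) hq.ne'
        rw [mul_pow, ← hf.nsmul zero_le_two hX2 (by linarith) q (hqP1.trans hpM)] at e2
        have e3 : f 2 (q * (P + 1)) ≤ f 2 (p * M) :=
          hf.mono_exp one_le_two hX2 (by positivity) hqP1 hpM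
        have e4 : 0 < f Y M ^ q := by positivity
        nlinarith
  · refine ⟨0, ?_, ?_⟩
    · rw [mk_zero]
      exact lt_of_lt_of_le ((infin_iff hM0).mpr hM) le_top
    · simp only [zsmul_eq_mul, nsmul_eq_mul, add_zero]
      have hlog : 0 < Real.logb 2 s := Real.logb_pos one_lt_two h1
      have hp : (0 : ℝ) < p := lt_of_le_of_lt (by positivity) h
      have hp' : 0 < p := by exact_mod_cast hp
      obtain ⟨p, rfl⟩ := Int.eq_ofNat_of_zero_le hp'.le
      have h3 : (1 : ℕ) * s ^ q < ((2 ^ p : ℕ) : ℝ) := by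
        push_cast
        rw [one_mul]
        have hs0 : 0 < s := by linarith
        have : Real.logb 2 (s ^ q) < (p : ℝ) := by
          rw [Real.logb_pow]; exact_mod_cast h
        rw [Real.logb_lt_iff_lt_rpow one_lt_two (by positivity), Real.rpow_natCast] at this
        exact this
      have h4 := pow_gt_of_ratio hi hY.pos hu h3
      push_cast at h4
      rw [one_mul] at h4
      by_contra hcon
      push Not at hcon
      push_cast at hcon
      have hpM := hkM p
      have hpM0 : (0 : Z) ≤ p * M := by positivity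
      have h5 : (2 : Z) ^ p ≤ X := by
        calc (2 : Z) ^ p ≤ (2 * Y) ^ p := pow_le_pow_left₀ zero_le_two (by linarith) p
          _ ≤ X := hγX p
      have h6 : (2 : Z) ^ p * Y ^ q ≤ X := by
        have e1 : (1 : Z) ≤ Y ^ p := one_le_pow₀ hY1
        have e2 : (1 : Z) ≤ 2 ^ q := one_le_pow₀ one_le_two
        have e3 : (0 : Z) < 2 ^ p := by positivity
        have e4 : (0 : Z) < Y ^ q := by positivity
        calc (2 : Z) ^ p * Y ^ q ≤ (2 ^ p * Y ^ p) * (2 ^ q * Y ^ q) := by
              apply mul_le_mul <;> nlinarith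
          _ = (2 * Y) ^ (p + q) := by rw [pow_add, mul_pow, mul_pow]
          _ ≤ X := hγX _
      have e1 : f (u ^ q) M ≤ f (2 ^ p * Y ^ q) M := hf.mono_base (by positivity) h4.le h6
        hM0.le hM1
      rw [hf.mul_base (by positivity) h5 (by positivity) (hYX q) h6 hM0.le hM1,
        hf.pow_base one_le_two hM0.le hM1 p h5, hf.pow_base hY1 hM0.le hM1 q (hYX q),
        hf.pow_base hu1 hM0.le hM1 q (huX q), ← hf.nsmul zero_le_two hX2 hM0.le p hpM] at e1
      have e2 : (f Y M * f 2 P) ^ q ≤ (f u M) ^ q :=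
        pow_le_pow_left₀ (by nlinarith) hP1 q
      have e2' : (f Y M) ^ q * (f 2 P) ^ q ≤ f 2 (p * M) * f Y M ^ q := by
        rw [← mul_pow]; exact e2.trans e1
      have e3 : (f 2 P) ^ q ≤ f 2 (p * M) := by
        have e4 : 0 < f Y M ^ q := by positivity
        rw [mul_comm] at e2'
        exact le_of_mul_le_mul_right e2' e4
      -- need `q * P ≤ N`; if not, compare with a smaller multiple
      have hqP : (q : Z) * P ≤ N := by
        have hPM : P ≤ ((c + 1 : ℕ) : Z) * M := by
          have h7 := lt_add_one_iff'.mp hPc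
          push_cast
          linarith
        calc (q : Z) * P ≤ q * (((c + 1 : ℕ) : Z) * M) :=
              mul_le_mul_of_nonneg_left hPM (by positivity)
          _ = ((q * (c + 1) : ℕ) : Z) * M := by push_cast; ring
          _ ≤ N := hkM _
      rw [← hf.nsmul zero_le_two hX2 hP0 q hqP] at e3
      have e5 := hf.strictMono_exp (x := 2) le_rfl hX2 hpM0 hcon hqP
      linarith

end stdpart

end Pool.Agent.Lib_helper35.EIP
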