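import Mathlib
import Pool.Agent.Lib_helper35.EIP.StdPart

/-!
# The group of finite elements is rich
-/

set_option autoImplicit false
set_option linter.unusedSectionVars false

namespace Pool.Agent.Lib_helper35.EIP

universe u

open ArchimedeanClass

section coe

variable {H : Type u} [AddCommGroup H] [LinearOrder H] [IsOrderedAddMonoid H]

lemma isRatio_coe {S : AddSubgroup H} {a b : S} {r : ℝ} :
    IsRatio (a : H) (b : H) r ↔ IsRatio a b r := by
  unfold IsRatio
  refine forall_congr' fun p => forall_congr' fun q => forall_congr' fun _ => ?_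
  rw [← AddSubgroup.coe_zsmul, ← AddSubgroup.coe_nsmul, Subtype.coe_le_coe, Subtype.coe_le_coe]

lemma coe_abs' {S : AddSubgroup H} (a : S) : ((|a| : S) : H) = |(a : H)| := by
  rcases le_total 0 a with h | h
  · rw [abs_of_nonneg h, abs_of_nonneg (by exact_mod_cast h)]
  · rw [abs_of_nonpos h, abs_of_nonpos (by exact_mod_cast h), AddSubgroup.coe_neg]

lemma mk_coe_lt {S : AddSubgroup H} {a b : S} : mk (a : H) < mk (b : H) ↔ mk a < mk b := by
  rw [mk_lt_mk, mk_lt_mk]
  apply forall_congr'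
  intro n
  rw [← coe_abs', ← coe_abs', ← AddSubgroup.coe_nsmul, Subtype.coe_lt_coe]

lemma mk_coe_le {S : AddSubgroup H} {a b : S} : mk (a : H) ≤ mk (b : H) ↔ mk a ≤ mk b := by
  rw [← not_lt, ← not_lt, mk_coe_lt]

end coe

section richO

variable {R : Type u} [Field R] [LinearOrder R] [IsStrictOrderedRing R]

/-- Elements that are bounded by a multiple of `u`. -/
def Fin0 {H : Type u} [AddCommGroup H] [LinearOrder H] [IsOrderedAddMonoid H] (u : H) :
    AddSubgroup H where
  carrier := {x | mk u ≤ mk x}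
  zero_mem' := by simp
  add_mem' := by
    intro a b ha hb
    have ha' : mk u ≤ mk a := ha
    have hb' : mk u ≤ mk b := hb
    exact (le_min ha' hb').trans (min_le_mk_add a b)
  neg_mem' := by
    intro a ha
    show mk u ≤ mk (-a)
    rw [mk_neg]
    exact ha

lemma mem_Fin0 {H : Type u} [AddCommGroup H] [LinearOrder H] [IsOrderedAddMonoid H] {u x : H} :
    x ∈ Fin0 u ↔ mk u ≤ mk x := Iff.rfl

lemma self_mem_Fin0 {H : Type u} [AddCommGroup H] [LinearOrder H] [IsOrderedAddMonoid H] (u : H) :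
    u ∈ Fin0 u := le_refl (mk u)

lemma divisible_Fin0 {H : Type u} [AddCommGroup H] [LinearOrder H] [IsOrderedAddMonoid H] {u : H}
    (h : ∀ a : H, ∀ n : ℕ, 0 < n → DvdBy n a) (a : Fin0 u) {n : ℕ} (hn : 0 < n) : DvdBy n a := by
  obtain ⟨b, hb⟩ := h a n hn
  have hb' : b ∈ Fin0 u := by
    rw [mem_Fin0]
    have h1 := a.2
    rw [mem_Fin0, hb, ← natCast_zsmul, mk_smul _ (by exact_mod_cast hn.ne')] at h1
    exact h1
  exact ⟨⟨b, hb'⟩, Subtype.ext hb⟩

/-- The group of finite elements is rich. -/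
theorem rich_O (hsqrt : ∀ x : R, 0 ≤ x → ∃ y, 0 ≤ y ∧ y * y = x)
    (hε : ∃ ω : R, ∀ n : ℕ, (n : R) < ω) :
    Rich (Fin0 (1 : R)) ⟨1, self_mem_Fin0 1⟩ (kR R) Set.univ False := by
  have hdiv : ∀ a : R, ∀ n : ℕ, 0 < n → DvdBy n a := by
    intro a n hn
    refine ⟨a / n, ?_⟩
    have : (n : R) ≠ 0 := by exact_mod_cast hn.ne'
    rw [nsmul_eq_mul]
    field_simp
  refine ⟨?_, ?_, fun h => h.elim, ?_, ?_, ?_, ?_, ?_, fun h => h.elim, ?_⟩
  · show (0 : R) < 1
    exact one_pos
  · intro a
    refine ⟨0, Set.mem_univ _, fun n hn => ?_⟩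
    rw [Pi.zero_apply, zero_zsmul, sub_zero]
    exact divisible_Fin0 hdiv a hn
  · intro _ a
    rw [← mk_coe_le]
    exact a.2
  · intro _ a n hn
    exact divisible_Fin0 hdiv a hn
  · intro b hb _ a r h
    rw [← isRatio_coe, isRatio_iff_div (by exact_mod_cast hb)] at h
    exact ⟨_, h⟩
  · intro b hb _ r ⟨x, hx⟩
    have hb' : (0 : R) < b := by exact_mod_cast hb
    have h1 : IsRatio (x * b) (b : R) r := by
      rw [isRatio_iff_div hb', mul_div_assoc, div_self hb'.ne', mul_one]
      exact hx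
    have h2 : x * b ∈ Fin0 (1 : R) := by
      rw [mem_Fin0]
      exact (mem_Fin0.mp b.2).trans (h1.bounded hb')
    exact ⟨⟨x * b, h2⟩, isRatio_coe.mp h1⟩
  · intro b c _ hcb
    rw [← mk_coe_lt] at hcb
    obtain ⟨ω, hω⟩ := hε
    have hω0 : 0 < ω := by simpa using hω 0
    have hc0 : 0 < |(c : R)| := by
      rw [abs_pos]
      intro h
      rw [h, mk_zero] at hcb
      exact absurd hcb (not_lt.mpr le_top)
    suffices h : ∃ a : R, mk (c : R) < mk a ∧ mk a < mk (b : R) by
      obtain ⟨a, h1, h2⟩ := h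
      have ha : a ∈ Fin0 (1 : R) := by
        rw [mem_Fin0]
        exact (mem_Fin0.mp c.2).trans h1.le
      exact ⟨⟨a, ha⟩, mk_coe_lt.mp h1, mk_coe_lt.mp h2⟩
    rcases eq_or_ne (b : R) 0 with hb | hb
    · refine ⟨|(c : R)| / ω, ?_, ?_⟩
      · rw [mk_lt_mk]
        intro n
        rw [abs_of_pos (div_pos hc0 hω0), nsmul_eq_mul, mul_div_assoc', div_lt_iff₀ hω0, mul_comm]
        exact mul_lt_mul_of_pos_left (hω n) hc0
      · rw [hb, mk_zero, lt_top_iff_ne_top]
        intro h
        rw [mk_eq_top_iff] at h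
        exact (div_pos hc0 hω0).ne' h
    · have hb0 : 0 < |(b : R)| := abs_pos.mpr hb
      obtain ⟨a, ha, haa⟩ := hsqrt (|(b : R)| * |(c : R)|) (by positivity)
      have key : ∀ n : ℕ, (n : R) * |(b : R)| < |(c : R)| := by
        intro n
        have := mk_lt_mk.mp hcb n
        rwa [nsmul_eq_mul] at this
      refine ⟨a, ?_, ?_⟩
      · rw [mk_lt_mk]
        intro n
        rw [abs_of_nonneg ha, nsmul_eq_mul]
        apply lt_of_mul_self_lt_mul_self₀ hc0.le
        have h1 := key (n * n)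
        push_cast at h1
        calc (n : R) * a * (n * a) = (n * n) * (a * a) := by ring
          _ = (n * n * |(b : R)|) * |(c : R)| := by rw [haa]; ring
          _ < |(c : R)| * |(c : R)| := mul_lt_mul_of_pos_right h1 hc0
      · rw [mk_lt_mk]
        intro n
        rw [abs_of_nonneg ha, nsmul_eq_mul]
        apply lt_of_mul_self_lt_mul_self₀ ha
        have h1 := key (n * n)
        push_cast at h1
        calc (n : R) * |(b : R)| * (n * |(b : R)|) = |(b : R)| * ((n * n) * |(b : R)|) := by ring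
          _ < |(b : R)| * |(c : R)| := mul_lt_mul_of_pos_left h1 hb0
          _ = a * a := haa.symm
  · intro s _ b hb _
    refine ⟨0, ?_, fun n hn => divisible_Fin0 hdiv _ hn⟩
    rw [mk_zero, lt_top_iff_ne_top]
    intro h
    rw [mk_eq_top_iff] at h
    exact hb.ne' h

end richO

end Pool.Agent.Lib_helper35.EIP
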