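import Mathlib
import Pool.Agent.Lib_helper35.EIP.StdPart

/-!
# The field of standard parts is closed under exponentials and logarithms, part 2
-/

set_option autoImplicit false
set_option linter.unusedSectionVars false

namespace Pool.Agent.Lib_helper35.EIP

universe u

open ArchimedeanClass

section stdpart2

variable {Z : Type u} [CommRing Z] [LinearOrder Z] [IsStrictOrderedRing Z]
variable {R : Type u} [Field R] [LinearOrder R] [IsStrictOrderedRing R]
variable [BArith Z]

/-- Exponentials of standard parts. -/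
lemma rpow_mem_kZ {i : Z →+* R} (hi : StrictMono i)
    (hnpb : NPB Z) {ρ : ℝ} (h0 : 0 < ρ) (hρ : ρ ∈ kZ Z) : (2 : ℝ) ^ ρ ∈ kZ Z := by
  obtain ⟨Y, hY⟩ := hnpb.exists_infin
  obtain ⟨c, hc⟩ : ∃ c : ℕ, ρ < c := exists_nat_gt ρ
  obtain ⟨X, N, B, f, hf, hNY, hγX, hX2⟩ := hnpb.setup (γ := 2 * Y) (by
    have := BArith.discrete Y hY.pos
    linarith) hY
  have hY1 : 1 ≤ Y := BArith.discrete Y hY.pos
  have hYX : ∀ q : ℕ, Y ^ q ≤ X := fun q =>
    (pow_le_pow_left₀ (by linarith) (by linarith) q).trans (hγX q)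
  have h2X : ∀ q : ℕ, 2 ^ q ≤ X := fun q =>
    (pow_le_pow_left₀ (by linarith) (by linarith) q).trans (hγX q)
  have hnX : ∀ q : ℕ, (q : Z) ≤ X := fun q => by
    refine le_trans ?_ (h2X q)
    have : q < 2 ^ q := Nat.lt_two_pow_self
    exact_mod_cast this.le
  have hnpX : ∀ p q : ℕ, (p : Z) ^ q ≤ X := fun p q => by
    have := hnX (p ^ q)
    exact_mod_cast this
  have hY1X : Y ≤ X := by simpa using hYX 1
  obtain ⟨M, hM, hMN⟩ := exists_infin_sq_le hf.inf_N
  have hM0 := hM.pos
  have hMge1 : 1 ≤ M := BArith.discrete M hM0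
  have hkM : ∀ k : ℕ, (k : Z) * M ≤ N := fun k =>
    (mul_le_mul_of_nonneg_right (hM k).le hM0.le).trans hMN
  have hM1 : M ≤ N := by simpa using hkM 1
  obtain ⟨P, hP⟩ := ratio_ex_Z hM hρ
  have hP0 : 0 < P := hP.pos hM0 h0
  have hPc : P ≤ c * M := by
    have := (hP c 1 one_pos).2 (by push_cast; linarith)
    simpa using this
  have hqP : ∀ q : ℕ, (q : Z) * P ≤ N := fun q => by
    calc (q : Z) * P ≤ q * ((c : Z) * M) := mul_le_mul_of_nonneg_left hPc (by positivity)
      _ = ((q * c : ℕ) : Z) * M := by push_cast; ring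
      _ ≤ N := hkM _
  have hPN : P ≤ N := by simpa using hqP 1
  have hcY : (2 : Z) ^ c * Y < (2 * Y) ^ (c + 1) := by
    rw [pow_succ, mul_pow]
    have e1 : (1 : Z) ≤ Y ^ c := one_le_pow₀ hY1
    have e2 : (0 : Z) < 2 ^ c := by positivity
    have e3 : (2 : Z) ^ c ≤ 2 ^ c * Y ^ c := by nlinarith
    have e4 : Y < 2 * Y := by linarith
    calc (2 : Z) ^ c * Y < 2 ^ c * (2 * Y) := mul_lt_mul_of_pos_left e4 e2
      _ ≤ 2 ^ c * Y ^ c * (2 * Y) := mul_le_mul_of_nonneg_right e3 (by linarith)
  have hcYX : (2 : Z) ^ c * Y < X := hcY.trans_le (hγX _)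
  have hfY : 1 ≤ f Y M := hf.one_le hY1 hY1X hM0.le hM1
  have hf2P : 1 ≤ f 2 P := hf.one_le one_le_two hX2 hP0.le hPN
  have hW : f 2 P * f Y M ≤ f (2 ^ c * Y) M := by
    rw [hf.mul_base (by positivity) (h2X c) (by linarith) hY1X hcYX.le hM0.le hM1,
      hf.pow_base one_le_two hM0.le hM1 c (h2X c),
      ← hf.nsmul zero_le_two hX2 hM0.le c (hkM c)]
    exact mul_le_mul_of_nonneg_right (hf.mono_exp one_le_two hX2 hP0.le hPc (hkM c)) (by linarith)
  obtain ⟨y, hy0, hyX, hy1, hy2⟩ := hf.exists_root (K := M) (W := f 2 P * f Y M) hMge1 hM1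
    (by positivity) (hW.trans_lt (hf.strictMono_base (by positivity) hcYX le_rfl hMge1 hM1))
  have hyc : y ≤ 2 ^ c * Y := by
    by_contra hcon
    push Not at hcon
    have := hf.strictMono_base (by positivity) hcon hyX.le hMge1 hM1
    linarith
  have hqy : ∀ q : ℕ, (q : Z) * (y + 1) ≤ X := fun q => by
    calc (q : Z) * (y + 1) ≤ 2 ^ q * (2 * Y) ^ (c + 1) := by
          have e1 : (q : Z) ≤ 2 ^ q := by
            have : q < 2 ^ q := Nat.lt_two_pow_self
            exact_mod_cast this.le
          exact mul_le_mul e1 (lt_iff_add_one_le'.mp (hyc.trans_lt hcY)) (by linarith)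
            (by positivity)
      _ ≤ (2 * Y) ^ q * (2 * Y) ^ (c + 1) := by
          apply mul_le_mul_of_nonneg_right _ (by positivity)
          exact pow_le_pow_left₀ zero_le_two (by linarith) q
      _ = (2 * Y) ^ (q + (c + 1)) := (pow_add _ _ _).symm
      _ ≤ X := hγX _
  have hqY : ∀ q : ℕ, (q : Z) * Y ≤ X := fun q => by
    calc (q : Z) * Y ≤ 2 ^ q * (2 * Y) ^ 1 := by
          have e1 : (q : Z) ≤ 2 ^ q := by
            have : q < 2 ^ q := Nat.lt_two_pow_self
            exact_mod_cast this.le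
          exact mul_le_mul e1 (by linarith) (by linarith) (by positivity)
      _ ≤ (2 * Y) ^ q * (2 * Y) ^ 1 := by
          apply mul_le_mul_of_nonneg_right _ (by positivity)
          exact pow_le_pow_left₀ zero_le_two (by linarith) q
      _ = (2 * Y) ^ (q + 1) := (pow_add _ _ _).symm
      _ ≤ X := hγX _
  refine ⟨y, Y, hY, IsRatio.of_approx hY.pos fun p q hq => ⟨fun h => ?_, fun h => ?_⟩⟩
  · refine ⟨q • (1 : Z), ?_, ?_⟩
    · rw [← natCast_zsmul, mk_smul _ (by exact_mod_cast hq.ne')]
      exact (infin_iff hY.pos).mpr hY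
    · simp only [zsmul_eq_mul, nsmul_eq_mul, mul_one]
      have hq0 : (0 : Z) < q := by exact_mod_cast hq
      rcases le_or_gt p 0 with hp | hp
      · have : (p : Z) ≤ 0 := by exact_mod_cast hp
        nlinarith
      · obtain ⟨p, rfl⟩ := Int.eq_ofNat_of_zero_le hp.le
        have hp0 : 0 < p := by exact_mod_cast hp
        push_cast at h ⊢
        have hq0' : (0 : ℝ) < q := by exact_mod_cast hq
        have hp0' : (0 : ℝ) < p := by exact_mod_cast hp0
        -- choose a rational exponent
        have h1 : Real.logb 2 (p / q) < ρ := by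
          rw [Real.logb_lt_iff_lt_rpow one_lt_two (by positivity), div_lt_iff₀ hq0', mul_comm]
          exact h
        obtain ⟨t, ht1, ht2⟩ := exists_rat_btwn (max_lt h1 h0)
        have ht0 : (0 : ℝ) < t := lt_of_le_of_lt (le_max_right _ _) ht1
        have ht1' : Real.logb 2 (p / q) < t := lt_of_le_of_lt (le_max_left _ _) ht1
        have ht0' : 0 < t := by exact_mod_cast ht0
        obtain ⟨a, ha⟩ := Int.eq_ofNat_of_zero_le (Rat.num_pos.mpr ht0').le
        have hb0 : 0 < t.den := t.den_pos
        have htab : (t : ℝ) = a / t.den := by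
          have h5 : (t : ℝ) = t.num / t.den := by exact_mod_cast (Rat.num_div_den t).symm
          rw [h5, ha]
          norm_num
        generalize t.den = b at hb0 htab
        have hb0' : (0 : ℝ) < b := by exact_mod_cast hb0
        -- `p ^ b < q ^ b * 2 ^ a`
        have h2 : p ^ b < q ^ b * 2 ^ a := by
          rw [Real.logb_lt_iff_lt_rpow one_lt_two (by positivity), htab] at ht1'
          have h6 : ((p : ℝ) / q) ^ b < ((2 : ℝ) ^ ((a : ℝ) / b)) ^ b :=
            pow_lt_pow_left₀ ht1' (by positivity) hb0.ne'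
          rw [← Real.rpow_natCast ((2 : ℝ) ^ ((a : ℝ) / b)) b, ← Real.rpow_mul zero_le_two,
            div_mul_cancel₀ _ hb0'.ne', Real.rpow_natCast, div_pow, div_lt_iff₀ (by positivity)] at h6
          rw [mul_comm]
          exact_mod_cast h6
        have h3 : (a : Z) * M ≤ b * P := by
          have := (hP a b hb0).1 (by
            rw [htab, div_lt_iff₀ hb0'] at ht2
            push_cast
            linarith)
          simpa using this
        have h4 : (f p M) ^ b ≤ (f q M * f 2 P) ^ b := by
          have e1 : f ((p : Z) ^ b) M ≤ f ((q : Z) ^ b * 2 ^ a) M :=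
            hf.mono_base (by positivity) (by exact_mod_cast h2.le) (by exact_mod_cast hnX _)
              hM0.le hM1
          have e3 : (q : Z) ^ b * 2 ^ a ≤ X := by exact_mod_cast hnX (q ^ b * 2 ^ a)
          rw [hf.mul_base (by positivity) (hnpX q b) (by positivity) (h2X a) e3 hM0.le hM1,
            hf.pow_base one_le_two hM0.le hM1 a (h2X a),
            hf.pow_base (by exact_mod_cast hq) hM0.le hM1 b (hnpX q b),
            hf.pow_base (by exact_mod_cast hp0) hM0.le hM1 b (hnpX p b),
            ← hf.nsmul zero_le_two hX2 hM0.le a (hkM a)] at e1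
          have e2 : f 2 (a * M) ≤ f 2 (b * P) :=
            hf.mono_exp one_le_two hX2 (by positivity) h3 (hqP b)
          rw [hf.nsmul zero_le_two hX2 hP0.le b (hqP b)] at e2
          have e4 : (0 : Z) ≤ f q M ^ b := pow_nonneg
            (hf.nonneg (by positivity) (hnX q) hM0.le hM1) b
          calc (f p M) ^ b ≤ (f q M) ^ b * f 2 (a * M) := e1
            _ ≤ (f q M) ^ b * (f 2 P) ^ b := mul_le_mul_of_nonneg_left e2 e4
            _ = (f q M * f 2 P) ^ b := (mul_pow _ _ _).symm
        have h5 : f p M ≤ f q M * f 2 P := by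
          by_contra hcon
          push Not at hcon
          exact absurd h4 (not_le.mpr (pow_lt_pow_left₀ hcon (mul_nonneg
            (hf.nonneg (by positivity) (hnX q) hM0.le hM1) (by linarith)) hb0.ne'))
        by_contra hcon
        push Not at hcon
        have h6 : (q : Z) * (y + 1) ≤ p * Y := by linarith
        have h7 : f (q * (y + 1)) M ≤ f (p * Y) M :=
          hf.mono_base (by positivity) h6 (hqY p) hM0.le hM1
        have hy1X : y + 1 ≤ X := by simpa using hqy 1
        rw [hf.mul_base (by positivity) (hnX q) (by linarith) hy1X (hqy q) hM0.le hM1,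
          hf.mul_base (by positivity) (hnX p) (by linarith) hY1X (hqY p) hM0.le hM1] at h7
        have h8 : (1 : Z) ≤ f q M := hf.one_le (by exact_mod_cast hq) (hnX q) hM0.le hM1
        have h9 : f q M * (f 2 P * f Y M) < f q M * f (y + 1) M :=
          mul_lt_mul_of_pos_left hy2 (by linarith)
        have h10 : f p M * f Y M ≤ f q M * (f 2 P * f Y M) := by
          rw [← mul_assoc]
          exact mul_le_mul_of_nonneg_right h5 (by linarith)
        linarith
  · refine ⟨0, ?_, ?_⟩
    · rw [mk_zero]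
      exact lt_of_lt_of_le ((infin_iff hY.pos).mpr hY) le_top
    · simp only [zsmul_eq_mul, nsmul_eq_mul, add_zero]
      have hq0 : (0 : Z) < q := by exact_mod_cast hq
      have hq0' : (0 : ℝ) < q := by exact_mod_cast hq
      have hp : (0 : ℝ) < p := lt_of_le_of_lt (by positivity) h
      have hp' : 0 < p := by exact_mod_cast hp
      obtain ⟨p, rfl⟩ := Int.eq_ofNat_of_zero_le hp'.le
      have hp0 : 0 < p := by exact_mod_cast hp'
      push_cast at h hp ⊢
      have h1 : ρ < Real.logb 2 (p / q) := by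
        rw [Real.lt_logb_iff_rpow_lt one_lt_two (by positivity), lt_div_iff₀ hq0', mul_comm]
        exact h
      obtain ⟨t, ht1, ht2⟩ := exists_rat_btwn h1
      have ht0 : (0 : ℝ) < t := h0.trans ht1
      have ht0' : 0 < t := by exact_mod_cast ht0
      obtain ⟨a, ha⟩ := Int.eq_ofNat_of_zero_le (Rat.num_pos.mpr ht0').le
      have hb0 : 0 < t.den := t.den_pos
      have htab : (t : ℝ) = a / t.den := by
        have h5 : (t : ℝ) = t.num / t.den := by exact_mod_cast (Rat.num_div_den t).symm
        rw [h5, ha]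
        norm_num
      generalize t.den = b at hb0 htab
      have hb0' : (0 : ℝ) < b := by exact_mod_cast hb0
      have h2 : q ^ b * 2 ^ a < p ^ b := by
        rw [Real.lt_logb_iff_rpow_lt one_lt_two (by positivity), htab] at ht2
        have h6 : ((2 : ℝ) ^ ((a : ℝ) / b)) ^ b < ((p : ℝ) / q) ^ b :=
          pow_lt_pow_left₀ ht2 (by positivity) hb0.ne'
        rw [← Real.rpow_natCast ((2 : ℝ) ^ ((a : ℝ) / b)) b, ← Real.rpow_mul zero_le_two,
          div_mul_cancel₀ _ hb0'.ne', Real.rpow_natCast, div_pow, lt_div_iff₀ (by positivity)] at h6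
        rw [mul_comm]
        exact_mod_cast h6
      have h3 : (b : Z) * P ≤ a * M := by
        have := (hP a b hb0).2 (by
          rw [htab, lt_div_iff₀ hb0'] at ht1
          push_cast
          linarith)
        simpa using this
      have h4 : (f q M * f 2 P) ^ b < (f p M) ^ b := by
        have e3 : (q : Z) ^ b * 2 ^ a ≤ X := by exact_mod_cast hnX (q ^ b * 2 ^ a)
        have e1 : f ((q : Z) ^ b * 2 ^ a) M < f ((p : Z) ^ b) M :=
          hf.strictMono_base (by positivity) (by exact_mod_cast h2) (hnpX p b)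
            hMge1 hM1
        rw [hf.mul_base (by positivity) (hnpX q b) (by positivity) (h2X a) e3 hM0.le hM1,
          hf.pow_base one_le_two hM0.le hM1 a (h2X a),
          hf.pow_base (by exact_mod_cast hq) hM0.le hM1 b (hnpX q b),
          hf.pow_base (by exact_mod_cast hp0) hM0.le hM1 b (hnpX p b),
          ← hf.nsmul zero_le_two hX2 hM0.le a (hkM a)] at e1
        have e2 : f 2 (b * P) ≤ f 2 (a * M) :=
          hf.mono_exp one_le_two hX2 (by positivity) h3 (hkM a)
        rw [hf.nsmul zero_le_two hX2 hP0.le b (hqP b)] at e2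
        have e4 : (0 : Z) ≤ f q M ^ b := pow_nonneg
          (hf.nonneg (by positivity) (hnX q) hM0.le hM1) b
        calc (f q M * f 2 P) ^ b = (f q M) ^ b * (f 2 P) ^ b := mul_pow _ _ _
          _ ≤ (f q M) ^ b * f 2 (a * M) := mul_le_mul_of_nonneg_left e2 e4
          _ < (f p M) ^ b := e1
      have hfp0 := hf.nonneg (x := (p : Z)) (by positivity) (hnX p) hM0.le hM1
      have h5 : f q M * f 2 P ≤ f p M := by
        by_contra hcon
        push Not at hcon
        exact absurd h4 (not_lt.mpr (pow_le_pow_left₀ hfp0 hcon.le b))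
      by_contra hcon
      push Not at hcon
      have hyqX : (q : Z) * y ≤ X := le_trans (by nlinarith) (hqy q)
      have h7 : f (p * Y) M < f (q * y) M :=
        hf.strictMono_base (by positivity) hcon hyqX hMge1 hM1
      rw [hf.mul_base (by positivity) (hnX q) hy0 hyX.le hyqX hM0.le hM1,
        hf.mul_base (by positivity) (hnX p) (by linarith) hY1X (hqY p) hM0.le hM1] at h7
      have h8 : (1 : Z) ≤ f q M := hf.one_le (by exact_mod_cast hq) (hnX q) hM0.le hM1
      have h9 : f q M * f y M ≤ f q M * (f 2 P * f Y M) :=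
        mul_le_mul_of_nonneg_left hy1 (by linarith)
      have h10 : f q M * (f 2 P * f Y M) ≤ f p M * f Y M := by
        rw [← mul_assoc]
        exact mul_le_mul_of_nonneg_right h5 (by linarith)
      linarith

/-- Standard parts are closed under binary logarithms. -/
theorem logb_mem_kR {i : Z →+* R} (hi : StrictMono i)
    (hfl : ∀ r : R, ∃ z : Z, i z ≤ r ∧ r < i (z + 1)) (hnpb : NPB Z) {s : ℝ} (hs0 : 0 < s)
    (hs : s ∈ kR R) : Real.logb 2 s ∈ kR R := by
  have e := kR_eq hi hfl hnpb.exists_infin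
  rcases lt_trichotomy s 1 with h | h | h
  · have h1 : s⁻¹ ∈ kZ Z := by rw [← e]; exact kR_inv hs
    have h2 := logb_mem_kZ hi hnpb ((one_lt_inv₀ hs0).mpr h) h1
    rw [← e] at h2
    have h3 := kR_neg h2
    rwa [Real.logb_inv, neg_neg] at h3
  · rw [h, Real.logb_one]
    exact ⟨0, IsRatio.zero_left one_pos⟩
  · rw [e] at hs ⊢
    exact logb_mem_kZ hi hnpb h hs

/-- Standard parts are closed under binary exponentials. -/
theorem rpow_mem_kR {i : Z →+* R} (hi : StrictMono i)
    (hfl : ∀ r : R, ∃ z : Z, i z ≤ r ∧ r < i (z + 1)) (hnpb : NPB Z) {ρ : ℝ}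
    (hρ : ρ ∈ kR R) : (2 : ℝ) ^ ρ ∈ kR R := by
  have e := kR_eq hi hfl hnpb.exists_infin
  rcases lt_trichotomy ρ 0 with h | h | h
  · have h1 := kR_neg hρ
    rw [e] at h1
    have h2 := rpow_mem_kZ hi hnpb (by linarith : (0 : ℝ) < -ρ) h1
    rw [← e] at h2
    have h3 := kR_inv h2
    rwa [Real.rpow_neg zero_le_two, inv_inv] at h3
  · rw [h, Real.rpow_zero]
    exact ⟨1, IsRatio.self one_pos⟩
  · rw [e] at hρ ⊢
    exact rpow_mem_kZ hi hnpb h hρ

end stdpart2

end Pool.Agent.Lib_helper35.EIP
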