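import Mathlib
import Pool.Agent.Lib_helper35.EIP.StdPart2
import Pool.Agent.Lib_helper35.EIP.RichO

/-!
# The multiplicative group of finite non-infinitesimal positive elements is rich
-/

set_option autoImplicit false
set_option linter.unusedSectionVars false

namespace Pool.Agent.Lib_helper35.EIP

universe u

open ArchimedeanClass

section richW

variable {R : Type u} [Field R] [LinearOrder R] [IsStrictOrderedRing R]

/-- The standard part of `(y - 1) / β` is `r`. -/
def Dst (β y : R) (r : ℝ) : Prop := IsRatio ((y - 1) / β) 1 r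

lemma Dst.near {β y : R} {r : ℝ} (hβ : β ≠ 0) (hβi : IsRatio β 1 0) (h : Dst β y r) :
    IsRatio y 1 1 := by
  have h1 := (IsRatio.self (H := R) one_pos).add one_pos (hβi.mul_one h)
  rw [zero_mul, add_zero, mul_div_cancel₀ _ hβ] at h1
  convert h1 using 1
  ring

lemma Dst.mul {β y z : R} {r s : ℝ} (hβ : β ≠ 0) (hβi : IsRatio β 1 0) (hy : Dst β y r)
    (hz : Dst β z s) : Dst β (y * z) (r + s) := by
  have h1 := (hy.add one_pos hz).add one_pos (hβi.mul_one (hy.mul_one hz))
  rw [zero_mul, add_zero] at h1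
  unfold Dst
  convert h1 using 1
  field_simp
  ring

lemma Dst.one {β : R} : Dst β 1 0 := by
  unfold Dst
  rw [sub_self, zero_div]
  exact IsRatio.zero_left one_pos

lemma Dst.inv {β y : R} {r : ℝ} (hβ : β ≠ 0) (hβi : IsRatio β 1 0) (hy : Dst β y r) :
    Dst β y⁻¹ (-r) := by
  have h0 := hy.near hβ hβi
  have hy0 : 0 < y := h0.pos one_pos one_pos
  have h1 := hy.neg.mul_one (h0.inv_one one_pos)
  rw [inv_one, _root_.mul_one] at h1
  unfold Dst
  convert h1 using 1
  have := hy0.ne'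
  field_simp
  ring

lemma Dst.pow {β y : R} {r : ℝ} (hβ : β ≠ 0) (hβi : IsRatio β 1 0) (hy : Dst β y r) (n : ℕ) :
    Dst β (y ^ n) (n * r) := by
  induction n with
  | zero => simpa using Dst.one
  | succ n ih =>
    rw [pow_succ]
    convert ih.mul hβ hβi hy using 1
    push_cast; ring

lemma Dst.zpow {β y : R} {r : ℝ} (hβ : β ≠ 0) (hβi : IsRatio β 1 0) (hy : Dst β y r) (n : ℤ) :
    Dst β (y ^ n) (n * r) := by
  obtain ⟨k, rfl | rfl⟩ := n.eq_nat_or_neg
  · rw [zpow_natCast]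
    exact_mod_cast hy.pow hβ hβi k
  · rw [zpow_neg, zpow_natCast]
    convert (hy.pow hβ hβi k).inv hβ hβi using 1
    push_cast; ring

lemma Dst.self {β y : R} (hβ : β ≠ 0) (hy : y = 1 + β) : Dst β y 1 := by
  unfold Dst
  rw [hy, add_sub_cancel_left, div_self hβ]
  exact IsRatio.self one_pos

lemma Dst.one_lt {β y : R} {r : ℝ} (hβ : 0 < β) (hy : Dst β y r) (hr : 0 < r) : 1 < y := by
  have h1 := hy.pos one_pos hr
  rw [lt_div_iff₀ hβ, zero_mul] at h1
  linarith

lemma Dst.lt_one {β y : R} {r : ℝ} (hβ : 0 < β) (hy : Dst β y r) (hr : r < 0) : y < 1 := by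
  have h1 := hy.neg_of_neg one_pos hr
  rw [div_lt_iff₀ hβ, zero_mul] at h1
  linarith

/-- Ratios of elements near one. -/
lemma isRatio_of_Dst {A B : PosG R} {β : R} {r : ℝ} (hβ : 0 < β) (hβi : IsRatio β 1 0)
    (hB : pval B = 1 + β) (hA : Dst β (pval A) r) : IsRatio A B r := by
  intro p q _
  have hB1 : Dst β (pval B) 1 := Dst.self hβ.ne' hB
  have h1 := (hA.pow hβ.ne' hβi q).mul hβ.ne' hβi ((hB1.zpow hβ.ne' hβi p).inv hβ.ne' hβi)
  have hBp : 0 < pval B ^ p := zpow_pos (pval_pos B) p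
  constructor
  · intro h
    have h2 := h1.one_lt hβ (by linarith)
    rw [← div_eq_mul_inv, one_lt_div hBp] at h2
    rw [pval_le, pval_zsmul, pval_nsmul]
    exact h2.le
  · intro h
    have h2 := h1.lt_one hβ (by linarith)
    rw [← div_eq_mul_inv, div_lt_one hBp] at h2
    rw [pval_le, pval_zsmul, pval_nsmul]
    exact h2.le

variable (R) in
/-- The number two as a member of the multiplicative group. -/
def twoP : PosG R := toP 2 two_pos

lemma pval_twoP : pval (twoP R) = 2 := rfl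

lemma twoP_pos : 0 < twoP R := by
  rw [pval_pos_iff, pval_twoP]
  exact one_lt_two

lemma isRatio_twoP {A : PosG R} {s : ℝ} (hs : 0 < s) (h : IsRatio (pval A) 1 s) :
    IsRatio A (twoP R) (Real.logb 2 s) := by
  intro p q _
  have h1 := h.pow_one q
  constructor
  · intro h2
    rw [pval_le, pval_zsmul, pval_nsmul, pval_twoP]
    have h3 : (((2 : ℚ) ^ p : ℚ) : ℝ) < s ^ q := by
      push_cast
      rw [← Real.rpow_intCast, ← Real.lt_logb_iff_rpow_lt one_lt_two (by positivity), Real.logb_pow]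
      exact h2
    have h4 := h1.lt_of_lt h3
    push_cast at h4
    exact h4.le
  · intro h2
    rw [pval_le, pval_zsmul, pval_nsmul, pval_twoP]
    have h3 : s ^ q < (((2 : ℚ) ^ p : ℚ) : ℝ) := by
      push_cast
      rw [← Real.rpow_intCast, ← Real.logb_lt_iff_lt_rpow one_lt_two (by positivity), Real.logb_pow]
      exact h2
    have h4 := h1.gt_of_gt h3
    push_cast at h4
    exact h4.le

lemma exists_st {A : PosG R} (hA : A ∈ Fin0 (twoP R)) : ∃ s, 0 < s ∧ IsRatio (pval A) 1 s := by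
  rw [mem_Fin0, mk_le_mk] at hA
  obtain ⟨n, hn⟩ := hA
  rw [abs_of_pos (twoP_pos (R := R))] at hn
  obtain ⟨h1, h2⟩ := abs_le.mp hn
  rw [pval_le, pval_nsmul, pval_twoP] at h2
  rw [pval_le, pval_neg, pval_nsmul, pval_twoP] at h1
  have hA0 := pval_pos A
  have hb : mk (1 : R) ≤ mk (pval A) := by
    rw [mk_le_mk]
    refine ⟨2 ^ n, ?_⟩
    rw [abs_of_pos hA0, abs_one, nsmul_eq_mul, mul_one]
    push_cast
    exact h2
  obtain ⟨s, hs⟩ := IsRatio.exists_of_bounded one_pos hb
  refine ⟨s, ?_, hs⟩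
  by_contra hcon
  push Not at hcon
  have h3 : s < (((2 : ℚ) ^ n)⁻¹ : ℚ) := by
    have : (0 : ℝ) < (((2 : ℚ) ^ n)⁻¹ : ℚ) := by
      have : (0 : ℚ) < ((2 : ℚ) ^ n)⁻¹ := by positivity
      exact_mod_cast this
    linarith
  have h4 := hs.gt_of_gt h3
  push_cast at h4
  linarith

lemma mem_of_st {A : PosG R} {s : ℝ} (hs : 0 < s) (h : IsRatio (pval A) 1 s) :
    A ∈ Fin0 (twoP R) := (isRatio_twoP hs h).bounded twoP_pos

lemma mk_lt_of_near {α β : R} {A B : PosG R} (hα : 0 < α) (hβ : 0 < β) (hαi : IsRatio α 1 0)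
    (hA : pval A = 1 + α) (hB : pval B = 1 + β) (h : ∀ n : ℕ, n * α < β) : mk B < mk A := by
  have hA0 : 0 < A := by rw [pval_pos_iff, hA]; linarith
  have hB0 : 0 < B := by rw [pval_pos_iff, hB]; linarith
  rw [mk_lt_mk]
  intro n
  rw [abs_of_pos hA0, abs_of_pos hB0, pval_lt, pval_nsmul]
  have h1 := (Dst.self hα.ne' hA).pow hα.ne' hαi n
  have h2 := h1.gt_of_gt (t := ((n + 1 : ℕ) : ℚ)) (by push_cast; linarith)
  rw [div_lt_iff₀ hα] at h2
  have h3 := h (n + 1)
  push_cast at h2 h3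
  rw [hB]
  linarith

lemma lt_of_mk_lt' {α β : R} {A B : PosG R} (hα : 0 < α) (hβ : 0 < β)
    (hA : pval A = 1 + α) (hB : pval B = 1 + β) (h : mk B < mk A) (n : ℕ) : n * α < β := by
  have hA0 : 0 < A := by rw [pval_pos_iff, hA]; linarith
  have hB0 : 0 < B := by rw [pval_pos_iff, hB]; linarith
  have h1 := mk_lt_mk.mp h n
  rw [abs_of_pos hA0, abs_of_pos hB0, pval_lt, pval_nsmul, hA, hB] at h1
  have h2 := one_add_mul_le_pow (R := R) (a := α) (by linarith) n
  linarith

variable {Z : Type u} [CommRing Z] [LinearOrder Z] [IsStrictOrderedRing Z] [BArith Z]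

lemma ratio_near {A B : PosG R} (hB0 : 0 < B) (hB : IsRatio (pval B) 1 1) (hAB : mk B ≤ mk A) :
    ∃ r ∈ kR R, IsRatio A B r := by
  have h1 : 1 < pval B := pval_pos_iff.mp hB0
  set β := pval B - 1 with hβ
  have hβ0 : 0 < β := by linarith
  have hβi : IsRatio β 1 0 := by
    have := hB.add one_pos (IsRatio.self (H := R) one_pos).neg
    rw [add_neg_cancel, ← sub_eq_add_neg] at this
    exact this
  have hBβ : pval B = 1 + β := by rw [hβ]; ring
  obtain ⟨n, hn⟩ := mk_le_mk.mp hAB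
  rw [abs_of_pos hB0] at hn
  obtain ⟨h2, h3⟩ := abs_le.mp hn
  rw [pval_le, pval_nsmul] at h3
  rw [pval_le, pval_neg, pval_nsmul] at h2
  have h4 := (Dst.self hβ0.ne' hBβ).pow hβ0.ne' hβi n
  have h5 := h4.inv hβ0.ne' hβi
  have h6 := h4.gt_of_gt (t := ((n + 1 : ℕ) : ℚ)) (by push_cast; linarith)
  have h7 := h5.lt_of_lt (t := -((n + 1 : ℕ) : ℚ)) (by push_cast; linarith)
  push_cast at h6 h7
  have h8 : mk (1 : R) ≤ mk ((pval A - 1) / β) := by
    rw [mk_le_mk]
    refine ⟨n + 1, ?_⟩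
    rw [abs_one, nsmul_eq_mul, mul_one, abs_le]
    push_cast
    constructor
    · exact h7.le.trans (div_le_div_of_nonneg_right (by linarith) hβ0.le)
    · exact (div_le_div_of_nonneg_right (by linarith) hβ0.le).trans h6.le
  obtain ⟨r, hr⟩ := IsRatio.exists_of_bounded one_pos h8
  exact ⟨r, ⟨_, hr⟩, isRatio_of_Dst hβ0 hβi hBβ hr⟩

theorem rich_W {i : Z →+* R} (hi : StrictMono i)
    (hfl : ∀ r : R, ∃ z : Z, i z ≤ r ∧ r < i (z + 1)) (hnpb : NPB Z)
    (hroot : ∀ x : R, 0 < x → ∀ n : ℕ, 0 < n → ∃ y, 0 < y ∧ y ^ n = x) :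
    Rich (Fin0 (twoP R)) ⟨twoP R, self_mem_Fin0 _⟩ (kR R) Set.univ False := by
  have hdiv : ∀ a : PosG R, ∀ n : ℕ, 0 < n → DvdBy n a := by
    intro a n hn
    obtain ⟨y, hy, e⟩ := hroot (pval a) (pval_pos a) n hn
    refine ⟨toP y hy, pval_injective ?_⟩
    rw [pval_nsmul, pval_toP, e]
  have hst1 : ∀ {b : PosG R}, 0 < b → ∀ {t : ℝ}, IsRatio (pval b) 1 t → 1 ≤ t := by
    intro b hb t ht
    by_contra hcon
    push Not at hcon
    have h1 := ht.gt_of_gt (t := 1) (by push_cast; exact hcon)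
    push_cast at h1
    exact absurd h1 (not_lt.mpr (pval_pos_iff.mp hb).le)
  refine ⟨?_, ?_, fun h => h.elim, ?_, ?_, ?_, ?_, ?_, fun h => h.elim, ?_⟩
  · show (0 : PosG R) < twoP R
    exact twoP_pos
  · intro a
    refine ⟨0, Set.mem_univ _, fun n hn => ?_⟩
    rw [Pi.zero_apply, zero_zsmul, sub_zero]
    exact divisible_Fin0 hdiv a hn
  · intro _ a
    rw [← mk_coe_le]
    exact a.2
  · intro _ a n hn
    exact divisible_Fin0 hdiv a hn
  · intro b hb _ a r h
    rw [← isRatio_coe] at h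
    have hb' : (0 : PosG R) < b := by exact_mod_cast hb
    obtain ⟨t, ht0, ht⟩ := exists_st b.2
    obtain ⟨s, hs0, hs⟩ := exists_st a.2
    rcases eq_or_lt_of_le (hst1 hb' ht) with h1 | h1
    · rw [← h1] at ht
      obtain ⟨r', hr', h2⟩ := ratio_near hb' ht (h.bounded hb')
      rwa [h.unique hb' h2]
    · have h2 := isRatio_twoP ht0 ht
      have h3 := isRatio_twoP hs0 hs
      have h4 := h3.div twoP_pos h2 (Real.logb_pos one_lt_two h1)
      rw [h.unique hb' h4, div_eq_mul_inv]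
      exact kR_mul (logb_mem_kR hi hfl hnpb hs0 ⟨_, hs⟩)
        (kR_inv (logb_mem_kR hi hfl hnpb ht0 ⟨_, ht⟩))
  · intro b hb _ r hr
    have hb' : (0 : PosG R) < b := by exact_mod_cast hb
    obtain ⟨t, ht0, ht⟩ := exists_st b.2
    suffices h : ∃ A : PosG R, IsRatio A (b : PosG R) r by
      obtain ⟨A, hA⟩ := h
      have hAW : A ∈ Fin0 (twoP R) := by
        rw [mem_Fin0]
        exact (mem_Fin0.mp b.2).trans (hA.bounded hb')
      exact ⟨⟨A, hAW⟩, isRatio_coe.mp hA⟩
    rcases eq_or_lt_of_le (hst1 hb' ht) with h1 | h1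
    · rw [← h1] at ht
      obtain ⟨x, hx⟩ := hr
      have h1' : 1 < pval (b : PosG R) := pval_pos_iff.mp hb'
      set β := pval (b : PosG R) - 1 with hβ
      have hβ0 : 0 < β := by linarith
      have hβi : IsRatio β 1 0 := by
        have := ht.add one_pos (IsRatio.self (H := R) one_pos).neg
        rw [add_neg_cancel, ← sub_eq_add_neg] at this
        exact this
      have hBβ : pval (b : PosG R) = 1 + β := by rw [hβ]; ring
      have hD : Dst β (1 + x * β) r := by
        unfold Dst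
        rw [add_sub_cancel_left, mul_div_assoc, div_self hβ0.ne', mul_one]
        exact hx
      have hpos : 0 < 1 + x * β := (hD.near hβ0.ne' hβi).pos one_pos one_pos
      exact ⟨toP _ hpos, isRatio_of_Dst hβ0 hβi hBβ hD⟩
    · have h2 := isRatio_twoP ht0 ht
      have hσ := Real.logb_pos one_lt_two h1
      have h3 : (2 : ℝ) ^ (r * Real.logb 2 t) ∈ kR R :=
        rpow_mem_kR hi hfl hnpb (kR_mul hr (logb_mem_kR hi hfl hnpb ht0 ⟨_, ht⟩))
      obtain ⟨x, hx⟩ := h3
      have hpos : (0 : ℝ) < 2 ^ (r * Real.logb 2 t) := Real.rpow_pos_of_pos two_pos _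
      have hx0 : 0 < x := hx.pos one_pos hpos
      have h4 : IsRatio (toP x hx0) (twoP R) _ := isRatio_twoP hpos hx
      rw [Real.logb_rpow two_pos (by norm_num)] at h4
      have h5 := h4.div twoP_pos h2 hσ
      rw [mul_div_assoc, div_self hσ.ne', mul_one] at h5
      exact ⟨_, h5⟩
  · intro b c _ hcb
    rw [← mk_coe_lt] at hcb
    suffices h : ∃ a : PosG R, mk (c : PosG R) < mk a ∧ mk a < mk (b : PosG R) by
      obtain ⟨a, h1, h2⟩ := h
      have ha : a ∈ Fin0 (twoP R) := by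
        rw [mem_Fin0]
        exact (mem_Fin0.mp c.2).trans h1.le
      exact ⟨⟨a, ha⟩, mk_coe_lt.mp h1, mk_coe_lt.mp h2⟩
    have hcW : |(c : PosG R)| ∈ Fin0 (twoP R) := by
      rw [mem_Fin0, mk_abs]
      exact c.2
    have hc0 : (0 : PosG R) < |(c : PosG R)| := by
      rw [abs_pos]
      intro h
      rw [h, mk_zero] at hcb
      exact absurd hcb (not_lt.mpr le_top)
    rw [← mk_abs (c : PosG R), ← mk_abs (b : PosG R)] at hcb ⊢
    generalize |(c : PosG R)| = C at hcb hcW hc0 ⊢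
    have hb0 : (0 : PosG R) ≤ |(b : PosG R)| := abs_nonneg _
    generalize |(b : PosG R)| = B at hcb hb0 ⊢
    obtain ⟨s, hs0, hs⟩ := exists_st hcW
    have hC1 : 1 < pval C := pval_pos_iff.mp hc0
    obtain ⟨γ, hγ⟩ : ∃ γ, γ = pval C - 1 := ⟨_, rfl⟩
    have hγ0 : 0 < γ := by linarith
    have hCγ : pval C = 1 + γ := by rw [hγ]; ring
    obtain ⟨m, hm⟩ : ∃ m : ℕ, γ < m := by
      obtain ⟨m, hm⟩ := exists_nat_gt s
      refine ⟨m, ?_⟩
      have := hs.gt_of_gt (t := (m : ℚ)) (by push_cast; exact hm)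
      push_cast at this
      linarith
    have hm0 : (0 : R) < m := hγ0.trans hm
    -- small elements
    have hsmall : ∀ α : R, 0 < α → (∀ n : ℕ, n * α < γ) → IsRatio α 1 0 := by
      intro α hα h
      apply IsRatio.of_mk_lt one_pos
      rw [mk_lt_mk]
      intro n
      rw [abs_of_pos hα, abs_one, nsmul_eq_mul]
      have h1 := (h (n * m)).trans hm
      push_cast at h1
      have h2 : (n * α) * (m : R) < 1 * m := by linarith
      exact lt_of_mul_lt_mul_right h2 hm0.le
    have hposa : ∀ α : R, 0 < α → 0 < 1 + α := fun α h => by linarith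
    rcases eq_or_lt_of_le hb0 with hb | hb
    · obtain ⟨ω, hω⟩ := hnpb.exists_infin
      have hω' : ∀ n : ℕ, (n : R) < i ω := fun n => by
        have := hi (hω n)
        rwa [map_natCast] at this
      have hω0 : 0 < i ω := by simpa using hω' 0
      have hα0 : 0 < γ / i ω := div_pos hγ0 hω0
      have hα : ∀ n : ℕ, n * (γ / i ω) < γ := by
        intro n
        rw [mul_div_assoc', div_lt_iff₀ hω0, mul_comm]
        exact mul_lt_mul_of_pos_left (hω' n) hγ0
      refine ⟨toP (1 + γ / i ω) (hposa _ hα0),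
        mk_lt_of_near hα0 hγ0 (hsmall _ hα0 hα) rfl hCγ hα, ?_⟩
      rw [← hb, mk_zero, lt_top_iff_ne_top]
      intro h
      rw [mk_eq_top_iff] at h
      have := congrArg pval h
      rw [pval_toP, pval_zero] at this
      linarith
    · have hB1 : 1 < pval B := pval_pos_iff.mp hb
      obtain ⟨β, hβ⟩ : ∃ β, β = pval B - 1 := ⟨_, rfl⟩
      have hβ0 : 0 < β := by linarith
      have hBβ : pval B = 1 + β := by rw [hβ]; ring
      have key := lt_of_mk_lt' hβ0 hγ0 hBβ hCγ hcb
      obtain ⟨α, hα0, hα⟩ := hroot (β * γ) (mul_pos hβ0 hγ0) 2 two_pos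
      have hαγ : ∀ n : ℕ, n * α < γ := by
        intro n
        apply lt_of_mul_self_lt_mul_self₀ hγ0.le
        have h1 := key (n * n)
        push_cast at h1
        calc (n : R) * α * (n * α) = (n * n) * α ^ 2 := by ring
          _ = (n * n * β) * γ := by rw [hα]; ring
          _ < γ * γ := mul_lt_mul_of_pos_right h1 hγ0
      have hβα : ∀ n : ℕ, n * β < α := by
        intro n
        apply lt_of_mul_self_lt_mul_self₀ hα0.le
        have h1 := key (n * n)
        push_cast at h1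
        calc (n : R) * β * (n * β) = β * ((n * n) * β) := by ring
          _ < β * γ := mul_lt_mul_of_pos_left h1 hβ0
          _ = α * α := by rw [← hα]; ring
      exact ⟨toP (1 + α) (hposa _ hα0), mk_lt_of_near hα0 hγ0 (hsmall _ hα0 hαγ) rfl hCγ hαγ,
        mk_lt_of_near hβ0 hα0 (hsmall _ hβ0 key) hBβ rfl hβα⟩
  · intro s _ b hb _
    refine ⟨0, ?_, fun n hn => divisible_Fin0 hdiv _ hn⟩
    rw [mk_zero, lt_top_iff_ne_top]
    intro h
    rw [mk_eq_top_iff] at h
    exact hb.ne' h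

end richW

end Pool.Agent.Lib_helper35.EIP
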