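import Mathlib
import Pool.Agent.Lib_helper35.EIP.Embed
import Pool.Agent.Lib_helper35.EIP.RichG3
import Pool.Agent.Lib_helper35.EIP.RichW
import Pool.Agent.Lib_helper35.EIP.Ind

/-!
# Gluing the two isomorphisms
-/

set_option autoImplicit false
set_option linter.unusedSectionVars false

namespace Pool.Agent.Lib_helper35.EIP

universe u

open ArchimedeanClass

section glue

variable {R : Type u} [Field R] [LinearOrder R] [IsStrictOrderedRing R]
variable {Z : Type u} [CommRing Z] [LinearOrder Z] [IsStrictOrderedRing Z] [BArith Z]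

lemma standard_of_fin {i : Z →+* R} (hi : StrictMono i) {z : Z} (hz : i z ∈ Fin0 (1 : R)) :
    ∃ j : ℤ, z = j := by
  rw [mem_Fin0, mk_le_mk] at hz
  obtain ⟨n, hn⟩ := hz
  rw [abs_one, nsmul_eq_mul, mul_one] at hn
  have h1 : |z| ≤ n := by
    rw [abs_le] at hn ⊢
    constructor
    · apply hi.le_iff_le.mp
      simpa using hn.1
    · apply hi.le_iff_le.mp
      simpa using hn.2
  obtain ⟨k, _, hk⟩ := exists_nat_of_le (abs_nonneg z) h1
  rcases abs_choice z with h | h
  · exact ⟨k, by rw [← h, hk]; simp⟩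
  · refine ⟨-k, ?_⟩
    have : z = -|z| := by rw [h]; ring
    rw [this, hk]
    simp

theorem exists_exp {i : Z →+* R} (hi : StrictMono i)
    (hfl : ∀ r : R, ∃ z : Z, i z ≤ r ∧ r < i (z + 1))
    (e1 : Z ≃+ G2 i hi) (h1 : ∀ x y, x < y ↔ e1 x < e1 y) (h1' : e1 1 = tG i hi 2 pow2_two)
    (e2 : Fin0 (1 : R) ≃+ Fin0 (twoP R)) (h2 : ∀ x y, x < y ↔ e2 x < e2 y)
    (h2' : e2 ⟨1, self_mem_Fin0 1⟩ = ⟨twoP R, self_mem_Fin0 _⟩) :
    ∃ e : R → R, IsBaseTwoExponential e ∧ ∀ z : Z, 0 < z → ∃ p : Z, e (i z) = i p := by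
  classical
  choose c hc1 hc2 using hfl
  have hfin : ∀ r, r - i (c r) ∈ Fin0 (1 : R) := by
    intro r
    rw [mem_Fin0, mk_le_mk]
    refine ⟨1, ?_⟩
    rw [abs_one, one_smul, abs_le]
    have h := hc2 r
    rw [map_add, map_one] at h
    have h' := hc1 r
    constructor <;> linarith
  let E : Z → Fin0 (1 : R) → PosG R := fun z o => (e1 z : PosG R) + (e2 o : PosG R)
  have hEadd : ∀ z o z' o', E (z + z') (o + o') = E z o + E z' o' := by
    intro z o z' o'
    simp only [E, map_add, AddSubgroup.coe_add]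
    abel
  have hE0 : E 0 0 = 0 := by simp [E]
  have hEneg : ∀ z o, E (-z) (-o) = -E z o := by
    intro z o
    simp only [E, map_neg, AddSubgroup.coe_neg]
    abel
  have hker : ∀ (z : Z) (o : Fin0 (1 : R)), i z + (o : R) = 0 → E z o = 0 := by
    intro z o h
    have h3 : i z = ((-o : Fin0 (1 : R)) : R) := by
      rw [AddSubgroup.coe_neg]; linarith
    have h4 : i z ∈ Fin0 (1 : R) := by rw [h3]; exact (-o).2
    obtain ⟨j, rfl⟩ := standard_of_fin hi h4
    have h5 : o = (-j) • (⟨1, self_mem_Fin0 1⟩ : Fin0 (1 : R)) := by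
      apply Subtype.ext
      rw [AddSubgroup.coe_zsmul, zsmul_eq_mul]
      rw [map_intCast] at h
      push_cast
      linarith
    have h6 : ((j : ℤ) : Z) = j • (1 : Z) := by simp
    simp only [E]
    rw [h5, h6, map_zsmul, map_zsmul, h1', h2', AddSubgroup.coe_zsmul, AddSubgroup.coe_zsmul]
    apply pval_injective
    rw [pval_add, pval_zsmul, pval_zsmul, pval_tG, pval_twoP, pval_zero, map_ofNat, zpow_neg]
    exact mul_inv_cancel₀ (by positivity)
  have hwell : ∀ (z : Z) (o : Fin0 (1 : R)) (z' : Z) (o' : Fin0 (1 : R)),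
      i z + (o : R) = i z' + (o' : R) → E z o = E z' o' := by
    intro z o z' o' h
    have h3 := hker (z + -z') (o + -o') (by
      rw [map_add, map_neg, AddSubgroup.coe_add, AddSubgroup.coe_neg]; linarith)
    rw [hEadd, hEneg] at h3
    rw [← sub_eq_zero, sub_eq_add_neg]
    exact h3
  let e : R → R := fun r => pval (E (c r) ⟨r - i (c r), hfin r⟩)
  have hspec : ∀ (z : Z) (o : Fin0 (1 : R)), e (i z + (o : R)) = pval (E z o) := by
    intro z o
    show pval _ = _
    congr 1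
    apply hwell
    simp
  have hdec : ∀ r : R, ∃ (z : Z) (o : Fin0 (1 : R)), r = i z + (o : R) ∧ i z ≤ r ∧
      r < i (z + 1) := by
    intro r
    exact ⟨c r, ⟨r - i (c r), hfin r⟩, by simp, hc1 r, hc2 r⟩
  have hadd : ∀ x y : R, e (x + y) = e x * e y := by
    intro x y
    obtain ⟨z, o, rfl, -⟩ := hdec x
    obtain ⟨z', o', rfl, -⟩ := hdec y
    have : i z + (o : R) + (i z' + (o' : R)) = i (z + z') + ((o + o' : Fin0 (1 : R)) : R) := by
      rw [map_add, AddSubgroup.coe_add]; ring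
    rw [this, hspec, hspec, hspec, hEadd, pval_add]
  have hpos : ∀ x, 0 < e x := fun x => pval_pos _
  have he1 : ∀ {z : Z}, 0 < z ↔ (0 : PosG R) < e1 z := by
    intro z
    have := h1 0 z
    rw [map_zero] at this
    exact this
  have he2 : ∀ {o : Fin0 (1 : R)}, 0 < o ↔ (0 : PosG R) < e2 o := by
    intro o
    have := h2 0 o
    rw [map_zero] at this
    exact this
  have hone : ∀ x, 0 < x → 1 < e x := by
    intro x hx
    obtain ⟨z, o, hxe, hz1, hz2⟩ := hdec x
    have hz : 0 ≤ z := by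
      have : (0 : R) < i (z + 1) := hx.trans hz2
      rw [← map_zero i] at this
      exact lt_add_one_iff'.mp (hi.lt_iff_lt.mp this)
    have ho : 0 ≤ o := by
      rw [← Subtype.coe_le_coe]
      show (0 : R) ≤ o
      linarith
    rw [hxe, hspec, ← pval_pos_iff]
    rcases eq_or_lt_of_le hz with h3 | h3
    · rcases eq_or_lt_of_le ho with h4 | h4
      · rw [← h3, ← h4] at hxe
        simp at hxe
        exact absurd hxe hx.ne'
      · show (0 : PosG R) < e1 z + e2 o
        rw [← h3, map_zero]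
        have := he2.mp h4
        simpa using this
    · have h5 := he1.mp h3
      rcases eq_or_lt_of_le ho with h4 | h4
      · show (0 : PosG R) < e1 z + e2 o
        rw [← h4, map_zero]
        simpa using h5
      · exact add_pos h5 (he2.mp h4)
  have hzero : e 0 = 1 := by
    have := hadd 0 0
    rw [add_zero] at this
    have h := hpos 0
    nlinarith [mul_self_eq_mul_self_iff (a := e 0) (b := 1), h]
  have hneg : ∀ x, e (-x) = (e x)⁻¹ := by
    intro x
    have := hadd x (-x)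
    rw [add_neg_cancel, hzero] at this
    exact eq_inv_of_mul_eq_one_right this.symm
  refine ⟨e, ⟨hadd, ?_, ?_, ?_⟩, ?_⟩
  · intro x y hxy
    have h3 : y = x + (y - x) := by ring
    rw [h3, hadd]
    have h4 := hone (y - x) (by linarith)
    have h5 := hpos x
    nlinarith
  · ext y
    constructor
    · rintro ⟨x, rfl⟩
      exact hpos x
    · intro hy
      have key : ∀ y : R, 1 ≤ y → ∃ x, e x = y := by
        intro y hy
        have hy0 : 0 < y := by linarith
        obtain ⟨z, _, _, hz1, hz2⟩ := hdec y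
        have hz : 1 ≤ z := by
          have : (1 : R) < i (z + 1) := lt_of_le_of_lt hy hz2
          rw [← map_one i] at this
          have h6 := hi.lt_iff_lt.mp this
          exact lt_add_one_iff'.mp h6
        obtain ⟨p, hp, hpz, hz2p⟩ := exists_pow2_le hz
        have hp0 : 0 < i p := by rw [← map_zero i]; exact hi hp.pos
        have h3 : i p ≤ y := (hi.le_iff_le.mpr hpz).trans hz1
        have h4 : y < 2 * i p := by
          calc y < i (z + 1) := hz2
            _ ≤ i (2 * p) := hi.le_iff_le.mpr (lt_iff_add_one_le'.mp hz2p)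
            _ = 2 * i p := by rw [map_mul, map_ofNat]
        have hw0 : 0 < y / i p := div_pos hy0 hp0
        have hw1 : 1 ≤ y / i p := by rw [one_le_div hp0]; exact h3
        have hw2 : y / i p ≤ 2 := by rw [div_le_iff₀ hp0]; exact h4.le
        have hwF : toP (y / i p) hw0 ∈ Fin0 (twoP R) := by
          rw [mem_Fin0, mk_le_mk]
          refine ⟨1, ?_⟩
          have e3 : (0 : PosG R) ≤ toP (y / i p) hw0 := hw1
          rw [abs_of_pos (twoP_pos (R := R)), abs_of_nonneg e3, one_smul]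
          exact hw2
        obtain ⟨z', hz'⟩ := e1.surjective (tG i hi p hp)
        obtain ⟨o', ho'⟩ := e2.surjective ⟨_, hwF⟩
        refine ⟨i z' + (o' : R), ?_⟩
        rw [hspec]
        simp only [E]
        rw [hz', ho', pval_add, pval_tG, pval_toP]
        field_simp
      have hy' : (0 : R) < y := hy
      rcases le_total 1 y with h | h
      · exact key y h
      · obtain ⟨x, hx⟩ := key y⁻¹ ((one_le_inv₀ hy').mpr h)
        exact ⟨-x, by rw [hneg, hx, inv_inv]⟩
  · have h3 := hspec 1 0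
    rw [map_one, AddSubgroup.coe_zero, add_zero] at h3
    rw [h3]
    simp only [E]
    rw [h1', map_zero, AddSubgroup.coe_zero, add_zero, pval_tG, map_ofNat]
  · intro z hz
    have h3 := hspec z 0
    rw [AddSubgroup.coe_zero, add_zero] at h3
    have h4 : 0 ≤ e1 z := by
      have := (h1 0 z).mp hz
      rw [map_zero] at this
      exact this.le
    obtain ⟨p, hp, h5⟩ := exists_tG h4
    refine ⟨p, ?_⟩
    rw [h3]
    simp only [E]
    rw [map_zero, AddSubgroup.coe_zero, add_zero, h5, pval_tG]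

theorem main_Z [Countable Z] (hnpb : NPB Z) :
    ∃ (R : Type u) (_ : Field R) (_ : LinearOrder R) (_ : IsStrictOrderedRing R)
      (_ : IsRealClosed R) (e : R → R) (i : Z →+* R), IsBaseTwoExponential e ∧ StrictMono i ∧
      (∀ r : R, ∃ z : Z, i z ≤ r ∧ r < i (z + 1)) ∧
      ∀ z : Z, 0 < z → ∃ p : Z, e (i z) = i p := by
  obtain ⟨R, hF, hL, hO, i, hi, hrc, hcount, hfl⟩ := exists_rcf (Z := Z)
  have hroot : ∀ x : R, 0 < x → ∀ n : ℕ, 0 < n → ∃ y, 0 < y ∧ y ^ n = x := by
    intro x hx n hn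
    obtain ⟨y, hy⟩ := IsRealClosed.exists_eq_pow_of_nonneg hx.le hn.ne'
    have hy0 : y ≠ 0 := by
      rintro rfl
      rw [zero_pow hn.ne'] at hy
      exact hx.ne' hy
    refine ⟨|y|, abs_pos.mpr hy0, ?_⟩
    rw [← abs_pow, ← hy, abs_of_pos hx]
  have hsqrt : ∀ x : R, 0 ≤ x → ∃ y, 0 ≤ y ∧ y * y = x := by
    intro x hx
    rcases eq_or_lt_of_le hx with h | h
    · exact ⟨0, le_rfl, by rw [mul_zero]; exact h⟩
    · obtain ⟨y, hy, hyx⟩ := hroot x h 2 two_pos
      exact ⟨y, hy.le, by rw [← hyx]; ring⟩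
  obtain ⟨ω, hω⟩ := hnpb.exists_infin
  have hε : ∃ ω : R, ∀ n : ℕ, (n : R) < ω := ⟨i ω, fun n => by
    have := hi (hω n)
    rwa [map_natCast] at this⟩
  have hcG : Countable (PosG R) := inferInstanceAs (Countable {x : R // 0 < x})
  obtain ⟨e1, h1, h1'⟩ := exists_iso (rich_Z ⟨ω, hω⟩) (rich_G (i := i) (hi := hi) hnpb) ResZ_sub
  obtain ⟨e2, h2, h2'⟩ := exists_iso (rich_O hsqrt hε) (rich_W hi hfl hnpb hroot)
    (fun _ _ _ _ => Set.mem_univ _)
  obtain ⟨e, he, he'⟩ := exists_exp hi hfl e1 h1 h1' e2 h2 h2'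
  exact ⟨R, hF, hL, hO, hrc, e, i, he, hi, hfl, he'⟩

end glue

section final

variable {M : Type u} [CommSemiring M] [LinearOrder M] [IsStrictOrderedRing M]

theorem main_M [Countable M] (hM : IsModelIDelta0 M) (hpb : ¬ PolynomiallyBounded M) :
    ∃ (R : Type u) (_ : Field R) (_ : LinearOrder R) (_ : IsStrictOrderedRing R)
      (_ : IsRealClosed R) (e : R → R) (Z : Subring R), IsBaseTwoExponential e ∧
      IsIntegerPart Z ∧ (∀ z ∈ Z, 0 < z → e z ∈ Z) ∧
      ∃ f : M →+* R, StrictMono f ∧ ∀ r : R, r ∈ Z ↔ ∃ m : M, r = f m ∨ r = -f m := by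
  have : ExistsAddOfLE M := hM.existsAddOfLE
  have hsurj : ∀ z : ZR M, 0 ≤ z → ∃ m : M, ZR.ι m = z := ZR.exists_of_nonneg
  have hB : BArith (ZR M) := by
    refine ⟨?_, hM.bInd ZR.ι ZR.ι_strictMono hsurj⟩
    intro z hz
    obtain ⟨m, rfl⟩ := hsurj z hz.le
    rw [← map_zero ZR.ι, ZR.ι_strictMono.lt_iff_lt] at hz
    rw [← map_one ZR.ι, ZR.ι_strictMono.le_iff_le]
    exact hM.discrete m hz
  have hnpb : NPB (ZR M) := by
    intro a
    obtain ⟨m, hm⟩ := hsurj |a| (abs_nonneg a)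
    unfold PolynomiallyBounded at hpb
    push Not at hpb
    obtain ⟨x, hx⟩ := hpb m
    refine ⟨ZR.ι x, fun n => ?_⟩
    calc a ^ n ≤ |a ^ n| := le_abs_self _
      _ = ZR.ι (m ^ n) := by rw [abs_pow, ← hm, map_pow]
      _ < ZR.ι x := ZR.ι_strictMono (hx n)
  obtain ⟨R, hF, hL, hO, hrc, e, i, he, hi, hfl, hexp⟩ := main_Z hnpb
  have hpm : ∀ z : ZR M, ∃ m : M, z = ZR.ι m ∨ z = -ZR.ι m := by
    intro z
    obtain ⟨m, hm⟩ := hsurj |z| (abs_nonneg z)
    refine ⟨m, ?_⟩
    rcases abs_choice z with h | h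
    · left; rw [hm, h]
    · right; rw [hm, h, neg_neg]
  refine ⟨R, hF, hL, hO, hrc, e, i.range, he, ⟨?_, ?_⟩, ?_, i.comp ZR.ι, ?_, ?_⟩
  · rintro _ ⟨z, rfl⟩ hz
    rw [← map_zero i, hi.lt_iff_lt] at hz
    rw [← map_one i, hi.le_iff_le]
    exact BArith.discrete z hz
  · intro r
    obtain ⟨z, h1, h2⟩ := hfl r
    rw [map_add, map_one] at h2
    exact ⟨i z, ⟨z, rfl⟩, h1, h2⟩
  · rintro _ ⟨z, rfl⟩ hz
    rw [← map_zero i, hi.lt_iff_lt] at hz
    obtain ⟨p, hp⟩ := hexp z hz
    exact ⟨p, hp.symm⟩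
  · exact hi.comp ZR.ι_strictMono
  · intro r
    constructor
    · rintro ⟨z, rfl⟩
      obtain ⟨m, h | h⟩ := hpm z
      · exact ⟨m, Or.inl (by rw [h]; rfl)⟩
      · exact ⟨m, Or.inr (by rw [h, map_neg]; rfl)⟩
    · rintro ⟨m, rfl | rfl⟩
      · exact ⟨ZR.ι m, rfl⟩
      · exact ⟨-ZR.ι m, by rw [map_neg]; rfl⟩

end final

end Pool.Agent.Lib_helper35.EIP
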